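import Pool.Agent.U189.MG.Fre

/-!
# Classes which are free along a set of prime divisors: the main theorem
-/

set_option autoImplicit false
set_option linter.all false
set_option maxHeartbeats 1000000

open FF MvPolynomial Pool.Agent.W602.GT Pool.Agent.W603.LV

namespace Pool.Agent.U189.MG.G

open Pool.Agent.Results.MP_89a3f8_ag.TerminationOfFlips (IsSection)
open Pool.Agent.U660.MD Pool.Agent.Q57.FT Pool.Agent.Q57.HK Pool.Agent.U189.MG

variable {p N : ℕ} {K : Type} [Field K] [Algebra ℂ K] {ω : Place ℂ K → ℤ}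
  {δ : Fin p → Place ℂ K → ℚ}

theorem gB_univ' {p N0 : ℕ} (g : Fin N0 → Fin p → ℤ) : gB g Finset.univ = g := by
  classical
  funext b i
  simp [gB]

/-- **The cones of the classes which are free along sets of prime divisors.** -/
theorem free_cones (habs : ∀ S : Finset K, ∃ (E : ℕ) (g : K), g ≠ 0 ∧
      ∀ s ∈ S, s ≠ 0 → ∀ P : Place ℂ K, E * ω P - P.ord g ≤ P.ord s)
    (hFG : (Pool.Agent.Q57.CX.coxRing N (ext ω δ)).FG) :
    ∃ (L : ℕ) (B : Fin L → ℕ) (h : ∀ l, Fin (B l) → Fin p → ℤ), ∀ PP : Set (Place ℂ K), ∃ l,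
      (∀ b, IsFreeAlong N δ PP (h l b)) ∧ {w | IsFreeAlongUpTo N δ PP w} = coneOf (h l) := by
  classical
  by_cases hne : Nonempty (Place ℂ K)
  swap
  · obtain ⟨B, h, hh⟩ := minkowski (p := p) (S := 0) (fun s => s.elim0)
    refine ⟨1, fun _ => B, fun _ => h, fun PP => ⟨0, ?_, ?_⟩⟩
    · exact fun b => ⟨⟨1, one_ne_zero, fun P _ => absurd ⟨P⟩ hne⟩, fun P _ _ => absurd ⟨P⟩ hne⟩
    · refine Set.ext fun w => ⟨fun _ => (hh w).1 fun s => s.elim0, fun hw => ?_⟩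
      exact upto_of_cone (fun b => ⟨⟨1, one_ne_zero, fun P _ => absurd ⟨P⟩ hne⟩,
        fun P _ _ => absurd ⟨P⟩ hne⟩) hw
  obtain ⟨P0⟩ := hne
  obtain ⟨N0, g, f, hgen⟩ := gens_of_fg hFG
  -- the cones
  have hcone : ∀ T : Finset (Finset (Fin N0)), ∃ (B : ℕ) (h : Fin B → Fin p → ℤ),
      ∀ w : Fin p → ℝ, RC h w ↔ (∀ B ∈ T, RC (gB g B) (Fin.cons (α := fun _ => ℝ) 0 w)) ∧
        RC g (Fin.cons (α := fun _ => ℝ) 0 w) := by
    intro T
    obtain ⟨SA, A0, hA0⟩ := weyl g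
    obtain ⟨B2, h2, hh2⟩ := rc_inter (ι := {B // B ∈ T}) (fun B => gB g B.1) A0
    obtain ⟨S1, A, hA⟩ := weyl h2
    obtain ⟨B1, h1, hh1⟩ := minkowski (p := p) (fun s : Fin S1 => fun i => A s (Fin.succ i))
    refine ⟨B1, h1, fun w => ?_⟩
    rw [← hh1]
    have e1 : IQ (fun s : Fin S1 => fun i => A s (Fin.succ i)) w ↔
        IQ A (Fin.cons (α := fun _ => ℝ) 0 w) := by
      unfold IQ
      refine forall_congr' fun s => ?_
      rw [Fin.sum_univ_succ (fun i => (A s i : ℝ) * (Fin.cons (α := fun _ => ℝ) 0 w : Fin (p + 1) → ℝ) i)]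
      simp only [Fin.cons_zero, Fin.cons_succ, mul_zero, zero_add]
    rw [e1, ← hA, hh2, ← hA0]
    exact ⟨fun H => ⟨fun B hB => H.1 ⟨B, hB⟩, H.2⟩, fun H => ⟨fun B => H.1 B.1 B.2, H.2⟩⟩
  choose B h hh using hcone
  -- the multiples
  have hmul : ∀ (v : Fin p → ℤ) (C : Finset (Fin N0)), ∃ k : ℕ, 1 ≤ k ∧
      (RC (gB g C) (Fin.cons (α := fun _ => ℝ) 0 fun i => (v i : ℝ)) → ∃ z : Fin N0 → ℕ,
        (∀ b, b ∉ C → z b = 0) ∧ ∀ i, ∑ b, (z b : ℤ) * g b i =
          (Fin.cons (α := fun _ => ℤ) 0 (k • v) : Fin (p + 1) → ℤ) i) := by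
    intro v C
    by_cases hv : RC (gB g C) (Fin.cons (α := fun _ => ℝ) 0 fun i => (v i : ℝ))
    · have h1 : CoG g C (Fin.cons (α := fun _ => ℚ) 0 fun i => ((v i : ℤ) : ℚ)) := by
        rw [cog_iff]
        convert hv using 1
        funext i
        induction i using Fin.cases with
        | zero => simp
        | succ i => simp
      obtain ⟨k, hk, z, hz1, hz2⟩ := exists_mult h1
      refine ⟨k, hk, fun _ => ⟨z, hz1, fun i => ?_⟩⟩
      have h2 := hz2 i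
      induction i using Fin.cases with
      | zero =>
        simp only [Fin.cons_zero, mul_zero] at h2 ⊢
        exact_mod_cast h2
      | succ i =>
        simp only [Fin.cons_succ] at h2 ⊢
        rw [Pi.smul_apply, nsmul_eq_mul]
        exact_mod_cast h2
    · exact ⟨1, le_rfl, fun h => absurd h hv⟩
  choose kk hkk1 hkk2 using hmul
  obtain ⟨kt, hkt⟩ : ∃ kt : ∀ T, Fin (B T) → ℕ, kt = fun T b =>
    kk (h T b) Finset.univ * ∏ C ∈ T, kk (h T b) C := ⟨_, rfl⟩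
  have hkt1 : ∀ T b, 1 ≤ kt T b := by
    intro T b
    rw [hkt]
    exact Nat.mul_pos (hkk1 _ _) (Finset.prod_pos fun C _ => hkk1 _ _)
  have hdvdu : ∀ T b, kk (h T b) Finset.univ ∣ kt T b := by
    intro T b
    rw [hkt]
    exact dvd_mul_right _ _
  have hdvd : ∀ T b C, C ∈ T → kk (h T b) C ∣ kt T b := by
    intro T b C hC
    rw [hkt]
    exact (Finset.dvd_prod_of_mem _ hC).trans (dvd_mul_left _ _)
  have hlift : ∀ T b C, RC (gB g C) (Fin.cons (α := fun _ => ℝ) 0 fun i => (h T b i : ℝ)) →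
      kk (h T b) C ∣ kt T b → ∃ z : Fin N0 → ℕ, (∀ c, c ∉ C → z c = 0) ∧
        ∀ i, ∑ c, (z c : ℤ) * g c i =
          (Fin.cons (α := fun _ => ℤ) 0 (kt T b • h T b) : Fin (p + 1) → ℤ) i := by
    intro T b C hC hd
    obtain ⟨z, hz1, hz2⟩ := hkk2 _ _ hC
    obtain ⟨c, hc⟩ := hd
    refine ⟨fun x => c * z x, fun x hx => by beta_reduce; rw [hz1 x hx, mul_zero], fun i => ?_⟩
    have h1 : ∑ x, ((c * z x : ℕ) : ℤ) * g x i = c * ∑ x, (z x : ℤ) * g x i := by
      rw [Finset.mul_sum]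
      refine Finset.sum_congr rfl fun x _ => ?_
      push_cast
      ring
    rw [h1, hz2 i, hc]
    induction i using Fin.cases with
    | zero => simp
    | succ i =>
      simp only [Fin.cons_succ]
      rw [Pi.smul_apply, Pi.smul_apply, nsmul_eq_mul, nsmul_eq_mul]
      push_cast
      ring
  obtain ⟨hs, hhs⟩ : ∃ hs : ∀ T, Fin (B T) → Fin p → ℤ, hs = fun T b => kt T b • h T b := ⟨_, rfl⟩
  have hsc : ∀ T, coneOf (hs T) = coneOf (h T) := fun T => by
    rw [hhs]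
    exact coneOf_scale (hkt1 T) fun _ => rfl
  let e : Finset (Finset (Fin N0)) ≃ Fin (Fintype.card (Finset (Finset (Fin N0)))) :=
    Fintype.equivFin _
  refine ⟨Fintype.card (Finset (Finset (Fin N0))), fun l => B (e.symm l), fun l => hs (e.symm l),
    fun PP => ?_⟩
  obtain ⟨T, hT⟩ : ∃ T : Finset (Finset (Fin N0)), T = Finset.univ.filter fun C =>
    ∃ P ∈ PP, Divisorial N P ∧ tg g f ω δ P = C := ⟨_, rfl⟩
  have hTm : ∀ P ∈ PP, Divisorial N P → tg g f ω δ P ∈ T := by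
    intro P hPP hP
    rw [hT, Finset.mem_filter]
    exact ⟨Finset.mem_univ _, P, hPP, hP, rfl⟩
  suffices H : ∀ T' : Finset (Finset (Fin N0)), T' = T →
      (∀ b, IsFreeAlong N δ PP (hs T' b)) ∧ {w | IsFreeAlongUpTo N δ PP w} = coneOf (hs T') from
    ⟨e T, H _ (e.symm_apply_apply T)⟩
  intro T' hT'
  rw [hT']
  have hfree : ∀ b, IsFreeAlong N δ PP (hs T b) := by
    intro b
    have h1 := (hh T _).1 (rc_gen (h T) b)
    constructor
    · obtain ⟨z, -, hz⟩ := hlift T b Finset.univ (by rw [gB_univ']; exact h1.2) (hdvdu T b)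
      obtain ⟨h2, h3, -⟩ := sec_of_exp hgen hz
      refine ⟨_, h2, ?_⟩
      rw [hhs]
      exact h3
    · intro P hPP hP
      obtain ⟨z, hz1, hz⟩ := hlift T b _ (h1.1 _ (hTm P hPP hP)) (hdvd T b _ (hTm P hPP hP))
      obtain ⟨h2, h3, h4⟩ := sec_of_exp hgen hz
      refine ⟨_, h2, ?_, ?_⟩
      · rw [hhs]
        exact h3
      · rw [hhs]
        exact h4 P hz1
  refine ⟨hfree, Set.ext fun w => ⟨fun hw => ?_, fun hw => upto_of_cone hfree hw⟩⟩
  rw [hsc]
  refine (hh T w).2 ?_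
  obtain ⟨h1, h2⟩ := rc_of_upto hgen habs P0 hw
  refine ⟨fun C hC => ?_, h1⟩
  rw [hT, Finset.mem_filter] at hC
  obtain ⟨-, P, hPP, hP, rfl⟩ := hC
  exact h2 P hPP hP

end Pool.Agent.U189.MG.G
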