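import Pool.Agent.U189.MG.Fin

/-!
Finitely many models and the termination of all minimal model programs, if the multigraded section
ring is finitely generated.
-/

set_option autoImplicit false
set_option linter.all false
set_option maxHeartbeats 1000000

open FF MvPolynomial Pool.Agent.W603.LV Pool.Agent.W602.GT Pool.Agent.W602.Cov
open Pool.Agent.TH756.PR Pool.Agent.TH122.AB Pool.Agent.TH756.PN
open Pool.Agent.Q57.FT Pool.Agent.Q57.CX Pool.Agent.Q57.HK Pool.Agent.U660.MD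

namespace Pool.Agent.U189.MG

variable {p N : ℕ} {K : Type} [Field K] [Algebra ℂ K]

section

variable {δ : Fin p → Place ℂ K → ℚ} {N0 : ℕ} {g : Fin N0 → Fin p → ℤ} {f : Fin N0 → K}

variable (hgen : (∀ b, f b ≠ 0 ∧ ZSec N δ (g b) (f b)) ∧
      ∀ (μ : Fin p → ℤ) (η : K), η ≠ 0 → ZSec N δ μ η → ∀ P : Place ℂ K, Mnl g f P μ η)

include hgen

theorem ge_mdl {δ' : Fin p → Place ℂ K → ℚ} (h : ∀ μ f, ZSec N δ μ f → ZSec N δ' μ f)
    {P : Place ℂ K} (hP : Divisorial N P) (b : Fin N0) :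
    - ∑ i, (g b i : ℚ) * δ' i P ≤ P.ord (f b) :=
  ((h _ _ (hgen.1 b).2) P hP).resolve_left (hgen.1 b).1

/-- **The combinations near the ample one are in the cone of the generators of minimal order.** -/
theorem mem_tig_mdl {δ' : Fin p → Place ℂ K → ℚ} (h : ∀ μ f, ZSec N δ μ f → ZSec N δ' μ f)
    {P : Place ℂ K} (hP : Divisorial N P) {μ : Fin p → ℚ} (hμ : SemiA N δ' μ)
    (hs : ∀ (k : ℕ) (ν : Fin p → ℤ), (∀ i, (k : ℚ) * μ i = ν i) → ∀ f, ZSec N δ' ν f →
      ZSec N δ ν f) :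
    CoG g (tig g f δ' P) μ := by
  classical
  obtain ⟨k, hk, ν, hν, hb⟩ := hμ
  obtain ⟨η, hη0, hη, hle⟩ := hb P hP
  obtain ⟨e, he1, he2⟩ := hgen.2 ν η hη0 (hs k ν hν η hη) P
  have hk0 : (0 : ℚ) < k := by exact_mod_cast hk
  have hge := ge_mdl hgen h hP
  have h1 : ∑ b, (e b : ℚ) * ∑ i, (g b i : ℚ) * δ' i P = ∑ i, (ν i : ℚ) * δ' i P := by
    simp only [Finset.mul_sum]
    rw [Finset.sum_comm]
    refine Finset.sum_congr rfl fun i _ => ?_
    rw [← he1 i]
    push_cast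
    rw [Finset.sum_mul]
    exact Finset.sum_congr rfl fun b _ => by ring
  have h2 : ∑ b, (e b : ℚ) * (P.ord (f b) + ∑ i, (g b i : ℚ) * δ' i P) ≤ 0 := by
    have h3 : ((∑ b, (e b : ℤ) * P.ord (f b) : ℤ) : ℚ) ≤ (P.ord η : ℚ) := by exact_mod_cast he2
    have h4 : ∑ b, (e b : ℚ) * (P.ord (f b) + ∑ i, (g b i : ℚ) * δ' i P) =
        ((∑ b, (e b : ℤ) * P.ord (f b) : ℤ) : ℚ) + ∑ i, (ν i : ℚ) * δ' i P := by
      rw [← h1]
      push_cast
      rw [← Finset.sum_add_distrib]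
      exact Finset.sum_congr rfl fun b _ => by ring
    rw [h4]
    linarith
  have h3 : ∀ b ∈ Finset.univ, 0 ≤ (e b : ℚ) * (P.ord (f b) + ∑ i, (g b i : ℚ) * δ' i P) := by
    intro b _
    refine mul_nonneg (by positivity) ?_
    have := hge b
    linarith
  have h4 : ∀ b ∈ Finset.univ, (e b : ℚ) * (P.ord (f b) + ∑ i, (g b i : ℚ) * δ' i P) = 0 :=
    (Finset.sum_eq_zero_iff_of_nonneg h3).1 (le_antisymm h2 (Finset.sum_nonneg h3))
  refine ⟨fun b => e b / k, fun b => by positivity, fun b hb => ?_, fun i => ?_⟩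
  · have h5 := h4 b (Finset.mem_univ b)
    rcases mul_eq_zero.1 h5 with h6 | h6
    · beta_reduce
      rw [h6, zero_div]
    · exfalso
      apply hb
      rw [mem_tig_iff]
      linarith
  · have h5 : ∑ b, (e b : ℚ) / k * g b i = (∑ b, (e b : ℚ) * g b i) / k := by
      rw [Finset.sum_div]
      exact Finset.sum_congr rfl fun b _ => by ring
    have h6 : ∑ b, (e b : ℚ) * g b i = ν i := by
      rw [← he1 i]
      push_cast
      rfl
    rw [h5, h6, ← hν i]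
    field_simp

theorem val_tig_mdl {δ' δ'' : Fin p → Place ℂ K → ℚ}
    (h'' : ∀ μ f, ZSec N δ μ f → ZSec N δ'' μ f)
    {P : Place ℂ K} (hP : Divisorial N P) {μ : Fin p → ℚ} (hμ : CoG g (tig g f δ' P) μ) :
    ∑ i, μ i * δ' i P ≤ ∑ i, μ i * δ'' i P := by
  classical
  obtain ⟨e, he0, he1, he2⟩ := hμ
  rw [sum_swap (g := g) e (fun i => δ' i P) μ he2, sum_swap (g := g) e (fun i => δ'' i P) μ he2]
  refine Finset.sum_le_sum fun b _ => ?_
  by_cases hb : b ∈ tig g f δ' P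
  · refine mul_le_mul_of_nonneg_left ?_ (he0 b)
    rw [mem_tig_iff] at hb
    have h3 := ge_mdl hgen h'' hP b
    beta_reduce
    linarith
  · rw [he1 b hb, zero_mul, zero_mul]

/-- **The coefficients are determined by the cones which contain the ample combination.** -/
theorem eq_of_sig_mdl {δ' δ'' : Fin p → Place ℂ K → ℚ} {lam' lam'' : Fin p → ℚ}
    (h' : Mdl N δ δ' lam') (h'' : Mdl N δ δ'' lam'') (hs : sig g lam' = sig g lam'')
    {P : Place ℂ K} (hP : Divisorial N P) (i : Fin p) : δ' i P = δ'' i P := by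
  classical
  obtain ⟨hsub', ε', hε', hamp'⟩ := h'
  obtain ⟨hsub'', ε, hε, hamp⟩ := h''
  have h1 : CoG g (tig g f δ' P) lam'' := by
    have h2 : tig g f δ' P ∈ sig g lam' := by
      rw [mem_sig]
      have h3 := hamp' lam' fun i => by simp [hε'.le]
      exact mem_tig_mdl hgen hsub' hP h3.1 h3.2
    rw [hs, mem_sig] at h2
    exact h2
  have h2 := val_tig_mdl hgen hsub'' hP h1
  have h3 : ∀ μ : Fin p → ℚ, (∀ i, |μ i - lam'' i| ≤ ε) →
      ∑ i, μ i * δ'' i P ≤ ∑ i, μ i * δ' i P := fun μ hμ =>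
    val_tig_mdl hgen hsub' hP (mem_tig_mdl hgen hsub'' hP (hamp μ hμ).1 (hamp μ hμ).2)
  have h4 := zero_of_ball (y := fun i => δ' i P - δ'' i P) (lam := lam'') hε (fun μ hμ => by
    have h5 := h3 μ hμ
    have h6 : ∑ i, (δ' i P - δ'' i P) * μ i = ∑ i, μ i * δ' i P - ∑ i, μ i * δ'' i P := by
      rw [← Finset.sum_sub_distrib]
      exact Finset.sum_congr rfl fun i _ => by ring
    rw [h6]
    linarith) (by
    have h6 : ∑ i, (δ' i P - δ'' i P) * lam'' i =
        ∑ i, lam'' i * δ' i P - ∑ i, lam'' i * δ'' i P := by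
      rw [← Finset.sum_sub_distrib]
      exact Finset.sum_congr rfl fun i _ => by ring
    rw [h6]
    linarith) i
  beta_reduce at h4
  linarith

end

/-- **There are finitely many models.** -/
theorem fin_mdl {δ : Fin p → Place ℂ K → ℚ} (h : (coxRing N δ).FG) :
    ∃ B : ℕ, ∀ (δs : Fin (B + 1) → Fin p → Place ℂ K → ℚ),
      (∀ j, ∃ lam : Fin p → ℚ, Mdl N δ (δs j) lam) →
      ∃ j j' : Fin (B + 1), j < j' ∧ ∀ P : Place ℂ K, Divisorial N P →
        ∀ i, δs j i P = δs j' i P := by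
  classical
  obtain ⟨N0, g, f, hgen⟩ := gens_of_fg h
  refine ⟨Fintype.card (Finset (Finset (Fin N0))), fun δs hδs => ?_⟩
  choose lam hlam using hδs
  obtain ⟨j, j', hne, heq⟩ := Fintype.exists_ne_map_eq_of_card_lt (fun j => sig g (lam j)) (by
    rw [Fintype.card_fin]
    exact Nat.lt_succ_self _)
  rcases lt_or_gt_of_ne hne with hlt | hlt
  · exact ⟨j, j', hlt, fun P hP i => eq_of_sig_mdl hgen (hlam j) (hlam j') heq hP i⟩
  · exact ⟨j', j, hlt, fun P hP i => eq_of_sig_mdl hgen (hlam j') (hlam j) heq.symm hP i⟩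

/-- **Termination of all minimal model programs**, with a uniform bound. -/
theorem term_mdl {δ : Fin p → Place ℂ K → ℚ} (h : (coxRing N δ).FG) :
    ∃ B : ℕ, (∀ (δs : Fin (B + 1) → Fin p → Place ℂ K → ℚ),
      (∀ j, ∃ lam : Fin p → ℚ, Mdl N δ (δs j) lam) →
      ∃ j j' : Fin (B + 1), j < j' ∧ ∀ P : Place ℂ K, Divisorial N P →
        ∀ i, δs j i P = δs j' i P) ∧
      ∀ (w : Fin p → ℝ) (L : ℕ) (δs : ℕ → Fin p → Place ℂ K → ℚ),
        (∀ j ≤ L, ∃ lam : Fin p → ℚ, Mdl N δ (δs j) lam) →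
        (∀ j < L, (∀ P : Place ℂ K, Divisorial N P →
            ∑ i, w i * (δs (j + 1) i P : ℝ) ≤ ∑ i, w i * (δs j i P : ℝ)) ∧
          ∃ P : Place ℂ K, Divisorial N P ∧
            ∑ i, w i * (δs (j + 1) i P : ℝ) < ∑ i, w i * (δs j i P : ℝ)) → L < B := by
  classical
  obtain ⟨B, hB⟩ := fin_mdl h
  refine ⟨B, hB, fun w L δs hsm hst => ?_⟩
  by_contra hcon
  push Not at hcon
  obtain ⟨j, j', hlt, heq⟩ := hB (fun j => δs j) fun j => hsm j (by
    have := j.2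
    omega)
  have hlt' : (j : ℕ) < j' := hlt
  have hj' : (j' : ℕ) ≤ L := by
    have := j'.2
    omega
  have hmono : ∀ a b : ℕ, a ≤ b → b ≤ L → ∀ P : Place ℂ K, Divisorial N P →
      ∑ i, w i * (δs b i P : ℝ) ≤ ∑ i, w i * (δs a i P : ℝ) := by
    intro a b hab
    induction b, hab using Nat.le_induction with
    | base => intro _ P _; exact le_rfl
    | succ b hab ih =>
      intro hb P hP
      exact ((hst b (by omega)).1 P hP).trans (ih (by omega) P hP)
  obtain ⟨P, hP, hs⟩ := (hst j (by omega)).2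
  have h1 := hmono (j + 1) j' (by omega) hj' P hP
  have h2 : ∑ i, w i * (δs j i P : ℝ) = ∑ i, w i * (δs j' i P : ℝ) :=
    Finset.sum_congr rfl fun i _ => by rw [heq P hP i]
  linarith

/-- **Good log terminal models.** -/
theorem models {δ : Fin p → Place ℂ K → ℚ} (hFG : (coxRing N δ).FG)
    (hX : ∃ lam0, Small N δ δ lam0) :
    ∃ (k M : ℕ) (δs : Fin M → Fin p → Place ℂ K → ℚ) (B : Fin M → ℕ)
      (h : ∀ j, Fin (B j) → Fin p → ℤ), 1 ≤ k ∧ (∀ j, ∃ lam, Mdl N δ (δs j) lam) ∧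
      (∀ j (ν : Fin p → ℤ), RC (h j) (fun i => (ν i : ℝ)) → Bpf N (δs j) (k • ν) ∧
        ∀ η, ZSec N δ ν η ↔ ZSec N (δs j) ν η) ∧
      ∀ w : Fin p → ℝ, PsefR N δ w → ∃ j, RC (h j) w ∧ ∀ P : Place ℂ K, Divisorial N P →
        (∀ i, δs j i P = δ i P) ∨
          ∑ i, w i * (δs j i P : ℝ) < ∑ i, w i * (δ i P : ℝ) := by
  classical
  obtain ⟨N0, g, f, hgen⟩ := gens_of_fg hFG
  by_cases hex : ∃ P : Place ℂ K, Divisorial N P
  · exact models_gen hgen hX hex
  · obtain ⟨B, h, hh⟩ := minkowski (p := p) (S := 0) (fun s => s.elim0)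
    have hall : ∀ w, RC h w := fun w => (hh w).1 fun s => s.elim0
    have hsemi : ∀ μ : Fin p → ℚ, SemiA N δ μ := fun μ => by
      obtain ⟨k, hk, hz⟩ := common_den μ
      choose z hz using hz
      exact ⟨k, hk, z, hz, fun P hP => absurd ⟨P, hP⟩ hex⟩
    exact ⟨1, 1, fun _ => δ, fun _ => B, fun _ => h, le_rfl, fun _ => ⟨0, fun _ _ h => h, 1,
      one_pos, fun μ _ => ⟨hsemi μ, fun _ _ _ _ h => h⟩⟩, fun j ν _ =>
      ⟨fun P hP => absurd ⟨P, hP⟩ hex, fun _ => Iff.rfl⟩, fun w _ => ⟨0, hall w, fun P hP =>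
      absurd ⟨P, hP⟩ hex⟩⟩

end Pool.Agent.U189.MG
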