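import Pool.Agent.U189.MG.Scl
import Pool.Agent.U660.MD.Nef

/-!
The minimal model program with scaling of a general ample class: the main theorem.
-/

set_option autoImplicit false
set_option linter.all false
set_option maxHeartbeats 1000000

open FF MvPolynomial Pool.Agent.W603.LV Pool.Agent.W602.GT Pool.Agent.W602.Cov
open Pool.Agent.TH756.PR Pool.Agent.TH122.AB Pool.Agent.TH756.PN
open Pool.Agent.Q57.FT Pool.Agent.Q57.CX Pool.Agent.Q57.HK Pool.Agent.U660.MD

namespace Pool.Agent.U189.MG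

variable {p N : ℕ} {K : Type} [Field K] [Algebra ℂ K]

/-- rational points of a small ball around an ample class are effective -/
theorem eff_of_mdl {δ δ' : Fin p → Place ℂ K → ℚ} {lam : Fin p → ℚ} (h : Mdl N δ δ' lam)
    {P0 : Place ℂ K} (hP0 : Divisorial N P0) : EffA N δ lam := by
  obtain ⟨h1, ε, hε, h2⟩ := h
  obtain ⟨⟨k, hk, ν, hν, hb⟩, hs⟩ := h2 lam fun i => by simp [hε.le]
  obtain ⟨η, hη0, hη, -⟩ := hb P0 hP0
  exact ⟨k, hk, ν, hν, η, hη0, hs k ν hν η hη⟩

theorem mdl_ball {δ δ' : Fin p → Place ℂ K → ℚ} {lam : Fin p → ℚ} (h : Mdl N δ δ' lam) :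
    ∃ ε : ℚ, 0 < ε ∧ ∀ a : Fin p → ℚ, (∀ i, |a i - lam i| ≤ ε) → Mdl N δ δ' a := by
  obtain ⟨h1, ε, hε, h2⟩ := h
  refine ⟨ε / 2, by linarith, fun a ha => ⟨h1, ε / 2, by linarith, fun μ hμ => h2 μ fun i => ?_⟩⟩
  calc |μ i - lam i| = |(μ i - a i) + (a i - lam i)| := by ring_nf
    _ ≤ |μ i - a i| + |a i - lam i| := abs_add_le _ _
    _ ≤ ε / 2 + ε / 2 := add_le_add (hμ i) (ha i)
    _ = ε := by ring

section

variable {δ : Fin p → Place ℂ K → ℚ} {N0 : ℕ} {g : Fin N0 → Fin p → ℤ} {f : Fin N0 → K}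

variable (hgen : (∀ b, f b ≠ 0 ∧ ZSec N δ (g b) (f b)) ∧
      ∀ (μ : Fin p → ℤ) (η : K), η ≠ 0 → ZSec N δ μ η → ∀ P : Place ℂ K, Mnl g f P μ η)

include hgen

/-- the closed cone of a chamber is spanned by base point free combinations with the same sections -/
theorem cone_of_dual {q : Fin p → ℚ} {y : Place ℂ K → Fin p → ℚ} (hy : Dual N g f δ q y) :
    ∃ (B : ℕ) (h : Fin B → Fin p → ℤ), (∀ b, Bpf N (fun i P => δ i P - y P i) (h b)) ∧
      (∀ x : Fin p → ℝ, RC h x ↔ ∀ B : Finset (Fin N0), CoG g B q → RC (gB g B) x) ∧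
      ∀ (ν : Fin p → ℤ), RC h (fun i => (ν i : ℝ)) → ∀ η,
        ZSec N (fun i P => δ i P - y P i) ν η ↔ ZSec N δ ν η := by
  classical
  obtain ⟨B, h, hh⟩ := rc_inter (ι := {B // CoG g B q}) (fun B => gB g B.1)
    (fun s : Fin 0 => s.elim0)
  have hh' : ∀ w : Fin p → ℝ, RC h w ↔ ∀ B : Finset (Fin N0), CoG g B q → RC (gB g B) w := by
    intro w
    rw [hh]
    exact ⟨fun H B hB => H.1 ⟨B, hB⟩, fun H => ⟨fun B => H B.1 B.2, fun s => s.elim0⟩⟩
  have hk : ∀ b, ∃ k : ℕ, 1 ≤ k ∧ Bpf N (fun i P => δ i P - y P i) (k • h b) := by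
    intro b
    have h1 : SemiA N (fun i P => δ i P - y P i) (fun i => ((h b i : ℤ) : ℚ)) := by
      refine semi_of_dual hgen hy fun B hB => ?_
      rw [cog_iff]
      have := (hh' _).1 (rc_gen h b) B hB
      convert this using 2
      push_cast
      rfl
    obtain ⟨k, hk, ν, hν, hb⟩ := h1
    refine ⟨k, hk, ?_⟩
    have h2 : ν = k • h b := by
      funext i
      rw [Pi.smul_apply, nsmul_eq_mul]
      have := hν i
      beta_reduce at this
      exact_mod_cast this.symm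
    rwa [← h2]
  choose k hk1 hk2 using hk
  have hsc : coneOf (fun b => k b • h b) = coneOf h := coneOf_scale hk1 fun _ => rfl
  have hrc : ∀ x : Fin p → ℝ, RC (fun b => k b • h b) x ↔ RC h x := fun x =>
    Set.ext_iff.1 hsc x
  refine ⟨B, fun b => k b • h b, hk2, fun x => by rw [hrc, hh'], fun ν hν η =>
    ⟨sec_of_dual hgen hy ((hh' _).1 ((hrc _).1 hν)), sub_of_dual hgen hy ν η⟩⟩

/-- **The program.** -/
theorem scaling_gen {P0 : Place ℂ K} (hP0 : Divisorial N P0) {δ' : Fin p → Place ℂ K → ℚ}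
    {lam : Fin p → ℚ} (hM : Mdl N δ δ' lam) (w : Fin p → ℝ) {ε : ℝ} (hε : 0 < ε) :
    ∃ a : Fin p → ℚ, (∀ i, |(a i : ℝ) - lam i| ≤ ε) ∧ ∃ (k : ℕ) (s : Fin (k + 2) → ℝ)
      (δs : Fin (k + 1) → Fin p → Place ℂ K → ℚ), StrictMono s ∧ s 0 = 0 ∧ s (Fin.last _) ≤ 1 ∧
      (∀ P : Place ℂ K, Divisorial N P → ∀ i, δs 0 i P = δ' i P) ∧
      (∀ (j : Fin (k + 1)) (t : ℝ), s j.castSucc < t → t < s j.succ →
        MdlR N δ (δs j) (seg (fun i => (a i : ℝ)) w t)) ∧
      (∀ j j' : Fin (k + 1), j < j' → ∀ P : Place ℂ K, Divisorial N P →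
        (∀ i, δs j' i P = δs j i P) ∨
          ∑ i, w i * (δs j' i P : ℝ) < ∑ i, w i * (δs j i P : ℝ)) ∧
      (∃ (B : ℕ) (h : Fin B → Fin p → ℤ), (∀ b, Bpf N (δs (Fin.last _)) (h b)) ∧
        (∀ ν : Fin p → ℤ, RC h (fun i => (ν i : ℝ)) → ∀ η,
          ZSec N (δs (Fin.last _)) ν η ↔ ZSec N δ ν η) ∧
        RC h (seg (fun i => (a i : ℝ)) w (s (Fin.last _)))) ∧
      (s (Fin.last _) = 1 ∨ s (Fin.last _) < 1 ∧ ∀ t, s (Fin.last _) < t →
        ¬ PsefR N δ (seg (fun i => (a i : ℝ)) w t)) := by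
  classical
  obtain ⟨ι, hι, A, hA, R, hR⟩ := exists_walls g
  obtain ⟨ε1, hε1, hball⟩ := mdl_ball hM
  have hε1' : (0 : ℝ) < ε1 := by exact_mod_cast hε1
  obtain ⟨a, ha, hreg⟩ := exists_reg A (fun i => (lam i : ℝ)) (lt_min hε hε1')
  obtain ⟨α, hα⟩ : ∃ α : Fin p → ℝ, α = fun i => (a i : ℝ) := ⟨_, rfl⟩
  have hMa : Mdl N δ δ' a := hball a fun i => by
    have := (ha i).trans (min_le_right _ _)
    exact_mod_cast this
  have hca : CoG g Finset.univ a := cog_of_eff hgen (P0 := P0) (eff_of_mdl hMa hP0)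
  have hga : RC g α := by
    rw [hα]
    have := (cog_iff g _ _).1 hca
    rwa [gB_univ] at this
  refine ⟨a, fun i => (ha i).trans (min_le_left _ _), ?_⟩
  rw [← hα] at hreg ⊢
  obtain ⟨e, he0, he1, hin, hend⟩ := exists_end (w := w) hreg ((hR α).1 hga)
  -- the walls
  obtain ⟨Z, hZ⟩ : ∃ Z : Finset ℝ, Z = (Finset.univ.image fun r => tau (A r) α w).filter
    fun t => 0 < t ∧ t < e := ⟨_, rfl⟩
  have hZm : ∀ t, t ∈ Z → 0 < t ∧ t < e := fun t ht => by
    rw [hZ, Finset.mem_filter] at ht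
    exact ht.2
  have hregt : ∀ t, 0 ≤ t → t < e → t ∉ Z → Reg A (seg α w t) := by
    intro t ht0 hte htZ r hr h0
    have h1 := tau_of_zero (hreg r hr) h0
    rcases ht0.eq_or_lt with h | h
    · rw [← h, seg_zero] at h0
      exact hreg r hr h0
    · apply htZ
      rw [hZ, Finset.mem_filter]
      exact ⟨Finset.mem_image.2 ⟨r, Finset.mem_univ _, h1.symm⟩, h, hte⟩
  obtain ⟨TT, hS⟩ : ∃ TT : Finset ℝ, TT = insert 0 (insert e Z) := ⟨_, rfl⟩
  have hSm : ∀ t, t ∈ TT ↔ t = 0 ∨ t = e ∨ t ∈ Z := by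
    intro t
    rw [hS, Finset.mem_insert, Finset.mem_insert]
  have hcard : 2 ≤ TT.card := by
    have h1 : ({0, e} : Finset ℝ) ⊆ TT := by
      intro t ht
      rw [Finset.mem_insert, Finset.mem_singleton] at ht
      rw [hSm]
      rcases ht with h | h
      · exact Or.inl h
      · exact Or.inr (Or.inl h)
    have h2 : ({0, e} : Finset ℝ).card = 2 := Finset.card_pair he0.ne
    calc 2 = ({0, e} : Finset ℝ).card := h2.symm
      _ ≤ TT.card := Finset.card_le_card h1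
  obtain ⟨k, hk⟩ : ∃ k, TT.card = k + 2 := ⟨TT.card - 2, by omega⟩
  obtain ⟨s, hs⟩ : ∃ s : Fin (k + 2) → ℝ, s = fun j => TT.orderEmbOfFin hk j := ⟨_, rfl⟩
  have hsmono : StrictMono s := by
    rw [hs]
    exact (TT.orderEmbOfFin hk).strictMono
  have hsmem : ∀ j, s j ∈ TT := fun j => by
    rw [hs]
    exact Finset.orderEmbOfFin_mem TT hk j
  have hsurj : ∀ t ∈ TT, ∃ j, s j = t := by
    intro t ht
    have h1 : t ∈ Set.range (TT.orderEmbOfFin hk) := by
      rw [Finset.range_orderEmbOfFin]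
      exact ht
    obtain ⟨j, hj⟩ := h1
    exact ⟨j, by rw [hs]; exact hj⟩
  have hs_nonneg : ∀ j, 0 ≤ s j := fun j => by
    rcases (hSm _).1 (hsmem j) with h | h | h
    · rw [h]
    · rw [h]; exact he0.le
    · exact (hZm _ h).1.le
  have hs_le : ∀ j, s j ≤ e := fun j => by
    rcases (hSm _).1 (hsmem j) with h | h | h
    · rw [h]; exact he0.le
    · rw [h]
    · exact (hZm _ h).2.le
  have hs0 : s 0 = 0 := by
    obtain ⟨j, hj⟩ := hsurj 0 ((hSm 0).2 (Or.inl rfl))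
    exact le_antisymm (hj ▸ hsmono.monotone (Fin.zero_le j)) (hs_nonneg 0)
  have hslast : s (Fin.last _) = e := by
    obtain ⟨j, hj⟩ := hsurj e ((hSm e).2 (Or.inr (Or.inl rfl)))
    exact le_antisymm (hs_le _) (hj ▸ hsmono.monotone (Fin.le_last j))
  have hgap : ∀ (j : Fin (k + 1)) (t : ℝ), s j.castSucc < t → t < s j.succ → t ∉ TT := by
    intro j t h1 h2 ht
    obtain ⟨i, hi⟩ := hsurj t ht
    rw [← hi] at h1 h2
    have h3 := hsmono.lt_iff_lt.1 h1
    have h4 := hsmono.lt_iff_lt.1 h2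
    rw [Fin.lt_def] at h3 h4
    simp only [Fin.val_castSucc, Fin.val_succ] at h3 h4
    omega
  have hregj : ∀ (j : Fin (k + 1)) (t : ℝ), s j.castSucc < t → t < s j.succ →
      Reg A (seg α w t) := fun j t h1 h2 =>
    hregt t ((hs_nonneg _).trans h1.le) (h2.trans_le (hs_le _)) fun h =>
      hgap j t h1 h2 ((hSm t).2 (Or.inr (Or.inr h)))
  -- the sample points
  obtain ⟨tm, htm⟩ : ∃ tm : Fin (k + 1) → ℝ, tm = fun j => (s j.castSucc + s j.succ) / 2 :=
    ⟨_, rfl⟩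
  have hlt : ∀ j : Fin (k + 1), s j.castSucc < s j.succ := fun j =>
    hsmono (by rw [Fin.lt_def]; simp)
  have htm1 : ∀ j, s j.castSucc < tm j := fun j => by rw [htm]; have := hlt j; beta_reduce; linarith
  have htm2 : ∀ j, tm j < s j.succ := fun j => by rw [htm]; have := hlt j; beta_reduce; linarith
  have hregm := fun j => hregj j (tm j) (htm1 j) (htm2 j)
  have hq : ∀ j : Fin (k + 1), ∃ q : Fin p → ℚ, Reg A (fun i => (q i : ℝ)) ∧
      CoG g Finset.univ q ∧ Same A (fun i => (q i : ℝ)) (seg α w (tm j)) := by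
    intro j
    obtain ⟨ε2, hε2, hb⟩ := reg_ball (hregm j)
    obtain ⟨q, hq⟩ := exists_rat_near (seg α w (tm j)) hε2
    refine ⟨q, (hb _ hq).1, ?_, (hb _ hq).2.symm⟩
    have h1 : RC g (seg α w (tm j)) := (hR _).2 (hin _ ((hs_nonneg _).trans (htm1 j).le)
      ((htm2 j).le.trans (hs_le _)))
    rw [cog_iff]
    refine hA _ _ (hb _ hq).2 _ ?_
    rwa [gB_univ]
  choose q hqr hqu hqs using hq
  choose y hy using fun j => exists_dual hgen (hqu j)
  have hsame : ∀ (j : Fin (k + 1)) (t : ℝ), s j.castSucc < t → t < s j.succ →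
      Same A (fun i => (q j i : ℝ)) (seg α w t) := by
    intro j t h1 h2
    refine (hqs j).trans (same_seg fun u hu1 hu2 => hregj j u ?_ ?_)
    · exact lt_of_lt_of_le (lt_min (htm1 j) h1) hu1
    · exact lt_of_le_of_lt hu2 (max_lt (htm2 j) h2)
  refine ⟨k, s, fun j i P => δ i P - y j P i, hsmono,
    hs0, by rw [hslast]; exact he1, fun P hP i => ?_, fun j t h1 h2 => ?_, fun j j' hjj P hP => ?_,
    ?_, ?_⟩
  · -- the first model
    have h1 : Same A α (seg α w (tm 0)) := by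
      have h2 := same_seg (A := A) (a := α) (w := w) (t1 := 0) (t2 := tm 0) fun u hu1 hu2 => by
        have hm0 : 0 < tm 0 := by
          have := htm1 0
          have h3 : s (Fin.castSucc 0) = 0 := by
            rw [Fin.castSucc_zero]
            exact hs0
          rwa [h3] at this
        rw [min_eq_left hm0.le] at hu1
        rw [max_eq_right hm0.le] at hu2
        rcases hu1.eq_or_lt with h | h
        · rw [← h, seg_zero]
          exact hreg
        · refine hregj 0 u ?_ (lt_of_le_of_lt hu2 (htm2 0))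
          have h3 : s (Fin.castSucc 0) = 0 := by
            rw [Fin.castSucc_zero]
            exact hs0
          rw [h3]
          exact h
      rwa [seg_zero] at h2
    have h2 : Same A α fun i => (q 0 i : ℝ) := h1.trans (hqs 0).symm
    have h3 : sig g a = sig g (q 0) := by
      ext B
      rw [mem_sig, mem_sig, cog_iff, cog_iff]
      rw [hα] at h2
      exact ⟨hA _ _ h2 B, hA _ _ h2.symm B⟩
    have hG : Generic g (q 0) := by
      obtain ⟨ε2, hε2, hb⟩ := reg_ball (hqr 0)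
      obtain ⟨ε3, h4, h5⟩ := exists_rat_btwn hε2
      refine ⟨ε3, by exact_mod_cast h4, fun B hB μ hμ => ?_⟩
      rw [cog_iff] at hB ⊢
      refine hA _ _ (hb _ fun i => ?_).2 B hB
      have h6 : |(μ i : ℝ) - q 0 i| ≤ ε3 := by exact_mod_cast hμ i
      linarith
    exact (eq_of_sig_mdl hgen hMa (mdl_of_dual hgen hG (hy 0)) h3 hP i).symm
  · exact mdlR_of_dual hgen hA (hy j) (hregj j t h1 h2) (hsame j t h1 h2)
  · -- the comparison
    have h1 : tm j < tm j' := by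
      refine (htm2 j).trans_le (le_trans ?_ (htm1 j').le)
      refine hsmono.monotone ?_
      rw [Fin.le_def]
      have : (j : ℕ) < j' := hjj
      simp only [Fin.val_castSucc, Fin.val_succ]
      omega
    have h2 : tm j' < 1 := lt_of_lt_of_le (htm2 j') ((hs_le _).trans he1)
    have hsum : ∀ j : Fin (k + 1), ∑ i, w i * ((δ i P - y j P i : ℚ) : ℝ) =
        ∑ i, w i * (δ i P : ℝ) - ∑ i, (y j P i : ℝ) * w i := by
      intro j
      rw [← Finset.sum_sub_distrib]
      refine Finset.sum_congr rfl fun i _ => ?_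
      push_cast
      ring
    rcases cmp_seg hgen hA (hy j) (hy j') hP h1 h2 (hregm j') (hqs j) (hqs j') with h | h
    · left
      intro i
      beta_reduce
      rw [h i]
    · right
      beta_reduce
      rw [hsum, hsum]
      linarith
  · obtain ⟨B, h, hb, hrc, hsec⟩ := cone_of_dual hgen (hy (Fin.last k))
    refine ⟨B, h, hb, hsec, (hrc _).2 fun B' hB' => ?_⟩
    refine rc_closed _ _ fun ε2 hε2 => ?_
    -- points of the last interval
    obtain ⟨L, hL⟩ : ∃ L : ℝ, L = ∑ i, |w i - α i| + 1 := ⟨_, rfl⟩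
    have hL0 : 0 < L := by rw [hL]; positivity
    have hl1 : s (Fin.last k).castSucc < s (Fin.last (k + 1)) := hsmono (by
      rw [Fin.lt_def]
      simp)
    obtain ⟨t, ht1, ht2⟩ := exists_between (max_lt hl1
      (by linarith [div_pos hε2 hL0] : s (Fin.last (k + 1)) - ε2 / L < s (Fin.last (k + 1))))
    have ht3 := lt_of_le_of_lt (le_max_left _ _) ht1
    have ht4 := lt_of_le_of_lt (le_max_right _ _) ht1
    have hsucc : s (Fin.last k).succ = s (Fin.last (k + 1)) := by rw [Fin.succ_last]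
    refine ⟨seg α w t, fun i => ?_, ?_⟩
    · have h1 : seg α w t i - seg α w (s (Fin.last (k + 1))) i =
          (t - s (Fin.last (k + 1))) * (w i - α i) := by
        unfold seg
        ring
      rw [h1, abs_mul, abs_sub_comm t, abs_of_pos (by linarith)]
      have h2 : |w i - α i| ≤ L := by
        rw [hL]
        have := Finset.single_le_sum (f := fun i => |w i - α i|) (fun _ _ => abs_nonneg _)
          (Finset.mem_univ i)
        linarith
      have h3 : s (Fin.last (k + 1)) - t ≤ ε2 / L := by linarith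
      calc (s (Fin.last (k + 1)) - t) * |w i - α i| ≤ ε2 / L * L :=
            mul_le_mul h3 h2 (abs_nonneg _) (by positivity)
        _ = ε2 := by field_simp
    · exact hA _ _ (hsame (Fin.last k) t ht3 (by rw [hsucc]; exact ht2)) B'
        ((cog_iff g B' _).1 hB')
  · rw [hslast]
    refine hend.imp id fun h => ⟨h.1, fun t ht hps => ?_⟩
    obtain ⟨r, hr, hlt⟩ := h.2 t ht
    have h1 : RC g (seg α w t) := by
      refine rc_closed _ _ fun ε hε => ?_
      obtain ⟨μ, h1, h2⟩ := hps ε hε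
      refine ⟨fun i => (μ i : ℝ), h1, ?_⟩
      have h3 := (cog_iff g _ _).1 (cog_of_eff hgen (P0 := P0) h2)
      rwa [gB_univ] at h3
    have := (hR _).1 h1 r hr
    linarith

end

/-- **The minimal model program with scaling of a general ample class**: it starts with any model,
exists, ends after finitely many steps, and gives a good minimal model or a Mori fibre space. -/
theorem scaling {δ : Fin p → Place ℂ K → ℚ} (hFG : (coxRing N δ).FG)
    {δ' : Fin p → Place ℂ K → ℚ} {lam : Fin p → ℚ} (hM : Mdl N δ δ' lam) (w : Fin p → ℝ) {ε : ℝ}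
    (hε : 0 < ε) :
    ∃ a : Fin p → ℚ, (∀ i, |(a i : ℝ) - lam i| ≤ ε) ∧ ∃ (k : ℕ) (s : Fin (k + 2) → ℝ)
      (δs : Fin (k + 1) → Fin p → Place ℂ K → ℚ), StrictMono s ∧ s 0 = 0 ∧ s (Fin.last _) ≤ 1 ∧
      (∀ P : Place ℂ K, Divisorial N P → ∀ i, δs 0 i P = δ' i P) ∧
      (∀ (j : Fin (k + 1)) (t : ℝ), s j.castSucc < t → t < s j.succ →
        MdlR N δ (δs j) (seg (fun i => (a i : ℝ)) w t)) ∧
      (∀ j j' : Fin (k + 1), j < j' → ∀ P : Place ℂ K, Divisorial N P →
        (∀ i, δs j' i P = δs j i P) ∨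
          ∑ i, w i * (δs j' i P : ℝ) < ∑ i, w i * (δs j i P : ℝ)) ∧
      (∃ (B : ℕ) (h : Fin B → Fin p → ℤ), (∀ b, Bpf N (δs (Fin.last _)) (h b)) ∧
        (∀ ν : Fin p → ℤ, RC h (fun i => (ν i : ℝ)) → ∀ η,
          ZSec N (δs (Fin.last _)) ν η ↔ ZSec N δ ν η) ∧
        RC h (seg (fun i => (a i : ℝ)) w (s (Fin.last _)))) ∧
      (s (Fin.last _) = 1 ∨ s (Fin.last _) < 1 ∧ ∀ t, s (Fin.last _) < t →
        ¬ PsefR N δ (seg (fun i => (a i : ℝ)) w t)) := by
  classical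
  obtain ⟨N0, g, f, hgen⟩ := gens_of_fg hFG
  by_cases hex : ∃ P : Place ℂ K, Divisorial N P
  · obtain ⟨P0, hP0⟩ := hex
    exact scaling_gen hgen hP0 hM w hε
  · obtain ⟨B, h, hh⟩ := minkowski (p := p) (S := 0) (fun s => s.elim0)
    have hall : ∀ w, RC h w := fun w => (hh w).1 fun s => s.elim0
    have hsemi : ∀ μ : Fin p → ℚ, SemiA N δ' μ := fun μ => by
      obtain ⟨k, hk, hz⟩ := common_den μ
      choose z hz using hz
      exact ⟨k, hk, z, hz, fun P hP => absurd ⟨P, hP⟩ hex⟩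
    refine ⟨lam, fun i => by simp [hε.le], 0, ![0, 1], fun _ => δ', ?_, rfl, le_rfl,
      fun P hP => absurd ⟨P, hP⟩ hex, fun j t _ _ => ⟨fun _ _ _ P hP => absurd ⟨P, hP⟩ hex, 1,
        one_pos, fun μ _ => ⟨hsemi μ, fun _ _ _ _ _ P hP => absurd ⟨P, hP⟩ hex⟩⟩,
      fun _ _ _ P hP => absurd ⟨P, hP⟩ hex, ⟨B, h, fun b P hP => absurd ⟨P, hP⟩ hex,
        fun ν _ η => ⟨fun _ P hP => absurd ⟨P, hP⟩ hex, fun _ P hP => absurd ⟨P, hP⟩ hex⟩,
        hall _⟩, Or.inl rfl⟩
    intro i j hij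
    fin_cases i <;> fin_cases j <;> first | exact absurd hij (by decide) | norm_num

theorem mdl_of_mdlR {δ δ' : Fin p → Place ℂ K → ℚ} {lam : Fin p → ℚ}
    (h : MdlR N δ δ' fun i => (lam i : ℝ)) : Mdl N δ δ' lam := by
  obtain ⟨h1, ε, hε, h2⟩ := h
  obtain ⟨ε', h3, h4⟩ := exists_rat_btwn hε
  refine ⟨h1, ε', by exact_mod_cast h3, fun μ hμ => h2 μ fun i => ?_⟩
  have h5 : |(μ i : ℝ) - lam i| ≤ ε' := by exact_mod_cast hμ i
  linarith

theorem mdlR_of_mdl {δ δ' : Fin p → Place ℂ K → ℚ} {lam : Fin p → ℚ}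
    (h : Mdl N δ δ' lam) : MdlR N δ δ' fun i => (lam i : ℝ) := by
  obtain ⟨h1, ε, hε, h2⟩ := h
  refine ⟨h1, ε, by exact_mod_cast hε, fun μ hμ => h2 μ fun i => ?_⟩
  have h5 : |(μ i : ℝ) - lam i| ≤ ε := hμ i
  exact_mod_cast h5

end Pool.Agent.U189.MG
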