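import Pool.Agent.U189.MG.Dsc

/-!
The minimal model program with scaling without `ℚ`-factoriality: the theorem.
-/

set_option autoImplicit false
set_option linter.all false
set_option maxHeartbeats 1000000

open FF MvPolynomial Pool.Agent.W603.LV Pool.Agent.W602.GT Pool.Agent.W602.Cov
open Pool.Agent.TH756.PR Pool.Agent.TH122.AB Pool.Agent.TH756.PN
open Pool.Agent.Q57.FT Pool.Agent.Q57.CX Pool.Agent.Q57.HK Pool.Agent.U660.MD

namespace Pool.Agent.U189.MG.Dsc

variable {p N : ℕ} {K : Type} [Field K] [Algebra ℂ K]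

theorem desc_main {δ : Fin p → Place ℂ K → ℚ} (hFG : (coxRing N δ).FG) {P0 : Place ℂ K}
    (hP0 : Divisorial N P0) : ∃ C : ℕ, ∀ κ lam : Fin p → ℚ,
    ∃ (R : Finset ℚ) (α k : ℚ → Place ℂ K → ℚ), R.card ≤ C ∧
      -- the models
      (∀ t r : ℚ, EffA N δ (fun i => lam i + t * κ i) →
        (∀ q ∈ R, ¬ (t ≤ q ∧ q < r) ∧ ¬ (r < q ∧ q ≤ t)) →
        Mod N δ (fun i => lam i + r * κ i) fun P => α t P + r * k t P) ∧
      -- the same model between two breaks
      (∀ t t' : ℚ, EffA N δ (fun i => lam i + t * κ i) → t ≤ t' → (∀ q ∈ R, ¬ (t ≤ q ∧ q ≤ t')) →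
        ∀ P : Place ℂ K, Divisorial N P → α t P = α t' P ∧ k t P = k t' P) ∧
      -- the steps
      (∀ t t' : ℚ, EffA N δ (fun i => lam i + t * κ i) → EffA N δ (fun i => lam i + t' * κ i) →
        t ≤ t' → t ∉ R → t' ∉ R →
        ∀ P : Place ℂ K, Divisorial N P → k t' P ≤ k t P) ∧
      -- the end
      (∀ t : ℚ, EffA N δ (fun i => lam i + t * κ i) → (∀ q ∈ R, q < t) → Mod N δ κ (k t)) ∧
      -- the start
      (∀ (a b : Place ℂ K → ℚ) (ε : ℚ), 0 < ε → (∀ s : ℚ, 0 ≤ s → s ≤ ε →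
          Mod N δ (fun i => lam i + s * κ i) fun P => a P + s * b P) →
        ∀ t : ℚ, 0 < t → (∀ q ∈ R, ¬ (0 < q ∧ q ≤ t)) →
          ∀ P : Place ℂ K, Divisorial N P → α t P = a P ∧ k t P = b P) := by
  classical
  obtain ⟨N0, g, f, hgen⟩ := gens_of_fg hFG
  obtain ⟨C, hC⟩ := breaks (p := p) g
  refine ⟨C, fun κ lam => ?_⟩
  obtain ⟨R, hR, hcl, hinf⟩ := hC κ lam
  have hex : ∀ t : ℚ, ∃ y : Place ℂ K → Fin p → ℚ, CoG g Finset.univ (fun i => lam i + t * κ i) →
      Dual N g f δ (fun i => lam i + t * κ i) y := by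
    intro t
    by_cases h : CoG g Finset.univ (fun i => lam i + t * κ i)
    · obtain ⟨y, hy⟩ := exists_dual hgen h
      exact ⟨y, fun _ => hy⟩
    · exact ⟨fun _ _ => 0, fun h' => absurd h' h⟩
  choose y hy using hex
  have heff : ∀ t : ℚ, EffA N δ (fun i => lam i + t * κ i) →
      Dual N g f δ (fun i => lam i + t * κ i) (y t) := fun t ht =>
    hy t (cog_of_eff hgen (P0 := P0) ht)
  obtain ⟨α, hα⟩ : ∃ α : ℚ → Place ℂ K → ℚ, α = fun t P => ∑ i, lam i * (δ i P - y t P i) :=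
    ⟨_, rfl⟩
  obtain ⟨k, hk⟩ : ∃ k : ℚ → Place ℂ K → ℚ, k = fun t P => ∑ i, κ i * (δ i P - y t P i) :=
    ⟨_, rfl⟩
  have hval : ∀ t r : ℚ, ∀ P, ∑ i, (lam i + r * κ i) * (δ i P - y t P i) =
      α t P + r * k t P := by
    intro t r P
    rw [hα, hk]
    beta_reduce
    rw [Finset.mul_sum, ← Finset.sum_add_distrib]
    exact Finset.sum_congr rfl fun i _ => by ring
  have hmod : ∀ t r : ℚ, EffA N δ (fun i => lam i + t * κ i) →
        (∀ q ∈ R, ¬ (t ≤ q ∧ q < r) ∧ ¬ (r < q ∧ q ≤ t)) →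
        Mod N δ (fun i => lam i + r * κ i) fun P => α t P + r * k t P := by
    intro t r ht hq
    have h1 := mod_of_dual hgen (heff t ht) (μ := fun i => lam i + r * κ i) (hcl t r hq)
    have h2 : (fun P => ∑ i, (lam i + r * κ i) * (δ i P - y t P i)) =
        fun P => α t P + r * k t P := funext fun P => hval t r P
    rw [h2] at h1
    exact h1
  have hsame : ∀ t t' : ℚ, EffA N δ (fun i => lam i + t * κ i) → t ≤ t' →
      (∀ q ∈ R, ¬ (t ≤ q ∧ q ≤ t')) →
        ∀ P : Place ℂ K, Divisorial N P → α t P = α t' P ∧ k t P = k t' P := by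
    intro t t' ht htt hq P hP
    rcases eq_or_lt_of_le htt with rfl | hlt
    · exact ⟨rfl, rfl⟩
    have hm1 := hmod t t ht fun q hqR => ⟨fun h => absurd (h.1.trans_lt h.2) (lt_irrefl _),
      fun h => absurd (h.1.trans_le h.2) (lt_irrefl _)⟩
    have hm2 := hmod t t' ht fun q hqR => ⟨fun h => hq q hqR ⟨h.1, h.2.le⟩,
      fun h => absurd (h.1.trans_le h.2) (not_lt.2 htt)⟩
    have ht' : EffA N δ (fun i => lam i + t' * κ i) := by
      obtain ⟨m, hm, ν, hν, hb⟩ := hm2.2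
      obtain ⟨η, hη0, hη, -⟩ := hb P hP
      exact ⟨m, hm, ν, hν, η, hη0, hη⟩
    have hm3 := hmod t' t ht' fun q hqR => ⟨fun h => absurd (h.1.trans_lt h.2) (not_lt.2 htt),
      fun h => hq q hqR ⟨h.1.le, h.2⟩⟩
    have hm4 := hmod t' t' ht' fun q hqR => ⟨fun h => absurd (h.1.trans_lt h.2) (lt_irrefl _),
      fun h => absurd (h.1.trans_le h.2) (lt_irrefl _)⟩
    have e1 := mod_unique hm1 hm3 hP
    have e2 := mod_unique hm2 hm4 hP
    beta_reduce at e1 e2
    have h0 : (t' - t) * (k t P - k t' P) = 0 := by linarith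
    have h1 : k t P = k t' P := by
      rcases mul_eq_zero.1 h0 with h2 | h2
      · linarith
      · linarith
    rw [h1] at e1
    exact ⟨by linarith, h1⟩
  refine ⟨R, α, k, hR, hmod, hsame, ?_, ?_, ?_⟩
  · intro t t' ht ht' htt htR htR' P hP
    rcases eq_or_lt_of_le htt with rfl | hlt
    · exact le_rfl
    have hx : ∀ s : ℚ, ∀ B : Finset (Fin N0), CoG g B (fun i => lam i + s * κ i) →
        RC (gB g B) fun i => (((lam i + s * κ i : ℚ)) : ℝ) := fun s B hB => (cog_iff g B _).1 hB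
    have c1 := cmp hgen (heff t' ht') (heff t ht) hP (hx t)
    have c2 := cmp hgen (heff t ht) (heff t' ht') hP (hx t')
    have c1' : ∑ i, y t' P i * (lam i + t * κ i) ≤ ∑ i, y t P i * (lam i + t * κ i) := by
      exact_mod_cast c1
    have c2' : ∑ i, y t P i * (lam i + t' * κ i) ≤ ∑ i, y t' P i * (lam i + t' * κ i) := by
      exact_mod_cast c2
    have hs : ∀ (z : Fin p → ℚ) (s : ℚ), ∑ i, z i * (lam i + s * κ i) =
        ∑ i, z i * lam i + s * ∑ i, z i * κ i := by
      intro z s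
      rw [Finset.mul_sum, ← Finset.sum_add_distrib]
      exact Finset.sum_congr rfl fun i _ => by ring
    rw [hs, hs] at c1' c2'
    have h1 : 0 ≤ (t' - t) * (∑ i, y t' P i * κ i - ∑ i, y t P i * κ i) := by linarith
    have h2 : 0 ≤ ∑ i, y t' P i * κ i - ∑ i, y t P i * κ i :=
      nonneg_of_mul_nonneg_right h1 (by linarith)
    have h3 : ∀ s : ℚ, k s P = ∑ i, κ i * δ i P - ∑ i, y s P i * κ i := by
      intro s
      rw [hk]
      beta_reduce
      rw [← Finset.sum_sub_distrib]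
      exact Finset.sum_congr rfl fun i _ => by ring
    rw [h3, h3]
    linarith
  · intro t ht hq
    have h1 := mod_of_dual hgen (heff t ht) (μ := κ) (hinf t hq)
    rw [hk]
    exact h1
  · intro a b ε hε hs t ht hq P hP
    obtain ⟨u, hu, huε, hut⟩ : ∃ u : ℚ, 0 < u ∧ u ≤ ε ∧ u ≤ t :=
      ⟨min ε t, lt_min hε ht, min_le_left _ _, min_le_right _ _⟩
    have hef : ∀ s : ℚ, 0 ≤ s → s ≤ ε → EffA N δ (fun i => lam i + s * κ i) := by
      intro s h1 h2
      obtain ⟨m, hm, ν, hν, hb⟩ := (hs s h1 h2).2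
      obtain ⟨η, hη0, hη, -⟩ := hb P hP
      exact ⟨m, hm, ν, hν, η, hη0, hη⟩
    have key : ∀ s : ℚ, 0 < s → s ≤ u → α t P + s * k t P = a P + s * b P := by
      intro s h1 h2
      have h3 := hsame s t (hef s h1.le (h2.trans huε)) (h2.trans hut)
        (fun q hqR h => hq q hqR ⟨h1.trans_le h.1, h.2⟩) P hP
      have h4 := hmod s s (hef s h1.le (h2.trans huε)) fun q hqR =>
        ⟨fun h => absurd (h.1.trans_lt h.2) (lt_irrefl _),
          fun h => absurd (h.1.trans_le h.2) (lt_irrefl _)⟩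
      have h5 := mod_unique h4 (hs s h1.le (h2.trans huε)) hP
      beta_reduce at h5
      rw [h3.1, h3.2] at h5
      exact h5
    have k1 := key u hu le_rfl
    have k2 := key (u / 2) (by linarith) (by linarith)
    have h6 : u * (k t P - b P) = 0 := by linarith
    have h7 : k t P = b P := by
      rcases mul_eq_zero.1 h6 with h8 | h8
      · exact absurd h8 hu.ne'
      · linarith
    rw [h7] at k1
    exact ⟨by linarith, h7⟩

end Pool.Agent.U189.MG.Dsc
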