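import Pool.Agent.U189.MG.Dsm

/-!
The minimal model program with scaling without `ℚ`-factoriality: the theorem without the assumption that
there are prime divisors.
-/

set_option autoImplicit false
set_option linter.all false
set_option maxHeartbeats 1000000

open FF MvPolynomial Pool.Agent.W603.LV Pool.Agent.W602.GT Pool.Agent.W602.Cov
open Pool.Agent.TH756.PR Pool.Agent.TH122.AB Pool.Agent.TH756.PN
open Pool.Agent.Q57.FT Pool.Agent.Q57.CX Pool.Agent.Q57.HK Pool.Agent.U660.MD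

namespace Pool.Agent.U189.MG.Dsc

variable {p N : ℕ} {K : Type} [Field K] [Algebra ℂ K]

theorem exists_mul (μ : Fin p → ℚ) : ∃ (m : ℕ) (ν : Fin p → ℤ), 1 ≤ m ∧
    ∀ i, (m : ℚ) * μ i = ν i := by
  classical
  refine ⟨∏ i, (μ i).den, fun i => (μ i).num * ∏ j ∈ Finset.univ.erase i, ((μ j).den : ℤ),
    Finset.prod_pos fun i _ => (μ i).den_pos, fun i => ?_⟩
  rw [← Finset.mul_prod_erase _ _ (Finset.mem_univ i)]
  push_cast
  have h1 : ((μ i).den : ℚ) * μ i = (μ i).num := Rat.den_mul_eq_num (μ i)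
  rw [← h1]
  ring

theorem mod_of_none {δ : Fin p → Place ℂ K → ℚ} (h : ¬ ∃ P : Place ℂ K, Divisorial N P)
    (μ : Fin p → ℚ) (a : Place ℂ K → ℚ) : Mod N δ μ a := by
  refine ⟨fun m ν hν f => ⟨fun _ P hP => absurd ⟨P, hP⟩ h, fun _ P hP => absurd ⟨P, hP⟩ h⟩, ?_⟩
  obtain ⟨m, ν, hm, hν⟩ := exists_mul μ
  exact ⟨m, hm, ν, hν, fun P hP => absurd ⟨P, hP⟩ h⟩

theorem desc_all {δ : Fin p → Place ℂ K → ℚ} (hFG : (coxRing N δ).FG) :
    ∃ C : ℕ, ∀ κ lam : Fin p → ℚ,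
    ∃ (R : Finset ℚ) (α k : ℚ → Place ℂ K → ℚ), R.card ≤ C ∧
      (∀ t r : ℚ, EffA N δ (fun i => lam i + t * κ i) →
        (∀ q ∈ R, ¬ (t ≤ q ∧ q < r) ∧ ¬ (r < q ∧ q ≤ t)) →
        Mod N δ (fun i => lam i + r * κ i) fun P => α t P + r * k t P) ∧
      (∀ t t' : ℚ, EffA N δ (fun i => lam i + t * κ i) → t ≤ t' → (∀ q ∈ R, ¬ (t ≤ q ∧ q ≤ t')) →
        ∀ P : Place ℂ K, Divisorial N P → α t P = α t' P ∧ k t P = k t' P) ∧
      (∀ t t' : ℚ, EffA N δ (fun i => lam i + t * κ i) → EffA N δ (fun i => lam i + t' * κ i) →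
        t ≤ t' → t ∉ R → t' ∉ R →
        ∀ P : Place ℂ K, Divisorial N P → k t' P ≤ k t P) ∧
      (∀ t : ℚ, EffA N δ (fun i => lam i + t * κ i) → (∀ q ∈ R, q < t) → Mod N δ κ (k t)) ∧
      (∀ (a b : Place ℂ K → ℚ) (ε : ℚ), 0 < ε → (∀ s : ℚ, 0 ≤ s → s ≤ ε →
          Mod N δ (fun i => lam i + s * κ i) fun P => a P + s * b P) →
        ∀ t : ℚ, 0 < t → (∀ q ∈ R, ¬ (0 < q ∧ q ≤ t)) →
          ∀ P : Place ℂ K, Divisorial N P → α t P = a P ∧ k t P = b P) := by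
  classical
  by_cases h : ∃ P : Place ℂ K, Divisorial N P
  · obtain ⟨P0, hP0⟩ := h
    exact desc_main hFG hP0
  · exact ⟨0, fun κ lam => ⟨∅, fun _ _ => 0, fun _ _ => 0, le_rfl, fun _ _ _ _ =>
      mod_of_none h _ _, fun _ _ _ _ _ P hP => absurd ⟨P, hP⟩ h,
      fun _ _ _ _ _ _ _ P hP => absurd ⟨P, hP⟩ h, fun _ _ _ => mod_of_none h _ _,
      fun _ _ _ _ _ _ _ _ P hP => absurd ⟨P, hP⟩ h⟩⟩

/-- the neighbourhood of a point which is not in a finite set -/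
theorem gap (t : ℚ) : ∀ S : Finset ℚ, t ∉ S → ∃ ε : ℚ, 0 < ε ∧ ∀ q ∈ S, ¬ (t ≤ q ∧ q ≤ t + ε) := by
  classical
  intro S
  induction S using Finset.induction_on with
  | empty => exact fun _ => ⟨1, one_pos, fun q hq => by simp at hq⟩
  | insert q S hq ih =>
    intro hS
    rw [Finset.mem_insert, not_or] at hS
    obtain ⟨ε, hε, h⟩ := ih hS.2
    rcases lt_or_gt_of_ne hS.1 with hlt | hlt
    · refine ⟨min ε ((q - t) / 2), lt_min hε (by linarith), fun q' hq' hh => ?_⟩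
      rcases Finset.mem_insert.1 hq' with rfl | hq'
      · linarith [hh.2, min_le_right ε ((q' - t) / 2)]
      · exact h q' hq' ⟨hh.1, by linarith [hh.2, min_le_left ε ((q - t) / 2)]⟩
    · refine ⟨ε, hε, fun q' hq' hh => ?_⟩
      rcases Finset.mem_insert.1 hq' with rfl | hq'
      · linarith [hh.1]
      · exact h q' hq' hh

end Pool.Agent.U189.MG.Dsc
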