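import Pool.Agent.U189.ND.Defs
import Pool.Agent.U660.MD.Nef

/-!
Finite sets of functions are bounded by a multiple of the hyperplane class, up to a principal divisor.
-/

set_option autoImplicit false
set_option linter.all false
set_option maxHeartbeats 1000000

open FF MvPolynomial Pool.Agent.W602.GT Pool.Agent.W603.LV

namespace Pool.Agent.U189.MG

open Pool.Agent.U189.ND

variable {n : ℕ} {K : Type} [Field K] [Algebra ℂ K] {x : Fin (n + 1) → K}

/-- the order of `x 0` as a section of the hyperplane class -/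
noncomputable def wt (x : Fin (n + 1) → K) (P : Place ℂ K) : ℤ := P.ord (x 0) - minimalOrder x P

theorem min_le (x : Fin (n + 1) → K) (P : Place ℂ K) (j : Fin (n + 1)) :
    minimalOrder x P ≤ P.ord (x j) := Finset.inf'_le _ (Finset.mem_univ j)

theorem wt_nonneg (x : Fin (n + 1) → K) (P : Place ℂ K) : 0 ≤ wt x P :=
  sub_nonneg.2 (min_le x P 0)

/-- polynomials in the affine coordinates -/
theorem ge_adjoin (hx0 : x 0 ≠ 0) {a : K} (ha : a ∈ Algebra.adjoin ℂ (Set.range (affine x))) :
    ∃ E : ℕ, ∀ P : Place ℂ K, Ge P (-(E * wt x P)) a := by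
  induction ha using Algebra.adjoin_induction with
  | mem a ha =>
    obtain ⟨b, rfl⟩ := ha
    refine ⟨1, fun P => ?_⟩
    by_cases hb : x b.succ = 0
    · left
      unfold affine
      rw [hb, zero_div]
    · right
      have h1 : affine x b * x 0 = x b.succ := by
        unfold affine
        field_simp
      have h2 : affine x b ≠ 0 := div_ne_zero hb hx0
      have h3 := P.ord_mul h2 hx0
      rw [h1] at h3
      have h4 := min_le x P b.succ
      unfold wt
      push_cast
      linarith
  | algebraMap c => exact ⟨0, fun P => by simpa using Ge.const (P := P) c⟩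
  | add a b _ _ ha hb =>
    obtain ⟨E1, h1⟩ := ha
    obtain ⟨E2, h2⟩ := hb
    refine ⟨E1 + E2, fun P => ?_⟩
    have hw := wt_nonneg x P
    refine Ge.add ((h1 P).mono ?_) ((h2 P).mono ?_)
    · push_cast
      nlinarith
    · push_cast
      nlinarith
  | mul a b _ _ ha hb =>
    obtain ⟨E1, h1⟩ := ha
    obtain ⟨E2, h2⟩ := hb
    refine ⟨E1 + E2, fun P => ?_⟩
    have := (h1 P).mul (h2 P)
    convert this using 1
    push_cast
    ring

/-- integral elements -/
theorem ge_integral (hx0 : x 0 ≠ 0) {z : K}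
    (hz : IsIntegral (Algebra.adjoin ℂ (Set.range (affine x))) z) :
    ∃ E : ℕ, ∀ P : Place ℂ K, Ge P (-(E * wt x P)) z := by
  classical
  obtain ⟨p, hp, hpz⟩ := hz
  have hc : ∀ i : ℕ, ∃ E : ℕ, ∀ P : Place ℂ K, Ge P (-(E * wt x P)) ((p.coeff i : K)) :=
    fun i => ge_adjoin hx0 (p.coeff i).2
  choose E hE using hc
  obtain ⟨E0, hE0⟩ : ∃ E0 : ℕ, E0 = ∑ i ∈ Finset.range p.natDegree, E i := ⟨_, rfl⟩
  refine ⟨E0, fun P => ?_⟩
  by_cases hz0 : z = 0
  · exact Or.inl hz0
  right
  by_contra hcon
  push Not at hcon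
  have hw := wt_nonneg x P
  have hneg : P.ord z < 0 := by
    have : 0 ≤ (E0 : ℤ) * wt x P := by positivity
    linarith
  have heq : z ^ p.natDegree = - ∑ i ∈ Finset.range p.natDegree, (p.coeff i : K) * z ^ i := by
    rw [Polynomial.eval₂_eq_sum_range, Finset.sum_range_succ, hp.coeff_natDegree, map_one,
      one_mul] at hpz
    have h1 : ∑ i ∈ Finset.range p.natDegree, (p.coeff i : K) * z ^ i + z ^ p.natDegree = 0 := hpz
    linear_combination h1
  have hge : Ge P (p.natDegree * P.ord z + 1) (z ^ p.natDegree) := by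
    rw [heq]
    refine (Ge.sum _ _ fun i hi => ?_).neg
    have hi' := Finset.mem_range.1 hi
    have h1 : Ge P (i * P.ord z) (z ^ i) := Ge.pow (Or.inr le_rfl) i
    refine ((hE i P).mul h1).mono ?_
    have h2 : (E i : ℤ) ≤ E0 := by
      rw [hE0]
      exact_mod_cast Finset.single_le_sum (f := fun i => E i) (fun _ _ => Nat.zero_le _) hi
    have h3 : (E i : ℤ) * wt x P ≤ E0 * wt x P := mul_le_mul_of_nonneg_right h2 hw
    have h4 : (p.natDegree : ℤ) * P.ord z ≤ (i + 1) * P.ord z := by
      have : ((i : ℤ) + 1) ≤ p.natDegree := by exact_mod_cast hi'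
      nlinarith
    linarith
  have h5 := hge.resolve_left (pow_ne_zero _ hz0)
  rw [P.ord_pow] at h5
  linarith

/-- **Bounded divisors.** -/
theorem absorb (hx0 : x 0 ≠ 0) (hbas : IsTranscendenceBasis ℂ (affine x)) (S : Finset K) :
    ∃ (E : ℕ) (g : K), g ≠ 0 ∧ ∀ s ∈ S, s ≠ 0 → ∀ P : Place ℂ K,
      E * minimalOrder x P - P.ord g ≤ P.ord s := by
  classical
  have halg : Algebra.IsAlgebraic (Algebra.adjoin ℂ (Set.range (affine x))) K :=
    hbas.isAlgebraic
  have key : ∃ (E E' : ℕ) (g : K), g ≠ 0 ∧ (∀ P : Place ℂ K, -(E' * wt x P) ≤ P.ord g) ∧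
      ∀ s ∈ S, s ≠ 0 → ∀ P : Place ℂ K, -(E * wt x P) - P.ord g ≤ P.ord s := by
    induction S using Finset.induction_on with
    | empty => exact ⟨0, 0, 1, one_ne_zero, fun P => by simp [P.ord_one], fun s hs =>
        absurd hs (Finset.notMem_empty s)⟩
    | insert s S hs ih =>
      obtain ⟨E, E', g, hg0, hg, hS⟩ := ih
      obtain ⟨y, hy0, hy⟩ := (halg.isAlgebraic s).exists_integral_multiple
      obtain ⟨E1, hE1⟩ := ge_integral hx0 hy
      obtain ⟨E2, hE2⟩ := ge_adjoin hx0 y.2
      have hy0' : (y : K) ≠ 0 := fun h => hy0 (Subtype.ext h)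
      have hE2' : ∀ P : Place ℂ K, -(E2 * wt x P) ≤ P.ord (y : K) :=
        fun P => (hE2 P).resolve_left hy0'
      refine ⟨E + E1 + E2 + E', E' + E2, g * y, mul_ne_zero hg0 hy0', fun P => ?_,
        fun s' hs' hs0 P => ?_⟩
      · rw [P.ord_mul hg0 hy0']
        have h1 := hg P
        have h2 := hE2' P
        push_cast
        linarith
      · have hw := wt_nonneg x P
        have hE0 : 0 ≤ (E : ℤ) * wt x P := by positivity
        have hE10 : 0 ≤ (E1 : ℤ) * wt x P := by positivity
        have hE20 : 0 ≤ (E2 : ℤ) * wt x P := by positivity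
        have hE'0 : 0 ≤ (E' : ℤ) * wt x P := by positivity
        rw [P.ord_mul hg0 hy0']
        rcases Finset.mem_insert.1 hs' with h | h
        · subst h
          have h1 : Ge P (-(E1 * wt x P)) ((y : K) * s') := hE1 P
          have h2 := h1.resolve_left (mul_ne_zero hy0' hs0)
          rw [P.ord_mul hy0' hs0] at h2
          have h3 := hg P
          push_cast
          linarith
        · have h1 := hS s' h hs0 P
          have h2 := hE2' P
          push_cast
          linarith
  obtain ⟨E, E', g, hg0, hg, hS⟩ := key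
  refine ⟨E, g * x 0 ^ E, mul_ne_zero hg0 (pow_ne_zero _ hx0), fun s hs hs0 P => ?_⟩
  have h1 := hS s hs hs0 P
  rw [P.ord_mul hg0 (pow_ne_zero _ hx0), P.ord_pow]
  unfold wt at h1
  linarith

end Pool.Agent.U189.MG
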