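import Pool.Agent.U189.MG.Trm

/-!
Chambers: real points which are not on the walls, and the models of the chambers.
-/

set_option autoImplicit false
set_option linter.all false
set_option maxHeartbeats 1000000

open FF MvPolynomial Pool.Agent.W603.LV Pool.Agent.W602.GT Pool.Agent.W602.Cov
open Pool.Agent.TH756.PR Pool.Agent.TH122.AB Pool.Agent.TH756.PN
open Pool.Agent.Q57.FT Pool.Agent.Q57.CX Pool.Agent.Q57.HK Pool.Agent.U660.MD

namespace Pool.Agent.U189.MG

variable {p N : ℕ} {K : Type} [Field K] [Algebra ℂ K]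

/-- a model on which the real combination `x` is ample; near `x` the sections are the same -/
def MdlR (N : ℕ) (δ δ' : Fin p → Place ℂ K → ℚ) (x : Fin p → ℝ) : Prop :=
  (∀ μ f, ZSec N δ μ f → ZSec N δ' μ f) ∧ ∃ ε : ℝ, 0 < ε ∧
    ∀ μ : Fin p → ℚ, (∀ i, |(μ i : ℝ) - x i| ≤ ε) → SemiA N δ' μ ∧
      ∀ (k : ℕ) (ν : Fin p → ℤ), (∀ i, (k : ℚ) * μ i = ν i) → ∀ f, ZSec N δ' ν f → ZSec N δ ν f

/-- the functional -/
def ell (v : Fin p → ℤ) (x : Fin p → ℝ) : ℝ := ∑ i, (v i : ℝ) * x i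

theorem ell_zero (x : Fin p → ℝ) : ell (0 : Fin p → ℤ) x = 0 := by
  simp [ell]

theorem ell_line (v : Fin p → ℤ) (a w : Fin p → ℝ) (t : ℝ) :
    ell v (fun i => (1 - t) * a i + t * w i) = (1 - t) * ell v a + t * ell v w := by
  unfold ell
  rw [Finset.mul_sum, Finset.mul_sum, ← Finset.sum_add_distrib]
  exact Finset.sum_congr rfl fun i _ => by ring

theorem ell_cont (v : Fin p → ℤ) : Continuous (ell v) := by
  unfold ell
  fun_prop

variable {ι : Type} [Finite ι]

/-- no wall contains the point -/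
def Reg (A : ι → Fin p → ℤ) (x : Fin p → ℝ) : Prop := ∀ r, A r ≠ 0 → ell (A r) x ≠ 0

/-- the same sides of the walls -/
def Same (A : ι → Fin p → ℤ) (x y : Fin p → ℝ) : Prop :=
  ∀ r, (0 ≤ ell (A r) x ↔ 0 ≤ ell (A r) y)

theorem Same.symm {A : ι → Fin p → ℤ} {x y : Fin p → ℝ} (h : Same A x y) : Same A y x :=
  fun r => (h r).symm

theorem Same.trans {A : ι → Fin p → ℤ} {x y z : Fin p → ℝ} (h : Same A x y) (h' : Same A y z) :
    Same A x z := fun r => (h r).trans (h' r)

theorem reg_ball {A : ι → Fin p → ℤ} {x : Fin p → ℝ} (hx : Reg A x) :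
    ∃ ε : ℝ, 0 < ε ∧ ∀ y : Fin p → ℝ, (∀ i, |y i - x i| ≤ ε) → Reg A y ∧ Same A x y := by
  classical
  have hopen : IsOpen (⋂ r : ι, {y : Fin p → ℝ | A r ≠ 0 → 0 < ell (A r) y * ell (A r) x}) := by
    refine isOpen_iInter_of_finite fun r => ?_
    by_cases h0 : A r = 0
    · have : {y : Fin p → ℝ | A r ≠ 0 → 0 < ell (A r) y * ell (A r) x} = Set.univ :=
        Set.eq_univ_of_forall fun y h => absurd h0 h
      rw [this]
      exact isOpen_univ
    · have : {y : Fin p → ℝ | A r ≠ 0 → 0 < ell (A r) y * ell (A r) x} =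
          {y : Fin p → ℝ | 0 < ell (A r) y * ell (A r) x} :=
        Set.ext fun y => ⟨fun h => h h0, fun h _ => h⟩
      rw [this]
      exact isOpen_lt continuous_const ((ell_cont (A r)).mul continuous_const)
  have hmem : x ∈ ⋂ r : ι, {y : Fin p → ℝ | A r ≠ 0 → 0 < ell (A r) y * ell (A r) x} := by
    refine Set.mem_iInter.2 fun r h0 => ?_
    exact mul_self_pos.2 (hx r h0)
  obtain ⟨ε, hε, hball⟩ := Metric.isOpen_iff.1 hopen x hmem
  refine ⟨ε / 2, by linarith, fun y hy => ?_⟩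
  have h1 : y ∈ Metric.ball x ε := by
    rw [Metric.mem_ball]
    refine lt_of_le_of_lt ((dist_pi_le_iff (by linarith : (0 : ℝ) ≤ ε / 2)).2 fun i => ?_)
      (by linarith)
    rw [Real.dist_eq]
    exact hy i
  have h2 := Set.mem_iInter.1 (hball h1)
  refine ⟨fun r h0 h => ?_, fun r => ?_⟩
  · have h3 : 0 < ell (A r) y * ell (A r) x := h2 r h0
    rw [h, zero_mul] at h3
    exact lt_irrefl _ h3
  · by_cases h0 : A r = 0
    · rw [h0, ell_zero, ell_zero]
    · have h3 : 0 < ell (A r) y * ell (A r) x := h2 r h0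
      constructor
      · intro h4
        by_contra h5
        push Not at h5
        nlinarith
      · intro h4
        by_contra h5
        push Not at h5
        nlinarith

theorem exists_rat_near (x : Fin p → ℝ) {ε : ℝ} (hε : 0 < ε) :
    ∃ q : Fin p → ℚ, ∀ i, |(q i : ℝ) - x i| ≤ ε := by
  have hq : ∀ i, ∃ q : ℚ, x i < q ∧ (q : ℝ) < x i + ε := fun i => exists_rat_btwn (by linarith)
  choose q h1 h2 using hq
  refine ⟨q, fun i => ?_⟩
  rw [abs_le]
  constructor <;> linarith [h1 i, h2 i]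

/-- regular rational points are dense -/
theorem exists_reg [Fintype ι] (A : ι → Fin p → ℤ) (x : Fin p → ℝ) {ε : ℝ} (hε : 0 < ε) :
    ∃ q : Fin p → ℚ, (∀ i, |(q i : ℝ) - x i| ≤ ε) ∧ Reg A fun i => (q i : ℝ) := by
  classical
  obtain ⟨T, hT⟩ := exists_T A
  obtain ⟨q0, hq0⟩ := exists_rat_near x (ε := ε / 2) (by linarith)
  obtain ⟨v, hv⟩ : ∃ v : Fin p → ℚ, v = fun i : Fin p => (T : ℚ) ^ (i : ℕ) := ⟨_, rfl⟩
  have hℓw : ∀ r, A r ≠ 0 → ell (A r) (fun i => (v i : ℝ)) ≠ 0 := by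
    intro r hr h0
    apply hT r hr
    unfold ell at h0
    rw [hv] at h0
    push_cast at h0
    exact_mod_cast h0
  obtain ⟨C, hC⟩ : ∃ C : ℝ, C = ∑ i, |(v i : ℝ)| + 1 := ⟨_, rfl⟩
  have hC0 : 0 < C := by rw [hC]; positivity
  have hq0' : 0 < ε / 2 / C := by positivity
  obtain ⟨c0, hc0, hc1⟩ := exists_rat_btwn hq0'
  have hc0' : (0 : ℚ) < c0 := by exact_mod_cast hc0
  obtain ⟨c, hc, hcF⟩ := (Set.Ioo_infinite hc0').exists_notMem_finset
    (Finset.univ.image fun r => - (∑ i, (A r i : ℚ) * q0 i) / (∑ i, (A r i : ℚ) * v i))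
  refine ⟨fun i => q0 i + c * v i, fun i => ?_, fun r hr h0 => ?_⟩
  · have h1 : |(v i : ℝ)| ≤ C := by
      rw [hC]
      have := Finset.single_le_sum (f := fun i => |(v i : ℝ)|) (fun _ _ => abs_nonneg _)
        (Finset.mem_univ i)
      linarith
    have hcc : (0 : ℝ) < c := by exact_mod_cast hc.1
    have h2 : |(c : ℝ) * v i| ≤ ε / 2 := by
      rw [abs_mul, abs_of_pos hcc]
      have h3 : (c : ℝ) < c0 := by exact_mod_cast hc.2
      have h4 : (c : ℝ) ≤ ε / 2 / C := (h3.trans hc1).le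
      rw [le_div_iff₀ hC0] at h4
      calc (c : ℝ) * |(v i : ℝ)| ≤ c * C := mul_le_mul_of_nonneg_left h1 hcc.le
        _ ≤ ε / 2 := h4
    have h3 := hq0 i
    push_cast
    have h4 : (q0 i : ℝ) + c * v i - x i = ((q0 i : ℝ) - x i) + c * v i := by ring
    rw [h4]
    calc |((q0 i : ℝ) - x i) + c * v i| ≤ |(q0 i : ℝ) - x i| + |(c : ℝ) * v i| := abs_add_le _ _
      _ ≤ ε := by linarith
  · have h1 := hℓw r hr
    apply hcF
    refine Finset.mem_image.2 ⟨r, Finset.mem_univ _, ?_⟩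
    have h2 : (∑ i, (A r i : ℚ) * v i) ≠ 0 := by
      intro h
      apply h1
      unfold ell
      have : ((∑ i, (A r i : ℚ) * v i : ℚ) : ℝ) = 0 := by rw [h]; norm_num
      push_cast at this
      exact this
    rw [div_eq_iff h2]
    have h3 : ((∑ i, (A r i : ℚ) * (q0 i + c * v i) : ℚ) : ℝ) = 0 := by
      unfold ell at h0
      push_cast at h0 ⊢
      exact h0
    have h4 : ∑ i, (A r i : ℚ) * (q0 i + c * v i) = 0 := by exact_mod_cast h3
    have h5 : ∑ i, (A r i : ℚ) * (q0 i + c * v i) =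
        ∑ i, (A r i : ℚ) * q0 i + c * ∑ i, (A r i : ℚ) * v i := by
      rw [Finset.mul_sum, ← Finset.sum_add_distrib]
      exact Finset.sum_congr rfl fun i _ => by ring
    rw [h5] at h4
    linarith

/-- an affine function without zeros between two points has the same sign at both -/
theorem affine_sign {α β t1 t2 : ℝ} (h : ∀ u, min t1 t2 ≤ u → u ≤ max t1 t2 → α + β * u ≠ 0) :
    0 ≤ α + β * t1 ↔ 0 ≤ α + β * t2 := by
  have hc : ContinuousOn (fun u : ℝ => α + β * u) (Set.uIcc t1 t2) := by fun_prop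
  have hiv := intermediate_value_uIcc hc
  have key : ¬ (0 ∈ Set.uIcc (α + β * t1) (α + β * t2)) := by
    intro h0
    obtain ⟨u, hu, hu0⟩ := hiv h0
    have hu' := Set.mem_uIcc.1 hu
    refine h u ?_ ?_ hu0
    · rcases hu' with h1 | h1
      · exact (min_le_left _ _).trans h1.1
      · exact (min_le_right _ _).trans h1.1
    · rcases hu' with h1 | h1
      · exact h1.2.trans (le_max_right _ _)
      · exact h1.2.trans (le_max_left _ _)
  constructor
  · intro h1
    by_contra h2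
    push Not at h2
    exact key (Set.mem_uIcc.2 (Or.inr ⟨h2.le, h1⟩))
  · intro h1
    by_contra h2
    push Not at h2
    exact key (Set.mem_uIcc.2 (Or.inl ⟨h2.le, h1⟩))

section

variable {δ : Fin p → Place ℂ K → ℚ} {N0 : ℕ} {g : Fin N0 → Fin p → ℤ} {f : Fin N0 → K}

/-- the walls -/
theorem exists_walls (g : Fin N0 → Fin p → ℤ) :
    ∃ (ι : Type) (_ : Fintype ι) (A : ι → Fin p → ℤ),
      (∀ x y : Fin p → ℝ, Same A x y → ∀ B : Finset (Fin N0), RC (gB g B) x → RC (gB g B) y) ∧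
      ∃ R : Finset ι, ∀ x : Fin p → ℝ, RC g x ↔ ∀ r ∈ R, 0 ≤ ell (A r) x := by
  classical
  choose S A hA using fun B : Finset (Fin N0) => weyl (gB g B)
  refine ⟨(B : Finset (Fin N0)) × Fin (S B), inferInstance, fun r => A r.1 r.2,
    fun x y h B hx => ?_, Finset.univ.filter fun r => r.1 = Finset.univ, fun x => ?_⟩
  · rw [hA] at hx ⊢
    exact fun s => (h ⟨B, s⟩).1 (hx s)
  · have h1 := hA Finset.univ x
    rw [gB_univ] at h1
    rw [h1]
    constructor
    · rintro h ⟨B, s⟩ hr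
      rw [Finset.mem_filter] at hr
      obtain ⟨-, hr⟩ := hr
      beta_reduce at hr
      subst hr
      exact h s
    · intro h s
      exact h ⟨Finset.univ, s⟩ (Finset.mem_filter.2 ⟨Finset.mem_univ _, rfl⟩)

variable (hgen : (∀ b, f b ≠ 0 ∧ ZSec N δ (g b) (f b)) ∧
      ∀ (μ : Fin p → ℤ) (η : K), η ≠ 0 → ZSec N δ μ η → ∀ P : Place ℂ K, Mnl g f P μ η)

include hgen

/-- the model of the chamber of `q` -/
theorem mdlR_of_dual {A : ι → Fin p → ℤ}
    (hA : ∀ x y : Fin p → ℝ, Same A x y → ∀ B : Finset (Fin N0), RC (gB g B) x → RC (gB g B) y)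
    {q : Fin p → ℚ} {y : Place ℂ K → Fin p → ℚ} (hy : Dual N g f δ q y) {x : Fin p → ℝ}
    (hx : Reg A x) (hs : Same A (fun i => (q i : ℝ)) x) :
    MdlR N δ (fun i P => δ i P - y P i) x := by
  obtain ⟨ε, hε, hb⟩ := reg_ball hx
  refine ⟨sub_of_dual hgen hy, ε, hε, fun μ hμ => ?_⟩
  have h1 : ∀ B : Finset (Fin N0), CoG g B q → CoG g B μ := by
    intro B hB
    rw [cog_iff] at hB ⊢
    exact hA _ _ (hs.trans (hb _ hμ).2) B hB
  refine ⟨semi_of_dual hgen hy h1, fun k ν hν η hη =>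
    sec_of_dual hgen hy (fun B hB => ?_) hη⟩
  have h2 := rc_smul ((cog_iff g B μ).1 (h1 B hB)) (c := (k : ℝ)) (by positivity)
  convert h2 using 2
  rename_i i
  have := hν i
  have h3 : (((k : ℚ) * μ i : ℚ) : ℝ) = (((ν i : ℤ) : ℚ) : ℝ) := by rw [this]
  push_cast at h3
  exact h3.symm

/-- the values of a dual solution are the largest ones on its chamber -/
theorem cmp {q q' : Fin p → ℚ} {y y' : Place ℂ K → Fin p → ℚ} (hy : Dual N g f δ q y)
    (hy' : Dual N g f δ q' y') {P : Place ℂ K} (hP : Divisorial N P) {x : Fin p → ℝ}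
    (hx : ∀ B : Finset (Fin N0), CoG g B q' → RC (gB g B) x) :
    ∑ i, (y P i : ℝ) * x i ≤ ∑ i, (y' P i : ℝ) * x i := by
  classical
  obtain ⟨B, hB1, hB2⟩ := (hy' P hP).2
  obtain ⟨t, ht, ht2⟩ := hx B hB1
  have h1 : ∀ z : Fin p → ℚ, ∑ i, (z i : ℝ) * x i =
      ∑ b, t b * ((∑ i, z i * (gB g B b i : ℚ) : ℚ) : ℝ) := by
    intro z
    have h2 : ∀ b, t b * ((∑ i, z i * (gB g B b i : ℚ) : ℚ) : ℝ) =
        ∑ i, (z i : ℝ) * (t b * (gB g B b i : ℝ)) := by
      intro b
      push_cast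
      rw [Finset.mul_sum]
      exact Finset.sum_congr rfl fun i _ => by ring
    simp only [h2]
    rw [Finset.sum_comm]
    refine Finset.sum_congr rfl fun i _ => ?_
    rw [ht2 i, Finset.mul_sum]
  rw [h1, h1]
  refine Finset.sum_le_sum fun b _ => mul_le_mul_of_nonneg_left ?_ (ht b)
  by_cases hb : b ∈ B
  · have h3 : ∑ i, y' P i * (gB g B b i : ℚ) = cP g f δ P b := by
      rw [← hB2 b hb]
      exact Finset.sum_congr rfl fun i _ => by simp [gB, hb]
    have h4 : ∑ i, y P i * (gB g B b i : ℚ) ≤ cP g f δ P b := by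
      refine le_trans (le_of_eq ?_) ((hy P hP).1 b)
      exact Finset.sum_congr rfl fun i _ => by simp [gB, hb]
    have h5 : ∑ i, y P i * (gB g B b i : ℚ) ≤ ∑ i, y' P i * (gB g B b i : ℚ) := by
      rw [h3]
      exact h4
    exact_mod_cast h5
  · have h3 : ∀ z : Fin p → ℚ, ∑ i, z i * (gB g B b i : ℚ) = 0 := by
      intro z
      refine Finset.sum_eq_zero fun i _ => ?_
      simp [gB, hb]
    rw [h3, h3]

end

/-- a functional which is nonnegative near a point and zero at the point is zero -/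
theorem zero_of_ballR {z x : Fin p → ℝ} {ε : ℝ} (hε : 0 < ε)
    (h : ∀ y : Fin p → ℝ, (∀ i, |y i - x i| ≤ ε) → 0 ≤ ∑ i, z i * y i)
    (h0 : ∑ i, z i * x i ≤ 0) : ∀ i, z i = 0 := by
  classical
  intro i
  have key : ∀ t : ℝ, |t| ≤ ε → 0 ≤ t * z i := by
    intro t ht
    have h1 := h (fun j => x j + if j = i then t else 0) fun j => by
      beta_reduce
      split_ifs
      · simpa using ht
      · simpa using hε.le
    have h2 : ∑ j, z j * (x j + if j = i then t else 0) = ∑ j, z j * x j + t * z i := by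
      simp only [mul_add, Finset.sum_add_distrib, mul_ite, mul_zero]
      congr 1
      rw [Finset.sum_ite_eq' Finset.univ i]
      simp [mul_comm]
    rw [h2] at h1
    linarith
  have h1 := key ε (by rw [abs_of_pos hε])
  have h2 := key (-ε) (by rw [abs_neg, abs_of_pos hε])
  nlinarith

end Pool.Agent.U189.MG
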