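import Pool.Agent.U189.MG.Chm

/-!
The minimal model program with scaling without `ℚ`-factoriality: the models along a line of
combinations `lam + t κ`.
-/

set_option autoImplicit false
set_option linter.all false
set_option maxHeartbeats 1000000

open FF MvPolynomial Pool.Agent.W603.LV Pool.Agent.W602.GT Pool.Agent.W602.Cov
open Pool.Agent.TH756.PR Pool.Agent.TH122.AB Pool.Agent.TH756.PN
open Pool.Agent.Q57.FT Pool.Agent.Q57.CX Pool.Agent.Q57.HK Pool.Agent.U660.MD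

namespace Pool.Agent.U189.MG.Dsc

variable {p N : ℕ} {K : Type} [Field K] [Algebra ℂ K]

/-- the coefficients `a` are those of the semiample combination `μ` on a variety -/
def Mod (N : ℕ) (δ : Fin p → Place ℂ K → ℚ) (μ : Fin p → ℚ) (a : Place ℂ K → ℚ) : Prop :=
  (∀ (m : ℕ) (ν : Fin p → ℤ), (∀ i, (m : ℚ) * μ i = ν i) → ∀ f : K,
    (ZSec N δ ν f ↔ ∀ P : Place ℂ K, Divisorial N P → f = 0 ∨ - (m * a P) ≤ P.ord f)) ∧
  ∃ m : ℕ, 1 ≤ m ∧ ∃ ν : Fin p → ℤ, (∀ i, (m : ℚ) * μ i = ν i) ∧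
    ∀ P : Place ℂ K, Divisorial N P → ∃ f : K, f ≠ 0 ∧ ZSec N δ ν f ∧ (P.ord f : ℚ) ≤ - (m * a P)

section

variable {δ : Fin p → Place ℂ K → ℚ} {N0 : ℕ} {g : Fin N0 → Fin p → ℤ} {f : Fin N0 → K}

/-- two descriptions of the same combination agree -/
theorem mod_unique {μ : Fin p → ℚ} {a a' : Place ℂ K → ℚ} (h : Mod N δ μ a) (h' : Mod N δ μ a')
    {P : Place ℂ K} (hP : Divisorial N P) : a P = a' P := by
  have key : ∀ {a a' : Place ℂ K → ℚ}, Mod N δ μ a → Mod N δ μ a' → a P ≤ a' P := by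
    intro a a' h h'
    obtain ⟨m, hm, ν, hν, hb⟩ := h.2
    obtain ⟨η, hη0, hη, hle⟩ := hb P hP
    have h1 := ((h'.1 m ν hν η).1 hη P hP).resolve_left hη0
    have hm0 : (0 : ℚ) < m := by exact_mod_cast hm
    have h2 : (m : ℚ) * a P ≤ m * a' P := by linarith
    exact le_of_mul_le_mul_left h2 hm0
  exact le_antisymm (key h h') (key h' h)

variable (hgen : (∀ b, f b ≠ 0 ∧ ZSec N δ (g b) (f b)) ∧
      ∀ (μ : Fin p → ℤ) (η : K), η ≠ 0 → ZSec N δ μ η → ∀ P : Place ℂ K, Mnl g f P μ η)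

include hgen

theorem mod_of_dual {μ0 : Fin p → ℚ} {y : Place ℂ K → Fin p → ℚ} (hy : Dual N g f δ μ0 y)
    {μ : Fin p → ℚ} (hμ : ∀ B : Finset (Fin N0), CoG g B μ0 → CoG g B μ) :
    Mod N δ μ fun P => ∑ i, μ i * (δ i P - y P i) := by
  classical
  have hsum : ∀ (m : ℕ) (ν : Fin p → ℤ), (∀ i, (m : ℚ) * μ i = ν i) → ∀ P : Place ℂ K,
      - ∑ i, (ν i : ℚ) * (δ i P - y P i) = - (m * ∑ i, μ i * (δ i P - y P i)) := by
    intro m ν hν P
    rw [Finset.mul_sum]
    congr 1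
    exact Finset.sum_congr rfl fun i _ => by rw [← hν i]; ring
  have hrc : ∀ (m : ℕ) (ν : Fin p → ℤ), (∀ i, (m : ℚ) * μ i = ν i) →
      ∀ B : Finset (Fin N0), CoG g B μ0 → RC (gB g B) fun i => (ν i : ℝ) := by
    intro m ν hν B hB
    have h1 := rc_smul ((cog_iff g B μ).1 (hμ B hB)) (c := (m : ℝ)) (by positivity)
    convert h1 using 2
    rename_i i
    have := hν i
    have h3 : (((m : ℚ) * μ i : ℚ) : ℝ) = (((ν i : ℤ) : ℚ) : ℝ) := by rw [this]
    push_cast at h3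
    exact h3.symm
  constructor
  · intro m ν hν η
    constructor
    · intro hη P hP
      have h1 := sub_of_dual hgen hy ν η hη P hP
      rw [hsum m ν hν P] at h1
      exact h1
    · intro hη
      refine sec_of_dual hgen hy (hrc m ν hν) (η := η) fun P hP => ?_
      rw [hsum m ν hν P]
      exact hη P hP
  · obtain ⟨m, hm, ν, hν, hb⟩ := semi_of_dual hgen hy hμ
    refine ⟨m, hm, ν, hν, fun P hP => ?_⟩
    obtain ⟨η, hη0, hη, hle⟩ := hb P hP
    rw [hsum m ν hν P] at hle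
    exact ⟨η, hη0, sec_of_dual hgen hy (hrc m ν hν) hη, hle⟩

end

/-- the cones which contain the points of a line change at finitely many points, with a bound on
their number -/
theorem breaks {N0 : ℕ} (g : Fin N0 → Fin p → ℤ) : ∃ C : ℕ, ∀ κ lam : Fin p → ℚ,
    ∃ R : Finset ℚ, R.card ≤ C ∧
      (∀ t r : ℚ, (∀ q ∈ R, ¬ (t ≤ q ∧ q < r) ∧ ¬ (r < q ∧ q ≤ t)) →
        ∀ B : Finset (Fin N0), CoG g B (fun i => lam i + t * κ i) →
          CoG g B (fun i => lam i + r * κ i)) ∧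
      (∀ t : ℚ, (∀ q ∈ R, q < t) → ∀ B : Finset (Fin N0),
        CoG g B (fun i => lam i + t * κ i) → CoG g B κ) := by
  classical
  choose S A hA using fun B : Finset (Fin N0) => weyl (gB g B)
  obtain ⟨ι, hι⟩ : ∃ ι : Type, ι = ((B : Finset (Fin N0)) × Fin (S B)) := ⟨_, rfl⟩
  refine ⟨Fintype.card ((B : Finset (Fin N0)) × Fin (S B)), fun κ lam => ?_⟩
  obtain ⟨a, ha⟩ : ∃ a : ((B : Finset (Fin N0)) × Fin (S B)) → ℚ,
      a = fun w => ∑ i, (A w.1 w.2 i : ℚ) * lam i := ⟨_, rfl⟩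
  obtain ⟨b, hb⟩ : ∃ b : ((B : Finset (Fin N0)) × Fin (S B)) → ℚ,
      b = fun w => ∑ i, (A w.1 w.2 i : ℚ) * κ i := ⟨_, rfl⟩
  have hcog : ∀ (B : Finset (Fin N0)) (μ : Fin p → ℚ), CoG g B μ ↔
      ∀ s, 0 ≤ ∑ i, (A B s i : ℚ) * μ i := by
    intro B μ
    rw [cog_iff, hA]
    unfold IQ
    refine forall_congr' fun s => ?_
    have : (∑ i, (A B s i : ℝ) * ((μ i : ℚ) : ℝ)) = ((∑ i, (A B s i : ℚ) * μ i : ℚ) : ℝ) := by
      push_cast
      rfl
    rw [this]
    exact_mod_cast Iff.rfl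
  have hline : ∀ (B : Finset (Fin N0)) (s : Fin (S B)) (t : ℚ),
      ∑ i, (A B s i : ℚ) * (lam i + t * κ i) = a ⟨B, s⟩ + t * b ⟨B, s⟩ := by
    intro B s t
    rw [ha, hb]
    beta_reduce
    rw [Finset.mul_sum, ← Finset.sum_add_distrib]
    exact Finset.sum_congr rfl fun i _ => by ring
  refine ⟨(Finset.univ.filter fun w => b w ≠ 0).image fun w => - a w / b w, ?_, ?_, ?_⟩
  · exact Finset.card_image_le.trans ((Finset.card_filter_le _ _).trans (le_of_eq rfl))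
  · intro t r hR B hB
    rw [hcog] at hB ⊢
    intro s
    have h1 := hB s
    rw [hline] at h1 ⊢
    by_cases h0 : b ⟨B, s⟩ = 0
    · rw [h0] at h1 ⊢
      linarith
    · have h2 := hR _ (Finset.mem_image.2 ⟨⟨B, s⟩, Finset.mem_filter.2 ⟨Finset.mem_univ _, h0⟩, rfl⟩)
      obtain ⟨q, hq⟩ : ∃ q, q = - a ⟨B, s⟩ / b ⟨B, s⟩ := ⟨_, rfl⟩
      rw [← hq] at h2
      have h3 : a ⟨B, s⟩ = - (q * b ⟨B, s⟩) := by
        rw [hq]
        field_simp
      rw [h3] at h1 ⊢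
      rcases lt_or_gt_of_ne h0 with h4 | h4
      · have h5 : t ≤ q := by
          by_contra h6
          push Not at h6
          nlinarith
        have h6 : r ≤ q := by
          by_contra h7
          push Not at h7
          exact h2.1 ⟨h5, h7⟩
        nlinarith
      · have h5 : q ≤ t := by
          by_contra h6
          push Not at h6
          nlinarith
        have h6 : q ≤ r := by
          by_contra h7
          push Not at h7
          exact h2.2 ⟨h7, h5⟩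
        nlinarith
  · intro t hR B hB
    rw [hcog] at hB ⊢
    intro s
    have h1 := hB s
    rw [hline] at h1
    have h8 : ∑ i, (A B s i : ℚ) * κ i = b ⟨B, s⟩ := by rw [hb]
    rw [h8]
    by_contra h0
    push Not at h0
    have h2 := hR _ (Finset.mem_image.2 ⟨⟨B, s⟩, Finset.mem_filter.2 ⟨Finset.mem_univ _, h0.ne⟩,
      rfl⟩)
    obtain ⟨q, hq⟩ : ∃ q, q = - a ⟨B, s⟩ / b ⟨B, s⟩ := ⟨_, rfl⟩
    rw [← hq] at h2
    have h3 : a ⟨B, s⟩ = - (q * b ⟨B, s⟩) := by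
      rw [hq]
      have := h0.ne
      field_simp
    rw [h3] at h1
    nlinarith

end Pool.Agent.U189.MG.Dsc
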