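import Pool.Agent.U189.MG.Psf

/-!
The Cox ring of the toroidal divisors together with the hyperplane class is finitely generated.
-/

set_option autoImplicit false
set_option linter.all false

open FF MvPolynomial Pool.Agent.W602.GT

namespace Pool.Agent.U189.MG

open Pool.Agent.U189.ND

theorem cox_ext (n R p : ℕ) (hn : 1 ≤ n) (d : Fin (n + 1) → ℕ) (hd : ∀ k, 1 ≤ d k)
    (F : Fin (n + 1) → MvPolynomial (Fin (n + 1)) ℂ) (hF : ∀ k, (F k).IsHomogeneous (d k))
    (hs : NormalCrossings F) (m : Fin R → ℕ) (hm : ∀ j, 1 ≤ m j) (a : Fin R → Fin (n + 1) → ℕ)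
    (hdiv : ∀ j, m j ∣ ∑ k, a j k * d k)
    (K : Type) [Field K] [Algebra ℂ K] (x : Fin (n + 1) → K) (hx0 : x 0 ≠ 0)
    (hbas : IsTranscendenceBasis ℂ (affine x)) (z : Fin R → K)
    (hz : ∀ j, z j ^ m j = ∏ k, (aeval x (F k) / x 0 ^ d k) ^ a j k)
    (hgen : IntermediateField.adjoin ℂ (Set.range (affine x) ∪ Set.range z) = ⊤)
    (fan : Finset (Finset (Fin (n + 1) → ℕ))) (hfan : IsFan m a fan)
    (c : Fin p → (Fin (n + 1) → ℕ) → ℚ) (hc0 : ∀ i, c i 0 = 0) (β : Fin p → ℤ)
    (u : Finset (Fin (n + 1) → ℕ) → Fin p → Fin (n + 1) → ℚ)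
    (hlin : ∀ σ ∈ fan, ∀ i v, Admissible m a v → InCone σ v → - c i v = ∑ k, u σ i k * v k)
    (δ : Fin p → Place ℂ K → ℚ) (hδ : ∀ i P, δ i P = coefficient F d x (c i) (β i) P) :
    (Pool.Agent.Q57.CX.coxRing n (ext x δ)).FG := by
  refine cox_nc n R (p + 1) hn d hd F hF hs m hm a hdiv K x hx0 hbas z hz hgen fan hfan
    (Fin.cons (α := fun _ => (Fin (n + 1) → ℕ) → ℚ) (fun _ => 0) c) (fun i => ?_)
    (Fin.cons (α := fun _ => ℤ) 1 β)
    (fun σ => Fin.cons (α := fun _ => Fin (n + 1) → ℚ) (fun _ => 0) (u σ))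
    (fun σ hσ i v hv hc => ?_) _ (fun i P => ?_)
  · induction i using Fin.cases with
    | zero => rfl
    | succ i => exact hc0 i
  · induction i using Fin.cases with
    | zero => simp
    | succ i => simpa using hlin σ hσ i v hv hc
  · induction i using Fin.cases with
    | zero =>
      simp only [ext, Fin.cons_zero, coefficient]
      push_cast
      ring
    | succ i => simpa only [ext, Fin.cons_succ] using hδ i P

end Pool.Agent.U189.MG
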