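import Pool.Agent.U189.MG.Geo

/-!
Finitely many good log terminal models for all pseudo-effective combinations.
-/

set_option autoImplicit false
set_option linter.all false
set_option maxHeartbeats 1000000

open FF MvPolynomial Pool.Agent.W603.LV Pool.Agent.W602.GT Pool.Agent.W602.Cov
open Pool.Agent.TH756.PR Pool.Agent.TH122.AB Pool.Agent.TH756.PN
open Pool.Agent.Q57.FT Pool.Agent.Q57.CX Pool.Agent.Q57.HK Pool.Agent.U660.MD

namespace Pool.Agent.U189.MG

variable {p N : ℕ} {K : Type} [Field K] [Algebra ℂ K]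

section

variable {δ : Fin p → Place ℂ K → ℚ} {N0 : ℕ} {g : Fin N0 → Fin p → ℤ} {f : Fin N0 → K}

theorem gB_univ (g : Fin N0 → Fin p → ℤ) : gB g Finset.univ = g := by
  classical
  funext b i
  simp [gB]

/-- perturbation of one coordinate -/
theorem zero_of_ball {y lam : Fin p → ℚ} {ε : ℚ} (hε : 0 < ε)
    (h : ∀ μ : Fin p → ℚ, (∀ i, |μ i - lam i| ≤ ε) → 0 ≤ ∑ i, y i * μ i)
    (h0 : ∑ i, y i * lam i ≤ 0) : ∀ i, y i = 0 := by
  classical
  intro i
  have key : ∀ t : ℚ, |t| ≤ ε → 0 ≤ t * y i := by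
    intro t ht
    have h1 := h (fun j => lam j + if j = i then t else 0) fun j => by
      beta_reduce
      split_ifs
      · simpa using ht
      · simpa using hε.le
    have h2 : ∑ j, y j * (lam j + if j = i then t else 0) = ∑ j, y j * lam j + t * y i := by
      simp only [mul_add, Finset.sum_add_distrib, mul_ite, mul_zero]
      congr 1
      rw [Finset.sum_ite_eq' Finset.univ i]
      simp [mul_comm]
    rw [h2] at h1
    linarith
  have h1 := key ε (by rw [abs_of_pos hε])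
  have h2 := key (-ε) (by rw [abs_neg, abs_of_pos hε])
  nlinarith

variable (hgen : (∀ b, f b ≠ 0 ∧ ZSec N δ (g b) (f b)) ∧
      ∀ (μ : Fin p → ℤ) (η : K), η ≠ 0 → ZSec N δ μ η → ∀ P : Place ℂ K, Mnl g f P μ η)

include hgen

theorem cog_of_eff {P0 : Place ℂ K} {μ : Fin p → ℚ} (h : EffA N δ μ) : CoG g Finset.univ μ := by
  classical
  obtain ⟨k, hk, ν, hν, s, hs0, hs⟩ := h
  obtain ⟨e, he1, -⟩ := hgen.2 ν s hs0 hs P0
  have hk0' : (0 : ℚ) < k := by exact_mod_cast hk
  refine ⟨fun b => (e b : ℚ) / k, fun b => by positivity, fun b hb =>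
    absurd (Finset.mem_univ b) hb, fun i => ?_⟩
  have h1 : (k : ℚ) * μ i = ∑ b, (e b : ℚ) * g b i := by
    rw [hν i, ← he1 i]
    push_cast
    rfl
  have h2 : ∑ b, (e b : ℚ) / k * g b i = (∑ b, (e b : ℚ) * g b i) / k := by
    rw [Finset.sum_div]
    exact Finset.sum_congr rfl fun b _ => by ring
  rw [h2, ← h1]
  field_simp

/-- the real points near an ample combination are in the cones of the generators without zeros -/
theorem tig_ball {lam0 : Fin p → ℚ} {ε0 : ℚ} (hsm : Small N δ δ lam0)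
    (hamp : ∀ μ : Fin p → ℚ, (∀ i, |μ i - lam0 i| ≤ ε0) → SemiA N δ μ)
    (hε0 : 0 < ε0) {P : Place ℂ K} (hP : Divisorial N P) {x : Fin p → ℝ}
    (hx : ∀ i, |x i - lam0 i| ≤ (ε0 : ℝ) / 2) : RC (gB g (tig g f δ P)) x := by
  classical
  refine rc_closed _ _ fun ε hε => ?_
  obtain ⟨r, hr⟩ : ∃ r : ℝ, r = min ε (ε0 / 2) := ⟨_, rfl⟩
  have hε0' : (0 : ℝ) < ε0 := by exact_mod_cast hε0
  have hr0 : 0 < r := by rw [hr]; exact lt_min hε (by linarith)
  have hq : ∀ i, ∃ q : ℚ, x i < q ∧ (q : ℝ) < x i + r := fun i => exists_rat_btwn (by linarith)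
  choose q hq1 hq2 using hq
  have h1 : ∀ i, |(q i : ℝ) - x i| ≤ r := fun i => by
    rw [abs_le]
    constructor <;> linarith [hq1 i, hq2 i]
  have h2 : SemiA N δ q := hamp q fun i => by
    have h3 : |(q i : ℝ) - lam0 i| ≤ ε0 := by
      calc |(q i : ℝ) - lam0 i| = |((q i : ℝ) - x i) + (x i - lam0 i)| := by ring_nf
        _ ≤ |(q i : ℝ) - x i| + |x i - lam0 i| := abs_add_le _ _
        _ ≤ r + ε0 / 2 := add_le_add (h1 i) (hx i)
        _ ≤ ε0 / 2 + ε0 / 2 := by
          have : r ≤ ε0 / 2 := by rw [hr]; exact min_le_right _ _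
          linarith
        _ = ε0 := by ring
    exact_mod_cast h3
  refine ⟨fun i => (q i : ℝ), fun i => (h1 i).trans (by rw [hr]; exact min_le_left _ _), ?_⟩
  exact (cog_iff _ _ _).1 (mem_tig hgen hsm hP h2)

/-- **The models.** -/
theorem models_gen (hX : ∃ lam0, Small N δ δ lam0) (hex : ∃ P : Place ℂ K, Divisorial N P) :
    ∃ (k M : ℕ) (δs : Fin M → Fin p → Place ℂ K → ℚ) (B : Fin M → ℕ)
      (h : ∀ j, Fin (B j) → Fin p → ℤ), 1 ≤ k ∧ (∀ j, ∃ lam, Mdl N δ (δs j) lam) ∧
      (∀ j (ν : Fin p → ℤ), RC (h j) (fun i => (ν i : ℝ)) → Bpf N (δs j) (k • ν) ∧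
        ∀ η, ZSec N δ ν η ↔ ZSec N (δs j) ν η) ∧
      ∀ w : Fin p → ℝ, PsefR N δ w → ∃ j, RC (h j) w ∧ ∀ P : Place ℂ K, Divisorial N P →
        (∀ i, δs j i P = δ i P) ∨
          ∑ i, w i * (δs j i P : ℝ) < ∑ i, w i * (δ i P : ℝ) := by
  classical
  obtain ⟨P0, hP0⟩ := hex
  let X := {τ : Finset (Finset (Fin N0)) // ∃ lam : Fin p → ℚ, CoG g Finset.univ lam ∧
    Generic g lam ∧ sig g lam = τ}
  have hXf : Fintype X := Fintype.ofFinite X
  let e : X ≃ Fin (Fintype.card X) := Fintype.equivFin X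
  choose lamc hlu hG hsig using fun x : X => x.2
  choose y hy using fun x : X => exists_dual hgen (hlu x)
  have hrc := fun x : X => rc_inter (ι := {B // CoG g B (lamc x)}) (fun B => gB g B.1)
    (fun s : Fin 0 => s.elim0)
  choose Bn h hh using hrc
  have hh' : ∀ (x : X) (w : Fin p → ℝ), RC (h x) w ↔
      ∀ B : Finset (Fin N0), CoG g B (lamc x) → RC (gB g B) w := by
    intro x w
    rw [hh]
    exact ⟨fun H B hB => H.1 ⟨B, hB⟩, fun H => ⟨fun B => H B.1 B.2, fun s => s.elim0⟩⟩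
  have hhq : ∀ (x : X) (μ : Fin p → ℚ), RC (h x) (fun i => (μ i : ℝ)) ↔
      ∀ B : Finset (Fin N0), CoG g B (lamc x) → CoG g B μ := by
    intro x μ
    rw [hh']
    exact forall₂_congr fun B _ => (cog_iff g B μ).symm
  -- the uniform multiple
  choose G hG1 hG2 using fun x : X => gordan_rc (h x)
  have hk : ∀ (x : X) (v : Fin p → ℤ), ∃ k : ℕ, 1 ≤ k ∧
      (v ∈ G x → Bpf N (fun i P => δ i P - y x P i) (k • v)) := by
    intro x v
    by_cases hv : v ∈ G x
    · have h0 : RC (h x) fun i => ((v i : ℤ) : ℝ) := hG1 x v hv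
      have h1 : RC (h x) fun i => (((v i : ℤ) : ℚ) : ℝ) := by
        convert h0 using 2
        push_cast
        rfl
      obtain ⟨k, hk, ν, hν, hb⟩ := semi_of_dual hgen (hy x) ((hhq x _).1 h1)
      refine ⟨k, hk, fun _ => ?_⟩
      have h2 : ν = k • v := by
        funext i
        rw [Pi.smul_apply, nsmul_eq_mul]
        have := hν i
        beta_reduce at this
        exact_mod_cast this.symm
      rwa [← h2]
    · exact ⟨1, le_rfl, fun h => absurd h hv⟩
  choose k hk1 hk2 using hk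
  obtain ⟨k0, hk0⟩ : ∃ k0 : ℕ, k0 = ∏ x : X, ∏ v ∈ G x, k x v := ⟨_, rfl⟩
  have hk01 : 1 ≤ k0 := by
    rw [hk0]
    exact Nat.succ_le_of_lt (Finset.prod_pos fun x _ => Finset.prod_pos fun v _ =>
      Nat.lt_of_lt_of_le Nat.zero_lt_one (hk1 x v))
  have hbpf : ∀ (x : X) (v : Fin p → ℤ), v ∈ AddSubmonoid.closure (G x : Set (Fin p → ℤ)) →
      Bpf N (fun i P => δ i P - y x P i) (k0 • v) := by
    intro x v hv
    induction hv using AddSubmonoid.closure_induction with
    | mem v hv =>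
      have hd : k x v ∣ k0 := by
        rw [hk0]
        exact (Finset.dvd_prod_of_mem (fun v => k x v) hv).trans
          (Finset.dvd_prod_of_mem (fun x => ∏ v ∈ G x, k x v) (Finset.mem_univ x))
      obtain ⟨c, hc⟩ := hd
      have h1 := bpf_nsmul (hk2 x v hv) c
      rw [hc]
      rwa [← mul_smul, mul_comm] at h1
    | zero => rw [smul_zero]; exact bpf_zero
    | add a b _ _ ha hb => rw [smul_add]; exact bpf_add ha hb
  refine ⟨k0, Fintype.card X, fun j i P => δ i P - y (e.symm j) P i, fun j => Bn (e.symm j),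
    fun j => h (e.symm j), hk01, fun j => ⟨_, mdl_of_dual hgen (hG _) (hy _)⟩, fun j ν hν => ?_,
    fun w hw => ?_⟩
  · refine ⟨hbpf _ _ (hG2 _ _ hν), fun η => ⟨sub_of_dual hgen (hy _) ν η,
      sec_of_dual hgen (hy _) ((hh' _ _).1 hν)⟩⟩
  -- pseudo-effective combinations
  obtain ⟨lam0, hsm⟩ := hX
  obtain ⟨ε0, hε0, hamp⟩ := hsm.2
  have hε0' : (0 : ℝ) < ε0 := by exact_mod_cast hε0
  have hwg : RC g w := by
    refine rc_closed _ _ fun ε hε => ?_
    obtain ⟨μ, h1, h2⟩ := hw ε hε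
    refine ⟨fun i => (μ i : ℝ), h1, ?_⟩
    have h3 := (cog_iff g _ _).1 (cog_of_eff hgen (P0 := P0) h2)
    rwa [gB_univ] at h3
  -- the generic points near `w + t lam0`
  have hpt : ∀ n : ℕ, ∃ x' : Fin p → ℚ, Generic g x' ∧
      ∀ i, |(x' i : ℝ) - (w i + lam0 i / (n + 1))| ≤ ε0 / 2 / (n + 1) := by
    intro n
    have hn : (0 : ℝ) < (n : ℝ) + 1 := by positivity
    have hr0 : (0 : ℝ) < ε0 / 4 / (n + 1) := by positivity
    have hq : ∀ i, ∃ q : ℚ, (w i + lam0 i / (n + 1)) < q ∧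
        (q : ℝ) < (w i + lam0 i / (n + 1)) + ε0 / 4 / (n + 1) := fun i =>
      exists_rat_btwn (by linarith)
    choose q hq1 hq2 using hq
    obtain ⟨x', hx1, hx2⟩ := exists_generic g q (ε := ε0 / 4 / (n + 1)) (by positivity)
    refine ⟨x', hx2, fun i => ?_⟩
    have h1 : |(x' i : ℝ) - q i| ≤ ε0 / 4 / (n + 1) := by
      have := hx1 i
      have h2 : (((|x' i - q i| : ℚ)) : ℝ) ≤ ((ε0 / 4 / (n + 1) : ℚ) : ℝ) := by exact_mod_cast this
      push_cast at h2
      exact h2
    have h3 : |(q i : ℝ) - (w i + lam0 i / (n + 1))| ≤ ε0 / 4 / (n + 1) := by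
      rw [abs_le]
      constructor <;> linarith [hq1 i, hq2 i]
    calc |(x' i : ℝ) - (w i + lam0 i / (n + 1))|
        = |((x' i : ℝ) - q i) + ((q i : ℝ) - (w i + lam0 i / (n + 1)))| := by ring_nf
      _ ≤ |(x' i : ℝ) - q i| + |(q i : ℝ) - (w i + lam0 i / (n + 1))| := abs_add_le _ _
      _ ≤ ε0 / 4 / (n + 1) + ε0 / 4 / (n + 1) := add_le_add h1 h3
      _ = ε0 / 2 / (n + 1) := by ring
  choose x' hxG hx' using hpt
  -- the ample part
  obtain ⟨a, ha⟩ : ∃ a : ℕ → Fin p → ℝ, a = fun (n : ℕ) i => ((n : ℝ) + 1) * ((x' n i : ℝ) - w i) :=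
    ⟨_, rfl⟩
  have ha1 : ∀ n i, (x' n i : ℝ) = w i + (1 / ((n : ℝ) + 1)) * a n i := by
    intro n i
    have hn : (0 : ℝ) < (n : ℝ) + 1 := by positivity
    rw [ha]
    field_simp
    ring
  have ha2 : ∀ n i, |a n i - lam0 i| ≤ (ε0 : ℝ) / 2 := by
    intro n i
    have hn : (0 : ℝ) < (n : ℝ) + 1 := by positivity
    have h1 := hx' n i
    have h2 : a n i - lam0 i = ((n : ℝ) + 1) * ((x' n i : ℝ) - (w i + lam0 i / (n + 1))) := by
      rw [ha]
      field_simp
      ring
    rw [h2, abs_mul, abs_of_pos hn]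
    calc ((n : ℝ) + 1) * |(x' n i : ℝ) - (w i + lam0 i / (n + 1))|
        ≤ ((n : ℝ) + 1) * (ε0 / 2 / (n + 1)) := mul_le_mul_of_nonneg_left h1 hn.le
      _ = ε0 / 2 := by field_simp
  have htig : ∀ (P : Place ℂ K), Divisorial N P → ∀ n, RC (gB g (tig g f δ P)) (a n) :=
    fun P hP n => tig_ball hgen hsm hamp hε0 hP (ha2 n)
  have hxu : ∀ n, CoG g Finset.univ (x' n) := by
    intro n
    rw [cog_iff, gB_univ]
    have h1 : RC g (a n) := by
      refine rc_sum (h := gB g (tig g f δ P0)) (fun b => ?_) (htig P0 hP0 n)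
      by_cases hb : b ∈ tig g f δ P0
      · have := rc_gen g b
        convert this using 2
        simp [gB, hb]
      · have := rc_zero (h := g)
        convert this using 2
        simp [gB, hb]
    have h2 := rc_add hwg (rc_smul h1 (c := 1 / ((n : ℝ) + 1)) (by positivity))
    convert h2 using 2
    rename_i i
    exact ha1 n i
  obtain ⟨jj, hjj⟩ : ∃ jj : ℕ → X, jj = fun n => ⟨sig g (x' n), x' n, hxu n, hxG n, rfl⟩ :=
    ⟨_, rfl⟩
  have hjsig : ∀ n B, CoG g B (lamc (jj n)) ↔ CoG g B (x' n) := by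
    intro n B
    rw [← mem_sig, ← mem_sig, hsig (jj n), hjj]
  obtain ⟨x0, hx0⟩ := Finite.exists_infinite_fiber jj
  have hinf : (jj ⁻¹' {x0}).Infinite := Set.infinite_coe_iff.1 hx0
  have hwx : RC (h x0) w := by
    refine rc_closed _ _ fun ε hε => ?_
    obtain ⟨L, hL⟩ : ∃ L : ℝ, L = ∑ i, |(lam0 i : ℝ)| + ε0 := ⟨_, rfl⟩
    have hL0 : 0 < L := by
      rw [hL]
      have : 0 ≤ ∑ i, |(lam0 i : ℝ)| := Finset.sum_nonneg fun _ _ => abs_nonneg _
      linarith
    obtain ⟨m, hm⟩ := exists_nat_gt (L / ε)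
    obtain ⟨n, hn1, hn2⟩ := hinf.exists_gt m
    have hn1' : jj n = x0 := hn1
    refine ⟨fun i => (x' n i : ℝ), fun i => ?_, ?_⟩
    · have hn : (0 : ℝ) < (n : ℝ) + 1 := by positivity
      beta_reduce
      rw [ha1 n i]
      have h3 : |a n i| ≤ L := by
        have h4 := ha2 n i
        have h5 : |a n i| ≤ |a n i - lam0 i| + |(lam0 i : ℝ)| := by
          have := abs_add_le (a n i - lam0 i) (lam0 i : ℝ)
          rwa [sub_add_cancel] at this
        have h6 : |(lam0 i : ℝ)| ≤ ∑ i, |(lam0 i : ℝ)| :=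
          Finset.single_le_sum (f := fun i => |(lam0 i : ℝ)|) (fun _ _ => abs_nonneg _)
            (Finset.mem_univ i)
        rw [hL]
        linarith
      have h4 : w i + 1 / ((n : ℝ) + 1) * a n i - w i = 1 / ((n : ℝ) + 1) * a n i := by ring
      rw [h4, abs_mul, abs_of_pos (by positivity : (0 : ℝ) < 1 / ((n : ℝ) + 1))]
      rw [div_lt_iff₀ hε] at hm
      have h5 : (m : ℝ) ≤ n := by exact_mod_cast hn2.le
      calc 1 / ((n : ℝ) + 1) * |a n i| ≤ 1 / ((n : ℝ) + 1) * L :=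
            mul_le_mul_of_nonneg_left h3 (by positivity)
        _ ≤ ε := by
          rw [one_div, inv_mul_le_iff₀ hn]
          nlinarith
    · have h2 : ∀ B : Finset (Fin N0), CoG g B (lamc x0) → CoG g B (x' n) := by
        intro B hB
        rw [← hn1', hjsig] at hB
        exact hB
      exact (hhq x0 (x' n)).2 h2
  refine ⟨e x0, ?_, fun P hP => ?_⟩
  · show RC (h (e.symm (e x0))) w
    rw [Equiv.symm_apply_apply]
    exact hwx
  · obtain ⟨n, hn1, -⟩ := hinf.exists_gt 0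
    have hn1' : jj n = x0 := hn1
    by_cases hlt : ∑ i, w i * ((δ i P - y x0 P i : ℚ) : ℝ) < ∑ i, w i * (δ i P : ℝ)
    · right
      beta_reduce
      rw [Equiv.symm_apply_apply]
      exact hlt
    left
    have h1 : ∑ i, (y x0 P i : ℝ) * w i ≤ 0 := by
      have h2 : ∑ i, w i * ((δ i P - y x0 P i : ℚ) : ℝ) = ∑ i, w i * (δ i P : ℝ) -
          ∑ i, (y x0 P i : ℝ) * w i := by
        rw [← Finset.sum_sub_distrib]
        refine Finset.sum_congr rfl fun i _ => ?_
        push_cast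
        ring
      rw [h2] at hlt
      linarith
    have h2 := pair_zero hgen (hy x0) hP ((hh' x0 w).1 hwx) h1
    have h3 : RC (gB g (tig g f δ P)) fun i => (x' n i : ℝ) := by
      have h4 := rc_add h2 (rc_smul (htig P hP n) (c := 1 / ((n : ℝ) + 1)) (by positivity))
      convert h4 using 2
      rename_i i
      exact ha1 n i
    have h4 : ∑ i, y x0 P i * x' n i ≤ 0 := by
      obtain ⟨t, ht, ht2⟩ := h3
      have h5 : ∑ i, (y x0 P i : ℝ) * x' n i = ∑ b, t b * ∑ i, (y x0 P i : ℝ) *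
          (gB g (tig g f δ P) b i : ℤ) := by
        simp only [Finset.mul_sum]
        rw [Finset.sum_comm]
        refine Finset.sum_congr rfl fun i _ => ?_
        have := ht2 i
        beta_reduce at this
        rw [this, Finset.mul_sum]
        exact Finset.sum_congr rfl fun b _ => by ring
      have h6 : ∑ i, (y x0 P i : ℝ) * x' n i ≤ 0 := by
        rw [h5]
        refine Finset.sum_nonpos fun b _ => ?_
        refine mul_nonpos_of_nonneg_of_nonpos (ht b) ?_
        by_cases hb : b ∈ tig g f δ P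
        · have h7 := ((hy x0) P hP).1 b
          have h8 : cP g f δ P b = 0 := by
            rw [mem_tig_iff] at hb
            unfold cP
            rw [hb]
            ring
          rw [h8] at h7
          have h9 : ∑ i, (y x0 P i : ℝ) * (gB g (tig g f δ P) b i : ℤ) =
              ((∑ i, y x0 P i * g b i : ℚ) : ℝ) := by
            push_cast
            refine Finset.sum_congr rfl fun i _ => ?_
            simp [gB, hb]
          rw [h9]
          exact_mod_cast h7
        · simp [gB, hb]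
      exact_mod_cast h6
    obtain ⟨ε, hε, hGε⟩ := hxG n
    have h5 := zero_of_ball (y := y x0 P) hε (fun μ hμ => by
      have h6 := pair_nonneg hgen (hy x0) hP (x := fun i => (μ i : ℝ)) fun B hB => by
        rw [← hn1', hjsig] at hB
        exact (cog_iff g B μ).1 (hGε B hB μ hμ)
      exact_mod_cast h6) h4
    intro i
    beta_reduce
    rw [Equiv.symm_apply_apply]
    rw [h5 i, sub_zero]

end

end Pool.Agent.U189.MG
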