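import Pool.Agent.U189.MG.PsfG

/-!
# Classes which are free along a set of prime divisors

For a set `PP` of prime divisors over `X`: the classes `w` such that, for some divisor `A` and all
`M ≥ 1`, the class `w + A / M` has, up to `1 / M`, for every `P` in `PP` a section which does not vanish
at `P`, form a rational polyhedral cone, if the Cox ring of the family with one class added is finitely
generated.
-/

set_option autoImplicit false
set_option linter.all false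
set_option maxHeartbeats 1000000

open FF MvPolynomial Pool.Agent.W602.GT Pool.Agent.W603.LV

namespace Pool.Agent.U189.MG.G

open Pool.Agent.Results.MP_89a3f8_ag.TerminationOfFlips (IsSection)
open Pool.Agent.U660.MD Pool.Agent.Q57.FT Pool.Agent.Q57.HK Pool.Agent.U189.MG

section defs

variable {K : Type} [Field K] [Algebra ℂ K] {p : ℕ} (N : ℕ) (δ : Fin p → Place ℂ K → ℚ)

/-- `f` is a nonzero section of `∑ i, μ i * D i + j * A`, where the divisor `A` is generated by the finite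
set `S` of functions (its coefficient at `P` is the maximum of the numbers `- P.ord s`, `s ∈ S`,
`s ≠ 0`). -/
def IsSectionPlus (S : Finset K) (μ : Fin p → ℤ) (j : ℕ) (f : K) : Prop :=
  f ≠ 0 ∧ ∀ P : Place ℂ K, Divisorial N P →
    ∃ s ∈ S, s ≠ 0 ∧ (j : ℚ) * P.ord s - ∑ i, (μ i : ℚ) * δ i P ≤ P.ord f

/-- The integral combination `∑ i, ν i * D i` has a nonzero section, and for every prime divisor `P`
over `X` in the set `PP` it has a section which does not vanish at `P` (its order at `P` is the minimal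
one). -/
def IsFreeAlong (PP : Set (Place ℂ K)) (ν : Fin p → ℤ) : Prop :=
  (∃ f : K, f ≠ 0 ∧ IsSection N δ ν f) ∧ ∀ P ∈ PP, Divisorial N P →
    ∃ f : K, f ≠ 0 ∧ IsSection N δ ν f ∧ (P.ord f : ℚ) ≤ - ∑ i, (ν i : ℚ) * δ i P

/-- The real combination `∑ i, w i * D i` is a limit of classes which are free along the set `PP` of
prime divisors over `X`: there is a divisor `A`, generated by a finite set `S` of functions, such that
for every `M ≥ 1` there is `j ≥ 1` such that some integral combination `μ` with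
`|μ i - j M w i| ≤ j` has a nonzero section of `∑ i, μ i * D i + j A`, and for every `P` in `PP` some such
combination has a section of `∑ i, μ i * D i + j A` which does not vanish at `P`. -/
def IsFreeAlongUpTo (PP : Set (Place ℂ K)) (w : Fin p → ℝ) : Prop :=
  ∃ S : Finset K, ∀ M : ℕ, 1 ≤ M → ∃ j : ℕ, 1 ≤ j ∧
    (∃ μ : Fin p → ℤ, (∀ i, |(μ i : ℝ) - j * M * w i| ≤ j) ∧ ∃ f, IsSectionPlus N δ S μ j f) ∧
    ∀ P ∈ PP, Divisorial N P → ∃ μ : Fin p → ℤ, (∀ i, |(μ i : ℝ) - j * M * w i| ≤ j) ∧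
      ∃ f, IsSectionPlus N δ S μ j f ∧
        ∀ s ∈ S, s ≠ 0 → (P.ord f : ℚ) ≤ j * P.ord s - ∑ i, (μ i : ℚ) * δ i P

end defs

variable {p N : ℕ} {K : Type} [Field K] [Algebra ℂ K] {ω : Place ℂ K → ℤ}
  {δ : Fin p → Place ℂ K → ℚ}

/-- sections of the combinations given by products -/
theorem free_pow {B : ℕ} {h : Fin B → Fin p → ℤ} {P : Place ℂ K} (hP : Divisorial N P)
    (hs : ∀ b, ∃ f : K, f ≠ 0 ∧ IsSection N δ (h b) f ∧
      (P.ord f : ℚ) ≤ - ∑ i, (h b i : ℚ) * δ i P) (n : Fin B → ℕ) :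
    ∃ f : K, f ≠ 0 ∧ IsSection N δ (∑ b, n b • h b) f ∧
      (P.ord f : ℚ) ≤ - ∑ i, ((∑ b, n b • h b) i : ℚ) * δ i P := by
  classical
  choose f hf0 hf1 hf2 using hs
  refine ⟨∏ b, f b ^ n b, Finset.prod_ne_zero_iff.2 fun b _ => pow_ne_zero _ (hf0 b),
    zsec_prod (fun b => hf1 b) _, ?_⟩
  have h1 : P.ord (∏ b, f b ^ n b) = ∑ b, (n b : ℤ) * P.ord (f b) := by
    rw [Pool.Agent.W602.GT.ord_prod' P Finset.univ _ fun b _ => pow_ne_zero _ (hf0 b)]
    exact Finset.sum_congr rfl fun b _ => P.ord_pow _ _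
  rw [h1]
  have h2 : ∑ i, (((∑ b, n b • h b) i : ℤ) : ℚ) * δ i P =
      ∑ b, (n b : ℚ) * ∑ i, (h b i : ℚ) * δ i P := by
    simp only [Finset.mul_sum]
    rw [Finset.sum_comm]
    refine Finset.sum_congr rfl fun i _ => ?_
    rw [Finset.sum_apply]
    push_cast
    rw [Finset.sum_mul]
    refine Finset.sum_congr rfl fun b _ => ?_
    rw [Pi.smul_apply, nsmul_eq_mul]
    push_cast
    ring
  rw [h2, ← Finset.sum_neg_distrib]
  push_cast
  refine Finset.sum_le_sum fun b _ => ?_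
  have := mul_le_mul_of_nonneg_left (hf2 b) (by positivity : (0 : ℚ) ≤ n b)
  linarith

/-- the approximations of a class of the cone -/
theorem approx {B : ℕ} {h : Fin B → Fin p → ℤ} {w : Fin p → ℝ} {t : Fin B → ℝ}
    (ht : ∀ b, 0 ≤ t b) (hw : ∀ i, w i = ∑ b, t b * h b i) {C : ℕ}
    (hC : C = (∑ b, ∑ i, (h b i).natAbs) + 1) (M : ℕ) (i : Fin p) :
    |(((∑ b, (⌊(C : ℝ) * M * t b⌋.toNat) • h b) i : ℤ) : ℝ) - C * M * w i| ≤ C := by
  classical
  have h1 : ∀ b, (((⌊(C : ℝ) * M * t b⌋.toNat : ℕ) : ℤ) : ℝ) = ⌊(C : ℝ) * M * t b⌋ := by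
    intro b
    have : (0 : ℤ) ≤ ⌊(C : ℝ) * M * t b⌋ := Int.floor_nonneg.2 (by
      have := ht b
      positivity)
    rw [Int.toNat_of_nonneg this]
  rw [Finset.sum_apply]
  push_cast
  have h2 : ∑ b, (((⌊(C : ℝ) * M * t b⌋.toNat • h b) i : ℤ) : ℝ) - C * M * w i =
      ∑ b, ((⌊(C : ℝ) * M * t b⌋ : ℝ) - C * M * t b) * h b i := by
    rw [hw i, Finset.mul_sum, ← Finset.sum_sub_distrib]
    refine Finset.sum_congr rfl fun b _ => ?_
    rw [Pi.smul_apply, nsmul_eq_mul]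
    push_cast
    have := h1 b
    push_cast at this
    rw [this]
    ring
  rw [h2]
  calc |∑ b, ((⌊(C : ℝ) * M * t b⌋ : ℝ) - C * M * t b) * h b i|
      ≤ ∑ b, |((⌊(C : ℝ) * M * t b⌋ : ℝ) - C * M * t b) * h b i| :=
        Finset.abs_sum_le_sum_abs _ _
    _ ≤ ∑ b, ((h b i).natAbs : ℝ) := by
        refine Finset.sum_le_sum fun b _ => ?_
        rw [abs_mul]
        have h3 : |(⌊(C : ℝ) * M * t b⌋ : ℝ) - C * M * t b| ≤ 1 := by
          rw [abs_le]
          constructor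
          · linarith [Int.sub_one_lt_floor ((C : ℝ) * M * t b)]
          · linarith [Int.floor_le ((C : ℝ) * M * t b)]
        have h4 : |((h b i : ℤ) : ℝ)| = ((h b i).natAbs : ℝ) := by
          rw [Nat.cast_natAbs]
          push_cast
          rfl
        rw [h4]
        calc |(⌊(C : ℝ) * M * t b⌋ : ℝ) - C * M * t b| * ((h b i).natAbs : ℝ)
            ≤ 1 * ((h b i).natAbs : ℝ) := mul_le_mul_of_nonneg_right h3 (by positivity)
          _ = _ := one_mul _
    _ ≤ C := by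
        have h5 : ∑ b, (h b i).natAbs ≤ ∑ b, ∑ i, (h b i).natAbs :=
          Finset.sum_le_sum fun b _ => Finset.single_le_sum (f := fun i => (h b i).natAbs)
            (fun _ _ => Nat.zero_le _) (Finset.mem_univ i)
        have h6 : ∑ b, (h b i).natAbs ≤ C := by omega
        exact_mod_cast h6

theorem upto_of_cone {PP : Set (Place ℂ K)} {B : ℕ} {h : Fin B → Fin p → ℤ}
    (hs : ∀ b, IsFreeAlong N δ PP (h b)) {w : Fin p → ℝ} (hw : w ∈ coneOf h) :
    IsFreeAlongUpTo N δ PP w := by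
  classical
  obtain ⟨t, ht, hw2⟩ := hw
  obtain ⟨C, hC⟩ : ∃ C : ℕ, C = (∑ b, ∑ i, (h b i).natAbs) + 1 := ⟨_, rfl⟩
  refine ⟨{1}, fun M hM => ⟨C, by omega, ?_, fun P hPP hP => ?_⟩⟩
  · have h1 := fun b => (hs b).1
    choose s hs0 hs1 using h1
    refine ⟨_, approx ht hw2 hC M, ∏ b, s b ^ (⌊(C : ℝ) * M * t b⌋.toNat),
      Finset.prod_ne_zero_iff.2 fun b _ => pow_ne_zero _ (hs0 b), fun P hP =>
        ⟨1, Finset.mem_singleton_self 1, one_ne_zero, ?_⟩⟩
    rw [P.ord_one]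
    have h1 : ZSec N δ (∑ b, (⌊(C : ℝ) * M * t b⌋.toNat) • h b)
        (∏ b, s b ^ (⌊(C : ℝ) * M * t b⌋.toNat)) := zsec_prod (fun b => hs1 b) _
    have h2 := (h1 P hP).resolve_left (Finset.prod_ne_zero_iff.2 fun b _ =>
      pow_ne_zero _ (hs0 b))
    push_cast
    push_cast at h2
    linarith
  · obtain ⟨f, hf0, hf1, hf2⟩ := free_pow hP (fun b => (hs b).2 P hPP hP)
      fun b => ⌊(C : ℝ) * M * t b⌋.toNat
    refine ⟨_, approx ht hw2 hC M, f, ⟨hf0, fun Q hQ => ⟨1, Finset.mem_singleton_self 1,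
      one_ne_zero, ?_⟩⟩, fun s hs' hs0 => ?_⟩
    · rw [Q.ord_one]
      have := (hf1 Q hQ).resolve_left hf0
      push_cast
      push_cast at this
      linarith
    · rw [Finset.mem_singleton.1 hs', P.ord_one]
      push_cast
      push_cast at hf2
      linarith

section

variable {N0 : ℕ} {g : Fin N0 → Fin (p + 1) → ℤ} {f : Fin N0 → K}

/-- the order of the generator, as a section -/
noncomputable def cE (g : Fin N0 → Fin (p + 1) → ℤ) (f : Fin N0 → K) (ω : Place ℂ K → ℤ)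
    (δ : Fin p → Place ℂ K → ℚ) (P : Place ℂ K) (b : Fin N0) : ℚ :=
  (P.ord (f b) : ℚ) + ∑ i, (g b i : ℚ) * ext ω δ i P

open Classical in
/-- the generators which do not vanish at `P` -/
noncomputable def tg (g : Fin N0 → Fin (p + 1) → ℤ) (f : Fin N0 → K) (ω : Place ℂ K → ℤ)
    (δ : Fin p → Place ℂ K → ℚ) (P : Place ℂ K) : Finset (Fin N0) :=
  Finset.univ.filter fun b => cE g f ω δ P b = 0

theorem sum_ext_int (ω : Place ℂ K → ℤ) (δ : Fin p → Place ℂ K → ℚ) (a : ℤ) (μ : Fin p → ℤ)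
    (P : Place ℂ K) :
    ∑ i, (((Fin.cons (α := fun _ => ℤ) a μ : Fin (p + 1) → ℤ) i : ℤ) : ℚ) * ext ω δ i P =
      - (a : ℚ) * ω P + ∑ i, (μ i : ℚ) * δ i P := by
  rw [← ext_sum ω δ (a : ℚ) (fun i => (μ i : ℚ)) P]
  refine Finset.sum_congr rfl fun i _ => ?_
  congr 1
  induction i using Fin.cases with
  | zero => rfl
  | succ i => rfl

theorem sum_cE {z : Fin N0 → ℕ} {v : Fin (p + 1) → ℤ} (hz : ∀ i, ∑ b, (z b : ℤ) * g b i = v i)
    (P : Place ℂ K) : ∑ b, (z b : ℚ) * cE g f ω δ P b =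
      ((∑ b, (z b : ℤ) * P.ord (f b) : ℤ) : ℚ) + ∑ i, (v i : ℚ) * ext ω δ i P := by
  unfold cE
  have h1 : ∑ i, (v i : ℚ) * ext ω δ i P = ∑ b, (z b : ℚ) * ∑ i, (g b i : ℚ) * ext ω δ i P := by
    simp only [Finset.mul_sum]
    rw [Finset.sum_comm]
    refine Finset.sum_congr rfl fun i _ => ?_
    rw [← hz i]
    push_cast
    rw [Finset.sum_mul]
    exact Finset.sum_congr rfl fun b _ => by ring
  rw [h1]
  push_cast
  rw [← Finset.sum_add_distrib]
  exact Finset.sum_congr rfl fun b _ => by ring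

theorem exists_mult {B : Finset (Fin N0)} {v : Fin (p + 1) → ℚ} (h : CoG g B v) :
    ∃ k : ℕ, 1 ≤ k ∧ ∃ z : Fin N0 → ℕ, (∀ b, b ∉ B → z b = 0) ∧
      ∀ i, ∑ b, (z b : ℚ) * g b i = k * v i := by
  obtain ⟨e, he0, he1, he2⟩ := h
  obtain ⟨k, hk, hz⟩ := common_den e
  choose z hz using hz
  have hk0 : (0 : ℚ) < k := by exact_mod_cast hk
  have hz0 : ∀ c, 0 ≤ z c := by
    intro c
    have h3 : (0 : ℚ) ≤ k * e c := mul_nonneg hk0.le (he0 c)
    rw [hz c] at h3
    exact_mod_cast h3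
  have hzn : ∀ c, (((z c).toNat : ℕ) : ℚ) = k * e c := by
    intro c
    have h6 : (((z c).toNat : ℤ) : ℚ) = z c := by rw [Int.toNat_of_nonneg (hz0 c)]
    rw [hz c, ← h6]
    norm_cast
  refine ⟨k, hk, fun c => (z c).toNat, fun b hb => ?_, fun i => ?_⟩
  · have h1 := hzn b
    rw [he1 b hb, mul_zero] at h1
    exact_mod_cast h1
  · rw [← he2 i, Finset.mul_sum]
    refine Finset.sum_congr rfl fun b _ => ?_
    rw [hzn b]
    ring

variable (hgen : (∀ b, f b ≠ 0 ∧ ZSec N (ext ω δ) (g b) (f b)) ∧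
      ∀ (μ : Fin (p + 1) → ℤ) (η : K), η ≠ 0 → ZSec N (ext ω δ) μ η → ∀ P : Place ℂ K,
        Mnl g f P μ η)

include hgen

theorem cE_nonneg {P : Place ℂ K} (hP : Divisorial N P) (b : Fin N0) : 0 ≤ cE g f ω δ P b := by
  have h1 := ((hgen.1 b).2 P hP).resolve_left (hgen.1 b).1
  unfold cE
  linarith

/-- the section given by the exponents -/
theorem sec_of_exp {z : Fin N0 → ℕ} {ν : Fin p → ℤ}
    (hz : ∀ i, ∑ b, (z b : ℤ) * g b i = (Fin.cons (α := fun _ => ℤ) 0 ν : Fin (p + 1) → ℤ) i) :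
    (∏ b, f b ^ z b) ≠ 0 ∧ IsSection N δ ν (∏ b, f b ^ z b) ∧
      ∀ P : Place ℂ K, (∀ b, b ∉ tg g f ω δ P → z b = 0) →
        (P.ord (∏ b, f b ^ z b) : ℚ) ≤ - ∑ i, (ν i : ℚ) * δ i P := by
  classical
  have h0 : (∏ b, f b ^ z b) ≠ 0 := Finset.prod_ne_zero_iff.2 fun b _ =>
    pow_ne_zero _ (hgen.1 b).1
  refine ⟨h0, ?_, fun P hP => ?_⟩
  · have h3 : ZSec N (ext ω δ) (∑ b, z b • g b) (∏ b, f b ^ z b) :=
      zsec_prod (fun b => (hgen.1 b).2) _
    have h4 : ∑ b, z b • g b = Fin.cons (α := fun _ => ℤ) 0 ν := by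
      funext i
      rw [← hz i, Finset.sum_apply]
      refine Finset.sum_congr rfl fun b _ => ?_
      rw [Pi.smul_apply, nsmul_eq_mul]
    rw [h4, zsec_ext] at h3
    intro P hP
    refine (h3 P hP).imp id fun h9 => ?_
    push_cast at h9 ⊢
    linarith
  · have h1 : P.ord (∏ b, f b ^ z b) = ∑ b, (z b : ℤ) * P.ord (f b) := by
      rw [Pool.Agent.W602.GT.ord_prod' P Finset.univ _ fun b _ => pow_ne_zero _ (hgen.1 b).1]
      exact Finset.sum_congr rfl fun b _ => P.ord_pow _ _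
    have h2 := sum_cE (f := f) (ω := ω) (δ := δ) hz P
    have h3 : ∑ b, (z b : ℚ) * cE g f ω δ P b = 0 := by
      refine Finset.sum_eq_zero fun b _ => ?_
      by_cases hb : b ∈ tg g f ω δ P
      · have : cE g f ω δ P b = 0 := (Finset.mem_filter.1 hb).2
        rw [this, mul_zero]
      · rw [hP b hb]
        simp
    rw [h3, sum_ext_int] at h2
    rw [h1]
    push_cast at h2 ⊢
    linarith

/-- the bound for the exponents of the sections with `A` -/
theorem exp_of_sec {S : Finset K} {E : ℕ} {g0 : K} (hg0 : g0 ≠ 0)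
    (hE : ∀ s ∈ S, s ≠ 0 → ∀ P : Place ℂ K, E * ω P - P.ord g0 ≤ P.ord s)
    {μ : Fin p → ℤ} {j : ℕ} {η : K} (hη : IsSectionPlus N δ S μ j η) (P : Place ℂ K) :
    ∃ e : Fin N0 → ℕ, (∀ i, ∑ b, (e b : ℤ) * g b i =
        (Fin.cons (α := fun _ => ℤ) ((j * E : ℕ) : ℤ) μ : Fin (p + 1) → ℤ) i) ∧
      ∀ s : K, (P.ord η : ℚ) ≤ j * P.ord s - ∑ i, (μ i : ℚ) * δ i P →
        ∑ b, (e b : ℚ) * cE g f ω δ P b ≤ j * ((P.ord s : ℚ) + P.ord g0 - E * ω P) := by
  obtain ⟨hη0, hη1⟩ := hη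
  have hsec : ZSec N (ext ω δ) (Fin.cons (α := fun _ => ℤ) ((j * E : ℕ) : ℤ) μ)
      (η * g0 ^ j) := by
    rw [zsec_ext]
    intro Q hQ
    right
    obtain ⟨s, hs, hs0, hle⟩ := hη1 Q hQ
    rw [Q.ord_mul hη0 (pow_ne_zero _ hg0), Q.ord_pow]
    have h2 := hE s hs hs0 Q
    have h3 : (E : ℚ) * ω Q - Q.ord g0 ≤ Q.ord s := by exact_mod_cast h2
    have h4 : (j : ℚ) * ((E : ℚ) * ω Q - Q.ord g0) ≤ j * Q.ord s :=
      mul_le_mul_of_nonneg_left h3 (by positivity)
    push_cast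
    linarith
  obtain ⟨e, he1, he2⟩ := hgen.2 _ _ (mul_ne_zero hη0 (pow_ne_zero _ hg0)) hsec P
  refine ⟨e, he1, fun s hs => ?_⟩
  rw [sum_cE he1 P, sum_ext_int]
  rw [P.ord_mul hη0 (pow_ne_zero _ hg0), P.ord_pow] at he2
  have he3 : ((∑ b, (e b : ℤ) * P.ord (f b) : ℤ) : ℚ) ≤ (P.ord η : ℚ) + j * P.ord g0 := by
    exact_mod_cast he2
  push_cast at he3 ⊢
  linarith

/-- the limit of free classes is in the cone of the generators which do not vanish -/
theorem rc_of_upto {PP : Set (Place ℂ K)} (habs : ∀ S : Finset K, ∃ (E : ℕ) (g : K), g ≠ 0 ∧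
      ∀ s ∈ S, s ≠ 0 → ∀ P : Place ℂ K, E * ω P - P.ord g ≤ P.ord s) (P0 : Place ℂ K)
    {w : Fin p → ℝ} (hw : IsFreeAlongUpTo N δ PP w) :
    RC g (Fin.cons (α := fun _ => ℝ) 0 w) ∧ ∀ P ∈ PP, Divisorial N P →
      RC (gB g (tg g f ω δ P)) (Fin.cons (α := fun _ => ℝ) 0 w) := by
  classical
  obtain ⟨S, hS⟩ := hw
  obtain ⟨E, g0, hg0, hE⟩ := habs S
  have dist : ∀ (M j : ℕ) (μ : Fin p → ℤ), 1 ≤ M → 1 ≤ j →
      (∀ i, |(μ i : ℝ) - j * M * w i| ≤ j) → ∀ i,
      |(((Fin.cons (α := fun _ => ℤ) ((j * E : ℕ) : ℤ) μ : Fin (p + 1) → ℤ) i : ℤ) : ℝ) / (j * M) -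
        (Fin.cons (α := fun _ => ℝ) 0 w : Fin (p + 1) → ℝ) i| ≤ (E + 1) / M := by
    intro M j μ hM hj hμ i
    have hM0 : (0 : ℝ) < M := by exact_mod_cast hM
    have hj0 : (0 : ℝ) < j := by exact_mod_cast hj
    induction i using Fin.cases with
    | zero =>
      simp only [Fin.cons_zero, sub_zero]
      push_cast
      have h2 : (j : ℝ) * E / (j * M) = E / M := by field_simp
      rw [h2, abs_of_nonneg (by positivity)]
      gcongr
      linarith
    | succ i =>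
      simp only [Fin.cons_succ]
      have h2 : (μ i : ℝ) / (j * M) - w i = ((μ i : ℝ) - j * M * w i) / (j * M) := by
        field_simp
      rw [h2, abs_div, abs_of_pos (by positivity : (0 : ℝ) < j * M), div_le_div_iff₀
        (by positivity) hM0]
      have h3 := hμ i
      have hE0 : (0 : ℝ) ≤ E := by positivity
      calc |(μ i : ℝ) - j * M * w i| * M ≤ j * M := mul_le_mul_of_nonneg_right h3 hM0.le
        _ ≤ (E + 1) * (j * M) := by
          have : 0 ≤ (E : ℝ) * (j * M) := by positivity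
          linarith
  refine ⟨rc_closed _ _ fun ε hε => ?_, fun P hPP hP => ?_⟩
  · obtain ⟨M, hM⟩ := exists_nat_gt (((E : ℝ) + 1) / ε)
    have hM0 : (0 : ℝ) < M := lt_of_le_of_lt (by positivity) hM
    have hM1 : 1 ≤ M := by
      have : (0 : ℝ) < M := hM0
      exact Nat.one_le_iff_ne_zero.2 (by
        rintro rfl
        simp at this)
    obtain ⟨j, hj, ⟨μ, hμ, η, hη⟩, -⟩ := hS M hM1
    have hj0 : (0 : ℝ) < j := by exact_mod_cast hj
    obtain ⟨e, he1, -⟩ := exp_of_sec hgen hg0 hE hη P0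
    refine ⟨_, fun i => (dist M j μ hM1 hj hμ i).trans ?_, fun b => (e b : ℝ) / (j * M),
      fun b => by positivity, fun i => ?_⟩
    · rw [div_le_iff₀ hM0]
      rw [div_lt_iff₀ hε] at hM
      linarith
    · have h3 : (((Fin.cons (α := fun _ => ℤ) ((j * E : ℕ) : ℤ) μ : Fin (p + 1) → ℤ) i : ℤ) : ℝ) =
          ∑ b, (e b : ℝ) * g b i := by
        rw [← he1 i]
        push_cast
        rfl
      beta_reduce
      rw [h3, Finset.sum_div]
      exact Finset.sum_congr rfl fun b _ => by ring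
  · -- a nonzero function of `S`
    obtain ⟨s0, hs0S, hs0⟩ : ∃ s0 ∈ S, s0 ≠ 0 := by
      obtain ⟨j, hj, -, h⟩ := hS 1 le_rfl
      obtain ⟨μ, -, η, hη, -⟩ := h P hPP hP
      obtain ⟨s, hs, hs', -⟩ := hη.2 P hP
      exact ⟨s, hs, hs'⟩
    obtain ⟨SA, A, hA⟩ := weyl (gB g (tg g f ω δ P))
    rw [hA]
    intro s
    by_contra hcon
    push Not at hcon
    obtain ⟨ag, hag⟩ : ∃ ag : Fin N0 → ℝ, ag = fun b => ∑ i, (A s i : ℝ) * g b i := ⟨_, rfl⟩
    have hc0 : ∀ b, (0 : ℝ) ≤ cE g f ω δ P b := fun b => by exact_mod_cast cE_nonneg hgen hP b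
    have htg : ∀ b, b ∈ tg g f ω δ P → 0 ≤ ag b := by
      intro b hb
      have h1 := (hA _).1 (rc_gen (gB g (tg g f ω δ P)) b) s
      rw [hag]
      refine le_trans h1 (le_of_eq ?_)
      refine Finset.sum_congr rfl fun i _ => ?_
      simp [gB, hb]
    obtain ⟨C, hC⟩ : ∃ C : ℝ, C = ∑ b, |ag b| / cE g f ω δ P b := ⟨_, rfl⟩
    have hC0 : 0 ≤ C := by
      rw [hC]
      exact Finset.sum_nonneg fun b _ => div_nonneg (abs_nonneg _) (hc0 b)
    have hlow : ∀ b, - (C * cE g f ω δ P b) ≤ ag b := by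
      intro b
      by_cases hb : b ∈ tg g f ω δ P
      · have h1 := htg b hb
        have h2 : 0 ≤ C * cE g f ω δ P b := mul_nonneg hC0 (hc0 b)
        linarith
      · have h1 : cE g f ω δ P b ≠ 0 := fun h => hb (Finset.mem_filter.2 ⟨Finset.mem_univ _, h⟩)
        have h2 : (0 : ℝ) < cE g f ω δ P b := lt_of_le_of_ne (hc0 b) (by
          intro h
          apply h1
          exact_mod_cast h.symm)
        have h3 : |ag b| / cE g f ω δ P b ≤ C := by
          rw [hC]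
          exact Finset.single_le_sum (f := fun b => |ag b| / (cE g f ω δ P b : ℝ))
            (fun b _ => div_nonneg (abs_nonneg _) (hc0 b)) (Finset.mem_univ b)
        rw [div_le_iff₀ h2] at h3
        have h4 := neg_abs_le (ag b)
        linarith
    obtain ⟨κ, hκ⟩ : ∃ κ : ℝ, κ = |((P.ord s0 : ℝ) + P.ord g0 - E * ω P)| := ⟨_, rfl⟩
    obtain ⟨D, hD⟩ : ∃ D : ℝ, D = ∑ i, |(A s i : ℝ)| := ⟨_, rfl⟩
    obtain ⟨θ, hθ⟩ : ∃ θ : ℝ, θ = - ∑ i, (A s i : ℝ) *
      (Fin.cons (α := fun _ => ℝ) 0 w : Fin (p + 1) → ℝ) i := ⟨_, rfl⟩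
    have hθ0 : 0 < θ := by rw [hθ]; linarith
    obtain ⟨M, hM⟩ := exists_nat_gt ((C * κ + D * (E + 1)) / θ)
    have hκ0 : 0 ≤ κ := by rw [hκ]; exact abs_nonneg _
    have hD0 : 0 ≤ D := by rw [hD]; exact Finset.sum_nonneg fun _ _ => abs_nonneg _
    have hM0 : (0 : ℝ) < M := lt_of_le_of_lt (by positivity) hM
    have hM1 : 1 ≤ M := by
      have : (0 : ℝ) < M := hM0
      exact Nat.one_le_iff_ne_zero.2 (by
        rintro rfl
        simp at this)
    obtain ⟨j, hj, -, h⟩ := hS M hM1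
    obtain ⟨μ, hμ, η, hη, hmin⟩ := h P hPP hP
    have hj0 : (0 : ℝ) < j := by exact_mod_cast hj
    obtain ⟨e, he1, he2⟩ := exp_of_sec hgen hg0 hE hη P
    have he3 := he2 s0 (hmin s0 hs0S hs0)
    have he4 : ∑ b, (e b : ℝ) * cE g f ω δ P b ≤ j * ((P.ord s0 : ℝ) + P.ord g0 - E * ω P) := by
      exact_mod_cast he3
    have he5 : ∑ b, (e b : ℝ) * cE g f ω δ P b ≤ j * κ := by
      refine he4.trans (mul_le_mul_of_nonneg_left ?_ hj0.le)
      rw [hκ]
      exact le_abs_self _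
    -- the value of the functional
    obtain ⟨x, hx⟩ : ∃ x : Fin (p + 1) → ℝ, x = fun i => (((Fin.cons (α := fun _ => ℤ)
      ((j * E : ℕ) : ℤ) μ : Fin (p + 1) → ℤ) i : ℤ) : ℝ) / (j * M) := ⟨_, rfl⟩
    have hx1 : ∑ i, (A s i : ℝ) * x i = (∑ b, (e b : ℝ) * ag b) / (j * M) := by
      rw [hx, hag, Finset.sum_div]
      have h1 : ∀ b, (e b : ℝ) * (∑ i, (A s i : ℝ) * g b i) / (j * M) =
          ∑ i, (A s i : ℝ) * ((e b : ℝ) * g b i / (j * M)) := by
        intro b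
        rw [Finset.mul_sum, Finset.sum_div]
        exact Finset.sum_congr rfl fun i _ => by ring
      simp only [h1]
      rw [Finset.sum_comm]
      refine Finset.sum_congr rfl fun i _ => ?_
      rw [← Finset.mul_sum, ← Finset.sum_div, ← he1 i]
      push_cast
      rfl
    have hx2 : -(C * κ) / M ≤ ∑ i, (A s i : ℝ) * x i := by
      rw [hx1, div_le_div_iff₀ hM0 (by positivity)]
      have h1 : - (C * (j * κ)) ≤ ∑ b, (e b : ℝ) * ag b := by
        calc - (C * (j * κ)) ≤ - (C * ∑ b, (e b : ℝ) * cE g f ω δ P b) := by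
              have := mul_le_mul_of_nonneg_left he5 hC0
              linarith
          _ = ∑ b, (e b : ℝ) * (-(C * cE g f ω δ P b)) := by
              rw [Finset.mul_sum, ← Finset.sum_neg_distrib]
              exact Finset.sum_congr rfl fun b _ => by ring
          _ ≤ ∑ b, (e b : ℝ) * ag b := Finset.sum_le_sum fun b _ =>
              mul_le_mul_of_nonneg_left (hlow b) (by positivity)
      have h2 := mul_le_mul_of_nonneg_right h1 hM0.le
      calc -(C * κ) * (j * M) = - (C * (j * κ)) * M := by ring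
        _ ≤ _ := h2
    have hx3 : |∑ i, (A s i : ℝ) * x i - ∑ i, (A s i : ℝ) *
        (Fin.cons (α := fun _ => ℝ) 0 w : Fin (p + 1) → ℝ) i| ≤ D * ((E + 1) / M) := by
      rw [← Finset.sum_sub_distrib]
      refine (Finset.abs_sum_le_sum_abs _ _).trans ?_
      rw [hD, Finset.sum_mul]
      refine Finset.sum_le_sum fun i _ => ?_
      rw [← mul_sub, abs_mul]
      refine mul_le_mul_of_nonneg_left ?_ (abs_nonneg _)
      rw [hx]
      exact dist M j μ hM1 hj hμ i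
    have hx4 := (abs_le.1 hx3).2
    rw [div_lt_iff₀ hθ0] at hM
    have hx5 : -(C * κ) / M - D * ((E + 1) / M) = - ((C * κ + D * (E + 1)) / M) := by ring
    have hx6 : (C * κ + D * (E + 1)) / M < θ := by
      rw [div_lt_iff₀ hM0]
      linarith
    rw [hθ] at hx6
    linarith

end

end Pool.Agent.U189.MG.G
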