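import Pool.Agent.U660.MD.Mov

/-!
Models: if the multigraded section ring is finitely generated then there are finitely many models such
that every pseudo-effective combination has a good log terminal model among them.
-/

set_option autoImplicit false
set_option linter.all false
set_option maxHeartbeats 1000000

open FF MvPolynomial Pool.Agent.W603.LV Pool.Agent.W602.GT Pool.Agent.W602.Cov
open Pool.Agent.TH756.PR Pool.Agent.TH122.AB Pool.Agent.TH756.PN
open Pool.Agent.Q57.FT Pool.Agent.Q57.CX Pool.Agent.Q57.HK Pool.Agent.U660.MD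

namespace Pool.Agent.U189.MG

variable {p N : ℕ} {K : Type} [Field K] [Algebra ℂ K]

/-- a model (a rational contraction) with the coefficients `δ'` of the images of the divisors, on which
the image of the combination `lam` is ample; near `lam` the sections are the same -/
def Mdl (N : ℕ) (δ δ' : Fin p → Place ℂ K → ℚ) (lam : Fin p → ℚ) : Prop :=
  (∀ μ f, ZSec N δ μ f → ZSec N δ' μ f) ∧ ∃ ε : ℚ, 0 < ε ∧
    ∀ μ : Fin p → ℚ, (∀ i, |μ i - lam i| ≤ ε) → SemiA N δ' μ ∧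
      ∀ (k : ℕ) (ν : Fin p → ℤ), (∀ i, (k : ℚ) * μ i = ν i) → ∀ f, ZSec N δ' ν f → ZSec N δ ν f

/-- the rational combination has a multiple with a section -/
def EffA (N : ℕ) (δ : Fin p → Place ℂ K → ℚ) (μ : Fin p → ℚ) : Prop :=
  ∃ k : ℕ, 1 ≤ k ∧ ∃ ν : Fin p → ℤ, (∀ i, (k : ℚ) * μ i = ν i) ∧ ∃ s : K, s ≠ 0 ∧ ZSec N δ ν s

/-- limits of effective combinations -/
def PsefR (N : ℕ) (δ : Fin p → Place ℂ K → ℚ) (lam : Fin p → ℝ) : Prop :=
  ∀ ε : ℝ, 0 < ε → ∃ μ : Fin p → ℚ, (∀ i, |(μ i : ℝ) - lam i| ≤ ε) ∧ EffA N δ μ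

section

variable {δ : Fin p → Place ℂ K → ℚ} {N0 : ℕ} {g : Fin N0 → Fin p → ℤ} {f : Fin N0 → K}

/-- the order of the generator, as a section -/
def cP (g : Fin N0 → Fin p → ℤ) (f : Fin N0 → K) (δ : Fin p → Place ℂ K → ℚ) (P : Place ℂ K)
    (b : Fin N0) : ℚ :=
  (P.ord (f b) : ℚ) + ∑ i, (g b i : ℚ) * δ i P

/-- the solutions of the dual linear programs -/
def Dual (N : ℕ) (g : Fin N0 → Fin p → ℤ) (f : Fin N0 → K) (δ : Fin p → Place ℂ K → ℚ)
    (lam : Fin p → ℚ) (y : Place ℂ K → Fin p → ℚ) : Prop :=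
  ∀ P : Place ℂ K, Divisorial N P → (∀ b, ∑ i, y P i * g b i ≤ cP g f δ P b) ∧
    ∃ B : Finset (Fin N0), CoG g B lam ∧ ∀ b ∈ B, ∑ i, y P i * g b i = cP g f δ P b

theorem mem_sig {B : Finset (Fin N0)} {μ : Fin p → ℚ} : B ∈ sig g μ ↔ CoG g B μ := by
  classical
  unfold sig
  rw [Finset.mem_filter]
  exact ⟨fun h => h.2, fun h => ⟨Finset.mem_univ _, h⟩⟩

theorem cog_mono {B B' : Finset (Fin N0)} {μ : Fin p → ℚ} (h : B ⊆ B') (hμ : CoG g B μ) :
    CoG g B' μ := by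
  obtain ⟨e, he0, he1, he2⟩ := hμ
  exact ⟨e, he0, fun b hb => he1 b fun h' => hb (h h'), he2⟩

theorem mem_tig_iff {P : Place ℂ K} {b : Fin N0} {δ' : Fin p → Place ℂ K → ℚ} :
    b ∈ tig g f δ' P ↔ (P.ord (f b) : ℚ) = - ∑ i, (g b i : ℚ) * δ' i P := by
  classical
  unfold tig
  rw [Finset.mem_filter]
  exact ⟨fun h => h.2, fun h => ⟨Finset.mem_univ _, h⟩⟩

theorem sum_sub (δ : Fin p → Place ℂ K → ℚ) (y : Place ℂ K → Fin p → ℚ) (x : Fin p → ℚ)
    (P : Place ℂ K) : ∑ i, x i * (δ i P - y P i) = ∑ i, x i * δ i P - ∑ i, y P i * x i := by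
  rw [← Finset.sum_sub_distrib]
  exact Finset.sum_congr rfl fun i _ => by ring

theorem sum_swap (e : Fin N0 → ℚ) (z x : Fin p → ℚ) (hx : ∀ i, ∑ b, e b * (g b i : ℚ) = x i) :
    ∑ i, x i * z i = ∑ b, e b * ∑ i, (g b i : ℚ) * z i := by
  simp only [Finset.mul_sum]
  rw [Finset.sum_comm]
  refine Finset.sum_congr rfl fun i _ => ?_
  rw [← hx i, Finset.sum_mul]
  exact Finset.sum_congr rfl fun b _ => by ring

variable (hgen : (∀ b, f b ≠ 0 ∧ ZSec N δ (g b) (f b)) ∧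
      ∀ (μ : Fin p → ℤ) (η : K), η ≠ 0 → ZSec N δ μ η → ∀ P : Place ℂ K, Mnl g f P μ η)

include hgen

theorem cP_nonneg {P : Place ℂ K} (hP : Divisorial N P) (b : Fin N0) : 0 ≤ cP g f δ P b := by
  have h1 := ((hgen.1 b).2 P hP).resolve_left (hgen.1 b).1
  unfold cP
  linarith

theorem exists_dual {lam : Fin p → ℚ} (hlu : CoG g Finset.univ lam) :
    ∃ y : Place ℂ K → Fin p → ℚ, Dual N g f δ lam y := by
  classical
  have hy : ∀ P : Place ℂ K, ∃ y : Fin p → ℚ, Divisorial N P →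
      (∀ b, ∑ i, y i * g b i ≤ cP g f δ P b) ∧ ∃ B : Finset (Fin N0), CoG g B lam ∧
        ∀ b ∈ B, ∑ i, y i * g b i = cP g f δ P b := by
    intro P
    by_cases hP : Divisorial N P
    · obtain ⟨y, h1, e, he0, he1, he2⟩ := lp_dual g (cP g f δ P) (cP_nonneg hgen hP) lam hlu
      refine ⟨y, fun _ => ⟨h1, Finset.univ.filter fun b => ∑ i, y i * g b i = cP g f δ P b,
        ⟨e, he0, fun b hb => ?_, he2⟩, fun b hb => (Finset.mem_filter.1 hb).2⟩⟩
      by_contra hne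
      exact hb (Finset.mem_filter.2 ⟨Finset.mem_univ _, he1 b hne⟩)
    · exact ⟨0, fun h => absurd h hP⟩
  choose y hy using hy
  exact ⟨y, hy⟩

theorem sub_of_dual {lam : Fin p → ℚ} {y : Place ℂ K → Fin p → ℚ} (hy : Dual N g f δ lam y)
    (μ : Fin p → ℤ) (η : K) (hη : ZSec N δ μ η) : ZSec N (fun i P => δ i P - y P i) μ η := by
  intro P hP
  by_cases h0 : η = 0
  · exact Or.inl h0
  right
  obtain ⟨e, he1, he2⟩ := hgen.2 μ η h0 hη P
  rw [sum_sub δ y (fun i => (μ i : ℚ)) P]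
  have he1' : ∀ i, ∑ b, (e b : ℚ) * (g b i : ℚ) = (μ i : ℚ) := by
    intro i
    rw [← he1 i]
    push_cast
    rfl
  have h1 : ∑ i, y P i * (μ i : ℚ) = ∑ b, (e b : ℚ) * ∑ i, y P i * g b i := by
    have := sum_swap (g := g) (fun b => (e b : ℚ)) (y P) _ he1'
    calc ∑ i, y P i * (μ i : ℚ) = ∑ i, (μ i : ℚ) * y P i :=
          Finset.sum_congr rfl fun i _ => mul_comm _ _
      _ = _ := by
        rw [this]
        exact Finset.sum_congr rfl fun b _ => by
          congr 1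
          exact Finset.sum_congr rfl fun i _ => mul_comm _ _
  have h2 := sum_swap (g := g) (fun b => (e b : ℚ)) (fun i => δ i P) _ he1'
  beta_reduce at h2
  have h3 : ∑ b, (e b : ℚ) * ∑ i, y P i * g b i ≤ ∑ b, (e b : ℚ) * cP g f δ P b :=
    Finset.sum_le_sum fun b _ => mul_le_mul_of_nonneg_left ((hy P hP).1 b) (by positivity)
  have h4 : ∑ b, (e b : ℚ) * cP g f δ P b = ((∑ b, (e b : ℤ) * P.ord (f b) : ℤ) : ℚ) +
      ∑ i, (μ i : ℚ) * δ i P := by
    rw [h2]
    unfold cP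
    push_cast
    rw [← Finset.sum_add_distrib]
    exact Finset.sum_congr rfl fun b _ => by ring
  have h5 : ((∑ b, (e b : ℤ) * P.ord (f b) : ℤ) : ℚ) ≤ (P.ord η : ℚ) := by exact_mod_cast he2
  linarith

/-- the expansion of the pairing -/
theorem pair_eq {y : Fin p → ℚ} {c : Fin N0 → ℚ} {B : Finset (Fin N0)} {x : Fin p → ℝ}
    {t : Fin N0 → ℝ} (hx : ∀ i, x i = ∑ b, t b * gB g B b i)
    (hB : ∀ b ∈ B, ∑ i, y i * g b i = c b) :
    ∑ i, (y i : ℝ) * x i = ∑ b, if b ∈ B then t b * (c b : ℝ) else 0 := by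
  classical
  have h1 : ∑ i, (y i : ℝ) * x i = ∑ b, t b * ∑ i, (y i : ℝ) * (gB g B b i : ℤ) := by
    simp only [Finset.mul_sum]
    rw [Finset.sum_comm]
    refine Finset.sum_congr rfl fun i _ => ?_
    rw [hx i, Finset.mul_sum]
    exact Finset.sum_congr rfl fun b _ => by ring
  rw [h1]
  refine Finset.sum_congr rfl fun b _ => ?_
  by_cases hb : b ∈ B
  · rw [if_pos hb]
    congr 1
    rw [← hB b hb]
    push_cast
    refine Finset.sum_congr rfl fun i _ => ?_
    simp [gB, hb]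
  · rw [if_neg hb]
    simp [gB, hb]

theorem pair_nonneg {lam : Fin p → ℚ} {y : Place ℂ K → Fin p → ℚ} (hy : Dual N g f δ lam y)
    {P : Place ℂ K} (hP : Divisorial N P) {x : Fin p → ℝ}
    (hx : ∀ B : Finset (Fin N0), CoG g B lam → RC (gB g B) x) : 0 ≤ ∑ i, (y P i : ℝ) * x i := by
  classical
  obtain ⟨B, hB1, hB2⟩ := (hy P hP).2
  obtain ⟨t, ht, ht2⟩ := hx B hB1
  rw [pair_eq hgen ht2 hB2]
  refine Finset.sum_nonneg fun b _ => ?_
  split_ifs with hb
  · exact mul_nonneg (ht b) (by exact_mod_cast cP_nonneg hgen hP b)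
  · exact le_rfl

theorem pair_zero {lam : Fin p → ℚ} {y : Place ℂ K → Fin p → ℚ} (hy : Dual N g f δ lam y)
    {P : Place ℂ K} (hP : Divisorial N P) {x : Fin p → ℝ}
    (hx : ∀ B : Finset (Fin N0), CoG g B lam → RC (gB g B) x)
    (h0 : ∑ i, (y P i : ℝ) * x i ≤ 0) : RC (gB g (tig g f δ P)) x := by
  classical
  obtain ⟨B, hB1, hB2⟩ := (hy P hP).2
  obtain ⟨t, ht, ht2⟩ := hx B hB1
  rw [pair_eq hgen ht2 hB2] at h0
  have hnn : ∀ b ∈ Finset.univ, 0 ≤ (if b ∈ B then t b * (cP g f δ P b : ℝ) else 0) := by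
    intro b _
    split_ifs with hb
    · exact mul_nonneg (ht b) (by exact_mod_cast cP_nonneg hgen hP b)
    · exact le_rfl
  have h1 := (Finset.sum_eq_zero_iff_of_nonneg hnn).1 (le_antisymm h0 (Finset.sum_nonneg hnn))
  refine ⟨fun b => if b ∈ B then t b else 0, fun b => ?_, fun i => ?_⟩
  · beta_reduce
    split_ifs
    · exact ht b
    · exact le_rfl
  · rw [ht2 i]
    refine Finset.sum_congr rfl fun b _ => ?_
    beta_reduce
    by_cases hb : b ∈ B
    · rw [if_pos hb]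
      by_cases hc : b ∈ tig g f δ P
      · simp [gB, hb, hc]
      · have h2 := h1 b (Finset.mem_univ b)
        rw [if_pos hb] at h2
        rcases mul_eq_zero.1 h2 with h3 | h3
        · rw [h3, zero_mul, zero_mul]
        · exfalso
          apply hc
          rw [mem_tig_iff]
          have h4 : cP g f δ P b = 0 := by exact_mod_cast h3
          unfold cP at h4
          linarith
    · rw [if_neg hb]
      simp [gB, hb]

/-- the combinations in the cone of `lam` are semiample on the model -/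
theorem semi_of_dual {lam : Fin p → ℚ} {y : Place ℂ K → Fin p → ℚ} (hy : Dual N g f δ lam y)
    {μ : Fin p → ℚ} (hμ : ∀ B : Finset (Fin N0), CoG g B lam → CoG g B μ) :
    SemiA N (fun i P => δ i P - y P i) μ := by
  classical
  refine semi_of_cog hgen.1 (sub_of_dual hgen hy) fun P hP => ?_
  obtain ⟨B, hB1, hB2⟩ := (hy P hP).2
  refine cog_mono (fun b hb => ?_) (hμ B hB1)
  rw [mem_tig_iff]
  have h1 := hB2 b hb
  rw [sum_sub δ y (fun i => (g b i : ℚ)) P, h1]
  unfold cP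
  ring

theorem sec_of_dual {lam : Fin p → ℚ} {y : Place ℂ K → Fin p → ℚ} (hy : Dual N g f δ lam y)
    {ν : Fin p → ℤ} (hν : ∀ B : Finset (Fin N0), CoG g B lam → RC (gB g B) fun i => (ν i : ℝ))
    {η : K} (hη : ZSec N (fun i P => δ i P - y P i) ν η) : ZSec N δ ν η := by
  intro P hP
  refine (hη P hP).imp id fun h => ?_
  rw [sum_sub δ y (fun i => (ν i : ℚ)) P] at h
  have h1 := pair_nonneg hgen hy hP hν
  have h2 : (0 : ℚ) ≤ ∑ i, y P i * (ν i : ℚ) := by exact_mod_cast h1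
  linarith

theorem mdl_of_dual {lam : Fin p → ℚ} (hG : Generic g lam) {y : Place ℂ K → Fin p → ℚ}
    (hy : Dual N g f δ lam y) : Mdl N δ (fun i P => δ i P - y P i) lam := by
  classical
  obtain ⟨ε, hε, hGε⟩ := hG
  refine ⟨sub_of_dual hgen hy, ε, hε, fun μ hμ => ⟨semi_of_dual hgen hy fun B hB => hGε B hB μ hμ,
    fun k ν hν η hη => sec_of_dual hgen hy (fun B hB => ?_) hη⟩⟩
  have h1 := rc_smul ((cog_iff g B μ).1 (hGε B hB μ hμ)) (c := (k : ℝ)) (by positivity)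
  convert h1 using 2
  rename_i i
  have := hν i
  have h2 : (((k : ℚ) * μ i : ℚ) : ℝ) = (((ν i : ℤ) : ℚ) : ℝ) := by rw [this]
  push_cast at h2
  exact h2.symm

end

end Pool.Agent.U189.MG
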