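import Pool.Agent.U189.MG.Abs

/-!
# Pseudo-effective classes

Pseudo-effective classes (with an arbitrary divisor `A`) are effective, if the Cox ring of the family
with the hyperplane class added is finitely generated.
-/

set_option autoImplicit false
set_option linter.all false
set_option maxHeartbeats 1000000

open FF MvPolynomial Pool.Agent.W602.GT Pool.Agent.W603.LV

namespace Pool.Agent.U189.MG

open Pool.Agent.Results.MP_89a3f8_ag.TerminationOfFlips (IsSection)
open Pool.Agent.U660.MD Pool.Agent.U189.ND Pool.Agent.Q57.FT Pool.Agent.Q57.HK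

section defs

variable {K : Type} [Field K] [Algebra ℂ K] {p : ℕ} (N : ℕ) (δ : Fin p → Place ℂ K → ℚ)

/-- The real combination `∑ i, w i * D i` is pseudo-effective: there is a divisor `A`, generated by a
finite set `S` of functions (its coefficient at `P` is the maximum of the numbers `- P.ord s`, `s ∈ S`,
`s ≠ 0`), such that for every `M ≥ 1` there are `j ≥ 1` and an integral combination `μ` with
`|μ i - j M w i| ≤ j` such that `∑ i, μ i * D i + j A` has a nonzero section `f`. -/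
def IsPseudoeffectiveUpTo (w : Fin p → ℝ) : Prop :=
  ∃ S : Finset K, ∀ M : ℕ, 1 ≤ M → ∃ j : ℕ, 1 ≤ j ∧ ∃ μ : Fin p → ℤ,
    (∀ i, |(μ i : ℝ) - j * M * w i| ≤ j) ∧ ∃ f : K, f ≠ 0 ∧ ∀ P : Place ℂ K, Divisorial N P →
      ∃ s ∈ S, s ≠ 0 ∧ (j : ℚ) * P.ord s - ∑ i, (μ i : ℚ) * δ i P ≤ P.ord f

end defs

variable {n p N : ℕ} {K : Type} [Field K] [Algebra ℂ K] {x : Fin (n + 1) → K}
  {δ : Fin p → Place ℂ K → ℚ}

/-- the family with the hyperplane class -/
noncomputable def ext (x : Fin (n + 1) → K) (δ : Fin p → Place ℂ K → ℚ) :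
    Fin (p + 1) → Place ℂ K → ℚ :=
  Fin.cons (α := fun _ => Place ℂ K → ℚ) (fun P => - (minimalOrder x P : ℚ)) δ

theorem ext_sum (x : Fin (n + 1) → K) (δ : Fin p → Place ℂ K → ℚ) (a : ℚ) (μ : Fin p → ℚ)
    (P : Place ℂ K) : ∑ i, (Fin.cons (α := fun _ => ℚ) a μ : Fin (p + 1) → ℚ) i * ext x δ i P =
      - a * minimalOrder x P + ∑ i, μ i * δ i P := by
  rw [Fin.sum_univ_succ]
  unfold ext
  simp only [Fin.cons_zero, Fin.cons_succ]
  ring

theorem zsec_ext {a : ℤ} {μ : Fin p → ℤ} {f : K} :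
    ZSec N (ext x δ) (Fin.cons (α := fun _ => ℤ) a μ) f ↔
      ∀ P : Place ℂ K, Divisorial N P → f = 0 ∨
        (a : ℚ) * minimalOrder x P - ∑ i, (μ i : ℚ) * δ i P ≤ P.ord f := by
  unfold ZSec
  refine forall₂_congr fun P _ => or_congr_right ?_
  have h1 : ∑ i, (((Fin.cons (α := fun _ => ℤ) a μ : Fin (p + 1) → ℤ) i : ℤ) : ℚ) * ext x δ i P =
      - (a : ℚ) * minimalOrder x P + ∑ i, (μ i : ℚ) * δ i P := by
    rw [← ext_sum x δ (a : ℚ) (fun i => (μ i : ℚ)) P]
    refine Finset.sum_congr rfl fun i _ => ?_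
    congr 1
    induction i using Fin.cases with
    | zero => rfl
    | succ i => rfl
  rw [h1]
  constructor
  · intro h
    linarith
  · intro h
    linarith

/-- effective combinations are pseudo-effective -/
theorem psef_of_cone {B : ℕ} {h : Fin B → Fin p → ℤ}
    (hs : ∀ b, ∃ s : K, s ≠ 0 ∧ IsSection N δ (h b) s) {w : Fin p → ℝ} (hw : w ∈ coneOf h) :
    IsPseudoeffectiveUpTo N δ w := by
  classical
  choose s hs0 hs1 using hs
  obtain ⟨t, ht, hw2⟩ := hw
  obtain ⟨C, hC⟩ : ∃ C : ℕ, C = (∑ b, ∑ i, (h b i).natAbs) + 1 := ⟨_, rfl⟩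
  refine ⟨{1}, fun M hM => ⟨C, by omega, ∑ b, (⌊(C : ℝ) * M * t b⌋.toNat) • h b, fun i => ?_,
    ∏ b, s b ^ (⌊(C : ℝ) * M * t b⌋.toNat), Finset.prod_ne_zero_iff.2 fun b _ =>
      pow_ne_zero _ (hs0 b), fun P hP => ⟨1, Finset.mem_singleton_self 1, one_ne_zero, ?_⟩⟩⟩
  · have h1 : ∀ b, (((⌊(C : ℝ) * M * t b⌋.toNat : ℕ) : ℤ) : ℝ) = ⌊(C : ℝ) * M * t b⌋ := by
      intro b
      have : (0 : ℤ) ≤ ⌊(C : ℝ) * M * t b⌋ := Int.floor_nonneg.2 (by
        have := ht b
        positivity)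
      rw [Int.toNat_of_nonneg this]
    rw [Finset.sum_apply]
    push_cast
    have h2 : ∑ b, (((⌊(C : ℝ) * M * t b⌋.toNat • h b) i : ℤ) : ℝ) - C * M * w i =
        ∑ b, ((⌊(C : ℝ) * M * t b⌋ : ℝ) - C * M * t b) * h b i := by
      rw [hw2 i, Finset.mul_sum, ← Finset.sum_sub_distrib]
      refine Finset.sum_congr rfl fun b _ => ?_
      rw [Pi.smul_apply, nsmul_eq_mul]
      push_cast
      have := h1 b
      push_cast at this
      rw [this]
      ring
    rw [h2]
    calc |∑ b, ((⌊(C : ℝ) * M * t b⌋ : ℝ) - C * M * t b) * h b i|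
        ≤ ∑ b, |((⌊(C : ℝ) * M * t b⌋ : ℝ) - C * M * t b) * h b i| :=
          Finset.abs_sum_le_sum_abs _ _
      _ ≤ ∑ b, ((h b i).natAbs : ℝ) := by
          refine Finset.sum_le_sum fun b _ => ?_
          rw [abs_mul]
          have h3 : |(⌊(C : ℝ) * M * t b⌋ : ℝ) - C * M * t b| ≤ 1 := by
            rw [abs_le]
            constructor
            · linarith [Int.sub_one_lt_floor ((C : ℝ) * M * t b)]
            · linarith [Int.floor_le ((C : ℝ) * M * t b)]
          have h4 : |((h b i : ℤ) : ℝ)| = ((h b i).natAbs : ℝ) := by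
            rw [Nat.cast_natAbs]
            push_cast
            rfl
          rw [h4]
          calc |(⌊(C : ℝ) * M * t b⌋ : ℝ) - C * M * t b| * ((h b i).natAbs : ℝ)
              ≤ 1 * ((h b i).natAbs : ℝ) := mul_le_mul_of_nonneg_right h3 (by positivity)
            _ = _ := one_mul _
      _ ≤ C := by
          have h5 : ∑ b, (h b i).natAbs ≤ ∑ b, ∑ i, (h b i).natAbs :=
            Finset.sum_le_sum fun b _ => Finset.single_le_sum (f := fun i => (h b i).natAbs)
              (fun _ _ => Nat.zero_le _) (Finset.mem_univ i)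
          have h6 : ∑ b, (h b i).natAbs ≤ C := by omega
          exact_mod_cast h6
  · rw [P.ord_one]
    have h1 : ZSec N δ (∑ b, (⌊(C : ℝ) * M * t b⌋.toNat) • h b)
        (∏ b, s b ^ (⌊(C : ℝ) * M * t b⌋.toNat)) := zsec_prod (fun b => hs1 b) _
    have h2 := (h1 P hP).resolve_left (Finset.prod_ne_zero_iff.2 fun b _ =>
      pow_ne_zero _ (hs0 b))
    push_cast
    push_cast at h2
    linarith

/-- **The pseudo-effective cone.** -/
theorem psef_cone (hx0 : x 0 ≠ 0) (hbas : IsTranscendenceBasis ℂ (affine x))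
    (hFG : (Pool.Agent.Q57.CX.coxRing N (ext x δ)).FG) :
    ∃ (B : ℕ) (h : Fin B → Fin p → ℤ), (∀ b, ∃ s : K, s ≠ 0 ∧ IsSection N δ (h b) s) ∧
      {w | IsPseudoeffectiveUpTo N δ w} = coneOf h := by
  classical
  by_cases hne : Nonempty (Place ℂ K)
  swap
  · obtain ⟨B, h, hh⟩ := minkowski (p := p) (S := 0) (fun s => s.elim0)
    have hs : ∀ b, ∃ s : K, s ≠ 0 ∧ IsSection N δ (h b) s :=
      fun b => ⟨1, one_ne_zero, fun P _ => absurd ⟨P⟩ hne⟩
    refine ⟨B, h, hs, Set.ext fun w => ⟨fun _ => (hh w).1 fun s => s.elim0, fun hw =>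
      psef_of_cone hs hw⟩⟩
  obtain ⟨P0⟩ := hne
  obtain ⟨N0, g, f, hgen⟩ := gens_of_fg hFG
  obtain ⟨S1, A, hA⟩ := weyl g
  obtain ⟨B1, h1, hh1⟩ := minkowski (p := p) (fun s : Fin S1 => fun i => A s (Fin.succ i))
  have key : ∀ w : Fin p → ℝ, RC g (Fin.cons (α := fun _ => ℝ) 0 w) ↔ RC h1 w := by
    intro w
    rw [hA, ← hh1]
    unfold IQ
    refine forall_congr' fun s => ?_
    rw [Fin.sum_univ_succ]
    simp only [Fin.cons_zero, Fin.cons_succ, mul_zero, zero_add]
  have hs1 : ∀ b, ∃ k : ℕ, 1 ≤ k ∧ ∃ s : K, s ≠ 0 ∧ IsSection N δ (k • h1 b) s := by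
    intro b
    have h2 := (key _).2 (rc_gen h1 b)
    obtain ⟨t, ht, ht2⟩ := rc_rat g (Fin.cons (α := fun _ => ℚ) 0 fun i => ((h1 b i : ℤ) : ℚ)) (by
      convert h2 using 1
      funext i
      induction i using Fin.cases with
      | zero => simp
      | succ i => simp)
    obtain ⟨k, hk, hz⟩ := common_den t
    choose z hz using hz
    have hz0 : ∀ c, 0 ≤ z c := by
      intro c
      have h3 : (0 : ℚ) ≤ k * t c := mul_nonneg (by positivity) (ht c)
      rw [hz c] at h3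
      exact_mod_cast h3
    refine ⟨k, hk, ∏ c, f c ^ (z c).toNat, Finset.prod_ne_zero_iff.2 fun c _ =>
      pow_ne_zero _ (hgen.1 c).1, ?_⟩
    have h3 : ZSec N (ext x δ) (∑ c, (z c).toNat • g c) (∏ c, f c ^ (z c).toNat) :=
      zsec_prod (fun c => (hgen.1 c).2) _
    have h4 : ∑ c, (z c).toNat • g c = Fin.cons (α := fun _ => ℤ) 0 (k • h1 b) := by
      funext i
      have h5 : (((∑ c, (z c).toNat • g c) i : ℤ) : ℚ) = (k : ℚ) * ∑ c, t c * g c i := by
        rw [Finset.sum_apply, Finset.mul_sum]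
        push_cast
        refine Finset.sum_congr rfl fun c _ => ?_
        rw [Pi.smul_apply, nsmul_eq_mul]
        push_cast
        have h6 : (((z c).toNat : ℤ) : ℚ) = z c := by rw [Int.toNat_of_nonneg (hz0 c)]
        have h7 : (((z c).toNat : ℕ) : ℚ) = z c := by exact_mod_cast h6
        rw [h7, ← hz c]
        ring
      have h8 := ht2 i
      rw [← h8] at h5
      induction i using Fin.cases with
      | zero =>
        simp only [Fin.cons_zero, mul_zero] at h5 ⊢
        exact_mod_cast h5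
      | succ i =>
        simp only [Fin.cons_succ] at h5 ⊢
        rw [Pi.smul_apply, nsmul_eq_mul]
        exact_mod_cast h5
    rw [h4, zsec_ext] at h3
    intro P hP
    refine (h3 P hP).imp id fun h9 => ?_
    push_cast at h9 ⊢
    linarith
  choose k hk hks using hs1
  have hsc : coneOf (fun b => k b • h1 b) = coneOf h1 := coneOf_scale hk fun _ => rfl
  refine ⟨B1, fun b => k b • h1 b, hks, Set.ext fun w => ⟨fun hw => ?_, fun hw =>
    psef_of_cone hks hw⟩⟩
  rw [hsc]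
  refine (key w).1 (rc_closed _ _ fun ε hε => ?_)
  obtain ⟨S, hS⟩ := hw
  obtain ⟨E, g0, hg0, hE⟩ := absorb hx0 hbas S
  obtain ⟨M, hM⟩ := exists_nat_gt (((E : ℝ) + 1) / ε)
  have hM0 : (0 : ℝ) < M := lt_of_le_of_lt (by positivity) hM
  have hM1 : 1 ≤ M := by
    have : (0 : ℝ) < M := hM0
    exact Nat.one_le_iff_ne_zero.2 (by
      rintro rfl
      simp at this)
  obtain ⟨j, hj, μ, hμ, η, hη0, hη⟩ := hS M hM1
  have hj0 : (0 : ℝ) < j := by exact_mod_cast hj
  have hsec : ZSec N (ext x δ) (Fin.cons (α := fun _ => ℤ) ((j * E : ℕ) : ℤ) μ)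
      (η * g0 ^ j) := by
    rw [zsec_ext]
    intro P hP
    right
    obtain ⟨s, hs, hs0, hle⟩ := hη P hP
    rw [P.ord_mul hη0 (pow_ne_zero _ hg0), P.ord_pow]
    have h2 := hE s hs hs0 P
    have h3 : (E : ℚ) * minimalOrder x P - P.ord g0 ≤ P.ord s := by exact_mod_cast h2
    have h4 : (j : ℚ) * ((E : ℚ) * minimalOrder x P - P.ord g0) ≤ j * P.ord s :=
      mul_le_mul_of_nonneg_left h3 (by positivity)
    push_cast
    linarith
  obtain ⟨e, he1, -⟩ := hgen.2 _ _ (mul_ne_zero hη0 (pow_ne_zero _ hg0)) hsec P0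
  refine ⟨fun i => (((Fin.cons (α := fun _ => ℤ) ((j * E : ℕ) : ℤ) μ : Fin (p + 1) → ℤ) i : ℤ) : ℝ)
    / (j * M), fun i => ?_, ?_⟩
  · rw [div_lt_iff₀ hε] at hM
    induction i using Fin.cases with
    | zero =>
      simp only [Fin.cons_zero, sub_zero]
      push_cast
      have h2 : (j : ℝ) * E / (j * M) = E / M := by field_simp
      rw [h2, abs_of_nonneg (by positivity), div_le_iff₀ hM0]
      linarith
    | succ i =>
      simp only [Fin.cons_succ]
      have h2 : (μ i : ℝ) / (j * M) - w i = ((μ i : ℝ) - j * M * w i) / (j * M) := by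
        field_simp
      rw [h2, abs_div, abs_of_pos (by positivity : (0 : ℝ) < j * M), div_le_iff₀ (by positivity)]
      refine (hμ i).trans ?_
      have h3 : (1 : ℝ) ≤ M * ε := by
        have : (0 : ℝ) ≤ E := by positivity
        linarith
      nlinarith
  · refine ⟨fun b => (e b : ℝ) / (j * M), fun b => by positivity, fun i => ?_⟩
    have h2 := he1 i
    have h3 : (((Fin.cons (α := fun _ => ℤ) ((j * E : ℕ) : ℤ) μ : Fin (p + 1) → ℤ) i : ℤ) : ℝ) =
        ∑ b, (e b : ℝ) * g b i := by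
      rw [← h2]
      push_cast
      rfl
    beta_reduce
    rw [h3, Finset.sum_div]
    exact Finset.sum_congr rfl fun b _ => by ring

/-- rational pseudo-effective combinations have a multiple with a section -/
theorem eff_of_psef (hx0 : x 0 ≠ 0) (hbas : IsTranscendenceBasis ℂ (affine x))
    (hFG : (Pool.Agent.Q57.CX.coxRing N (ext x δ)).FG) {μ : Fin p → ℚ}
    (hμ : IsPseudoeffectiveUpTo N δ fun i => (μ i : ℝ)) :
    ∃ k : ℕ, 1 ≤ k ∧ ∃ ν : Fin p → ℤ, (∀ i, (k : ℚ) * μ i = ν i) ∧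
      ∃ s : K, s ≠ 0 ∧ IsSection N δ ν s := by
  classical
  obtain ⟨B, h, hs, hset⟩ := psef_cone hx0 hbas hFG (N := N) (δ := δ)
  choose s hs0 hs1 using hs
  obtain ⟨t, ht, ht2⟩ := rc_rat h μ ((Set.ext_iff.1 hset _).1 hμ)
  obtain ⟨k, hk, hz⟩ := common_den t
  choose z hz using hz
  have hz0 : ∀ c, 0 ≤ z c := by
    intro c
    have h3 : (0 : ℚ) ≤ k * t c := mul_nonneg (by positivity) (ht c)
    rw [hz c] at h3
    exact_mod_cast h3
  refine ⟨k, hk, ∑ c, (z c).toNat • h c, fun i => ?_, ∏ c, s c ^ (z c).toNat,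
    Finset.prod_ne_zero_iff.2 fun c _ => pow_ne_zero _ (hs0 c), zsec_prod (fun c => hs1 c) _⟩
  rw [ht2 i, Finset.sum_apply, Finset.mul_sum]
  push_cast
  refine Finset.sum_congr rfl fun c _ => ?_
  rw [Pi.smul_apply, nsmul_eq_mul]
  push_cast
  have h6 : (((z c).toNat : ℤ) : ℚ) = z c := by rw [Int.toNat_of_nonneg (hz0 c)]
  have h7 : (((z c).toNat : ℕ) : ℚ) = z c := by exact_mod_cast h6
  rw [h7, ← hz c]
  ring

end Pool.Agent.U189.MG
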