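import Pool.Agent.U189.MG.Chm

/-!
The minimal model program with scaling of a general ample class.
-/

set_option autoImplicit false
set_option linter.all false
set_option maxHeartbeats 1000000

open FF MvPolynomial Pool.Agent.W603.LV Pool.Agent.W602.GT Pool.Agent.W602.Cov
open Pool.Agent.TH756.PR Pool.Agent.TH122.AB Pool.Agent.TH756.PN
open Pool.Agent.Q57.FT Pool.Agent.Q57.CX Pool.Agent.Q57.HK Pool.Agent.U660.MD

namespace Pool.Agent.U189.MG

variable {p N : ℕ} {K : Type} [Field K] [Algebra ℂ K]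

/-- the point of the segment -/
def seg (a w : Fin p → ℝ) (t : ℝ) : Fin p → ℝ := fun i => (1 - t) * a i + t * w i

theorem ell_seg (v : Fin p → ℤ) (a w : Fin p → ℝ) (t : ℝ) :
    ell v (seg a w t) = (1 - t) * ell v a + t * ell v w := ell_line v a w t

theorem seg_zero (a w : Fin p → ℝ) : seg a w 0 = a := by
  funext i
  simp [seg]

theorem seg_one (a w : Fin p → ℝ) : seg a w 1 = w := by
  funext i
  simp [seg]

/-- the parameter at which the segment meets the wall -/
noncomputable def tau (v : Fin p → ℤ) (a w : Fin p → ℝ) : ℝ := ell v a / (ell v a - ell v w)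

theorem tau_of_zero {v : Fin p → ℤ} {a w : Fin p → ℝ} {t : ℝ} (ha : ell v a ≠ 0)
    (h : ell v (seg a w t) = 0) : t = tau v a w := by
  rw [ell_seg] at h
  have h1 : ell v a = t * (ell v a - ell v w) := by linarith
  have h2 : ell v a - ell v w ≠ 0 := by
    intro h0
    rw [h0, mul_zero] at h1
    exact ha h1
  unfold tau
  rw [eq_div_iff h2]
  exact h1.symm

/-- no wall between two points of the segment -/
theorem same_seg {ι : Type} [Finite ι] {A : ι → Fin p → ℤ} {a w : Fin p → ℝ} {t1 t2 : ℝ}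
    (h : ∀ u, min t1 t2 ≤ u → u ≤ max t1 t2 → Reg A (seg a w u)) :
    Same A (seg a w t1) (seg a w t2) := by
  intro r
  by_cases h0 : A r = 0
  · rw [h0, ell_zero, ell_zero]
  · have h1 : ∀ t, ell (A r) (seg a w t) = ell (A r) a + (ell (A r) w - ell (A r) a) * t := by
      intro t
      rw [ell_seg]
      ring
    rw [h1, h1]
    refine affine_sign fun u hu1 hu2 => ?_
    rw [← h1]
    exact h u hu1 hu2 r h0

/-- **Comparison along the segment.** -/
theorem cmp_seg {δ : Fin p → Place ℂ K → ℚ} {N0 : ℕ} {g : Fin N0 → Fin p → ℤ} {f : Fin N0 → K}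
    (hgen : (∀ b, f b ≠ 0 ∧ ZSec N δ (g b) (f b)) ∧
      ∀ (μ : Fin p → ℤ) (η : K), η ≠ 0 → ZSec N δ μ η → ∀ P : Place ℂ K, Mnl g f P μ η)
    {ι : Type} [Finite ι] {A : ι → Fin p → ℤ}
    (hA : ∀ x y : Fin p → ℝ, Same A x y → ∀ B : Finset (Fin N0), RC (gB g B) x → RC (gB g B) y)
    {q q' : Fin p → ℚ} {y y' : Place ℂ K → Fin p → ℚ} (hy : Dual N g f δ q y)
    (hy' : Dual N g f δ q' y') {P : Place ℂ K} (hP : Divisorial N P) {a w : Fin p → ℝ} {t t' : ℝ}
    (ht : t < t') (ht1 : t' < 1) (hr' : Reg A (seg a w t'))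
    (hs : Same A (fun i => (q i : ℝ)) (seg a w t))
    (hs' : Same A (fun i => (q' i : ℝ)) (seg a w t')) :
    (∀ i, y' P i = y P i) ∨ ∑ i, (y P i : ℝ) * w i < ∑ i, (y' P i : ℝ) * w i := by
  classical
  have hch : ∀ (q : Fin p → ℚ) (x : Fin p → ℝ), Same A (fun i => (q i : ℝ)) x →
      ∀ B : Finset (Fin N0), CoG g B q → RC (gB g B) x := fun q x h B hB =>
    hA _ _ h B ((cog_iff g B q).1 hB)
  obtain ⟨φ, hφ⟩ : ∃ φ : ℝ → ℝ, φ = fun s => ∑ i, ((y' P i : ℝ) - y P i) * seg a w s i := ⟨_, rfl⟩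
  have hφs : ∀ x : Fin p → ℝ, ∑ i, ((y' P i : ℝ) - y P i) * x i =
      ∑ i, (y' P i : ℝ) * x i - ∑ i, (y P i : ℝ) * x i := by
    intro x
    rw [← Finset.sum_sub_distrib]
    exact Finset.sum_congr rfl fun i _ => by ring
  have h1 : φ t ≤ 0 := by
    have := cmp hgen hy' hy hP (hch q _ hs)
    rw [hφ]
    beta_reduce
    rw [hφs]
    linarith
  have h2 : 0 ≤ φ t' := by
    have := cmp hgen hy hy' hP (hch q' _ hs')
    rw [hφ]
    beta_reduce
    rw [hφs]
    linarith
  obtain ⟨c, hc⟩ : ∃ c : ℝ, c = ∑ i, ((y' P i : ℝ) - y P i) * a i := ⟨_, rfl⟩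
  obtain ⟨d, hd⟩ : ∃ d : ℝ, d = ∑ i, ((y' P i : ℝ) - y P i) * w i := ⟨_, rfl⟩
  have haff : ∀ s, φ s = (1 - s) * c + s * d := by
    intro s
    rw [hφ, hc, hd]
    beta_reduce
    unfold seg
    rw [Finset.mul_sum, Finset.mul_sum, ← Finset.sum_add_distrib]
    exact Finset.sum_congr rfl fun i _ => by ring
  rw [haff] at h1 h2
  have hd0 : 0 ≤ d := by nlinarith
  by_cases hlt : 0 < d
  · right
    rw [hd, hφs] at hlt
    linarith
  left
  have hd1 : d = 0 := le_antisymm (not_lt.1 hlt) hd0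
  have hc0 : c = 0 := by
    rw [hd1] at h1 h2
    simp only [mul_zero, add_zero] at h1 h2
    have h3 : 0 < 1 - t := by linarith
    have h4 : 0 < 1 - t' := by linarith
    have h5 : c ≤ 0 := by
      by_contra h
      push Not at h
      nlinarith
    have h6 : 0 ≤ c := by
      by_contra h
      push Not at h
      nlinarith
    exact le_antisymm h5 h6
  obtain ⟨ε, hε, hb⟩ := reg_ball hr'
  have h3 := zero_of_ballR (z := fun i => (y' P i : ℝ) - y P i) (x := seg a w t') hε
    (fun x hx => by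
      have h4 := cmp hgen hy hy' hP (hch q' x (hs'.trans (hb x hx).2))
      rw [hφs]
      linarith) (by
    have := haff t'
    rw [hφ] at this
    beta_reduce at this
    rw [this, hd1, hc0]
    simp)
  intro i
  have h4 := h3 i
  beta_reduce at h4
  have h5 : (y' P i : ℝ) = y P i := by linarith
  exact_mod_cast h5

/-- the end of the effective part of the segment -/
theorem exists_end {ι : Type} [Fintype ι] {A : ι → Fin p → ℤ} {R : Finset ι}
    {a w : Fin p → ℝ} (hreg : Reg A a) (ha : ∀ r ∈ R, 0 ≤ ell (A r) a) :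
    ∃ s : ℝ, 0 < s ∧ s ≤ 1 ∧ (∀ t, 0 ≤ t → t ≤ s → ∀ r ∈ R, 0 ≤ ell (A r) (seg a w t)) ∧
      (s = 1 ∨ s < 1 ∧ ∀ t, s < t → ∃ r ∈ R, ell (A r) (seg a w t) < 0) := by
  classical
  by_cases hw : ∀ r ∈ R, 0 ≤ ell (A r) w
  · refine ⟨1, one_pos, le_rfl, fun t ht ht1 r hr => ?_, Or.inl rfl⟩
    rw [ell_seg]
    have h1 := ha r hr
    have h2 := hw r hr
    have h3 : 0 ≤ 1 - t := by linarith
    positivity
  · push Not at hw
    obtain ⟨r0, hr0, hw0⟩ := hw
    obtain ⟨F, hF⟩ : ∃ F : Finset ι, F = R.filter fun r => ell (A r) w < 0 := ⟨_, rfl⟩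
    have hFm : ∀ r, r ∈ F ↔ r ∈ R ∧ ell (A r) w < 0 := by
      intro r
      rw [hF, Finset.mem_filter]
    have hne : F.Nonempty := ⟨r0, (hFm r0).2 ⟨hr0, hw0⟩⟩
    have hpos : ∀ r ∈ F, 0 < ell (A r) a := by
      intro r hr
      obtain ⟨h1, h2⟩ := (hFm r).1 hr
      have h3 : A r ≠ 0 := by
        intro h
        rw [h, ell_zero] at h2
        exact lt_irrefl _ h2
      exact lt_of_le_of_ne (ha r h1) (Ne.symm (hreg r h3))
    obtain ⟨rm, hrm, hmin⟩ := F.exists_min_image (fun r => tau (A r) a w) hne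
    have hden : ∀ r ∈ F, 0 < ell (A r) a - ell (A r) w := fun r hr => by
      have h1 := hpos r hr
      have h2 := ((hFm r).1 hr).2
      linarith
    refine ⟨tau (A rm) a w, div_pos (hpos rm hrm) (hden rm hrm), ?_, fun t ht0 ht r hr => ?_,
      Or.inr ⟨?_, fun t ht => ⟨rm, ((hFm rm).1 hrm).1, ?_⟩⟩⟩
    · unfold tau
      rw [div_le_one (hden rm hrm)]
      have := ((hFm rm).1 hrm).2
      linarith
    · rw [ell_seg]
      by_cases h2 : 0 ≤ ell (A r) w
      · have h3 : t ≤ 1 := by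
          refine ht.trans ?_
          unfold tau
          rw [div_le_one (hden rm hrm)]
          have := ((hFm rm).1 hrm).2
          linarith
        have h4 := ha r hr
        have h5 : 0 ≤ 1 - t := by linarith
        positivity
      · push Not at h2
        have hrF : r ∈ F := (hFm r).2 ⟨hr, h2⟩
        have h3 := ht.trans (hmin r hrF)
        unfold tau at h3
        rw [le_div_iff₀ (hden r hrF)] at h3
        linarith
    · unfold tau
      rw [div_lt_one (hden rm hrm)]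
      have := ((hFm rm).1 hrm).2
      linarith
    · rw [ell_seg]
      unfold tau at ht
      rw [div_lt_iff₀ (hden rm hrm)] at ht
      linarith

end Pool.Agent.U189.MG
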